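import Pool.Agent.W5h31.RC.Core

set_option autoImplicit false
set_option linter.unusedSectionVars false

/-! # The alive colours: model and counting -/

namespace Pool.Agent.W5h31.RC

open Finset Pool.Agent.H256R2.SC

variable {m n : ℕ} {κ : Type} [Fintype κ] [DecidableEq κ]

/-- the colours not hit by `xs` -/
def aliveOf (xs : Col m κ) : Finset κ := univ.filter (fun k => ∀ j, xs j ≠ some k)

/-- probability that the colours of `L` are alive -/
noncomputable def wS (gs : Fin m → ℝ) (L : Finset κ) : ℝ := ∏ j, (1 - (L.card : ℝ) * gs j)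

lemma sum_wt_notin (g : ℝ) (L : Finset κ) :
    ∑ c : Option κ, wt g c * (if ∀ k ∈ L, c ≠ some k then (1 : ℝ) else 0) =
      1 - (L.card : ℝ) * g := by
  rw [Fintype.sum_option]
  have e1 : ∀ l : κ, wt g (some l) * (if ∀ k ∈ L, (some l : Option κ) ≠ some k then (1 : ℝ) else 0) =
      g - if l ∈ L then g else 0 := by
    intro l
    have e2 : (∀ k ∈ L, (some l : Option κ) ≠ some k) ↔ l ∉ L := by
      constructor
      · intro h hl
        exact h l hl rfl
      · intro h k hk e
        exact h (Option.some.inj e ▸ hk)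
    by_cases hl : l ∈ L
    · rw [if_neg (fun h => (e2.1 h) hl), if_pos hl]
      simp
    · rw [if_pos (e2.2 hl), if_neg hl]
      simp [wt]
  simp_rw [e1]
  rw [Finset.sum_sub_distrib, Finset.sum_const, Finset.card_univ, nsmul_eq_mul,
    Finset.sum_ite_mem, Finset.univ_inter, Finset.sum_const, nsmul_eq_mul]
  simp [wt]

theorem Al_model (gs : Fin m → ℝ) (h0 : ∀ j, 0 ≤ gs j)
    (h1 : ∀ j, (Fintype.card κ : ℝ) * gs j ≤ 1) :
    Al (fun xs : Col m κ => ∏ j, wt (gs j) (xs j)) (fun xs => aliveOf xs) (wS gs) where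
  pr0 := fun xs => Finset.prod_nonneg fun j _ => wt_nonneg (h0 j) (h1 j) _
  mean := by
    intro L
    have e1 : ∀ xs : Col m κ, (if L ⊆ aliveOf xs then (1 : ℝ) else 0) =
        ∏ j, (if ∀ k ∈ L, xs j ≠ some k then (1 : ℝ) else 0) := by
      intro xs
      by_cases h : L ⊆ aliveOf xs
      · rw [if_pos h]
        symm
        refine Finset.prod_eq_one fun j _ => ?_
        rw [if_pos]
        intro k hk
        exact (Finset.mem_filter.1 (h hk)).2 j
      · rw [if_neg h]
        rw [Finset.not_subset] at h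
        obtain ⟨k, hk, hk'⟩ := h
        have : ∃ j, xs j = some k := by
          by_contra hc
          push Not at hc
          exact hk' (Finset.mem_filter.2 ⟨mem_univ _, hc⟩)
        obtain ⟨j, hj⟩ := this
        symm
        refine Finset.prod_eq_zero (mem_univ j) ?_
        rw [if_neg]
        intro h2
        exact h2 k hk hj
    simp_rw [e1]
    have e2 := EE_prod (κ := κ) gs (fun _ c => if ∀ k ∈ L, c ≠ some k then (1 : ℝ) else 0)
    unfold EE at e2
    rw [e2]
    unfold wS
    refine Finset.prod_congr rfl fun j _ => ?_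
    exact sum_wt_notin (gs j) L

theorem Wt_model (gs : Fin m → ℝ) (h0 : ∀ j, 0 ≤ gs j)
    (h1 : ∀ j, (Fintype.card κ : ℝ) * gs j ≤ 1) (h2 : ∀ j, gs j ≤ 1) :
    Wt (κ := κ) (wS gs) (∏ j, (1 - gs j)) where
  w0 := by
    intro L
    unfold wS
    refine Finset.prod_nonneg fun j _ => ?_
    have h3 : (L.card : ℝ) ≤ Fintype.card κ := by
      have := Finset.card_le_univ L
      exact_mod_cast this
    have h4 := mul_le_mul_of_nonneg_right h3 (h0 j)
    have := h1 j
    linarith
  b0 := Finset.prod_nonneg fun j _ => by linarith [h2 j]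
  b1 := Finset.prod_le_one (fun j _ => by linarith [h2 j]) fun j _ => by linarith [h0 j]
  emp := by simp [wS]
  step := by
    intro L k hk
    unfold wS
    rw [← Finset.prod_mul_distrib]
    have h3 : ((insert k L).card : ℝ) ≤ Fintype.card κ := by
      have := Finset.card_le_univ (insert k L)
      exact_mod_cast this
    rw [Finset.card_insert_of_notMem hk] at h3 ⊢
    push_cast at h3 ⊢
    refine Finset.prod_le_prod (fun j _ => ?_) fun j _ => ?_
    · have h4 := mul_le_mul_of_nonneg_right h3 (h0 j)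
      have := h1 j
      linarith
    · have := h0 j
      have hL : (0:ℝ) ≤ L.card := Nat.cast_nonneg _
      nlinarith [mul_nonneg hL (mul_nonneg this this)]

/-- small primes hitting a colour of `L` -/
def hitsL (L : Finset κ) (xs : Col m κ) : Finset (Fin m) :=
  univ.filter (fun j => ∃ k ∈ L, xs j = some k)

lemma subset_aliveOf (L : Finset κ) (xs : Col m κ) : L ⊆ aliveOf xs ↔ hitsL L xs = ∅ := by
  unfold aliveOf hitsL
  rw [Finset.filter_eq_empty_iff]
  constructor
  · intro h j _ hj
    obtain ⟨k, hk, hj⟩ := hj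
    exact (Finset.mem_filter.1 (h hk)).2 j hj
  · intro h k hk
    refine Finset.mem_filter.2 ⟨mem_univ _, fun j hj => ?_⟩
    exact h (mem_univ j) ⟨k, hk, hj⟩

/-- patterns with at most `J` entries and colours in `L` -/
def Pat (m : ℕ) (J : ℕ) (L : Finset κ) : Finset (Col m κ) :=
  univ.filter (fun E => cs E ⊆ L ∧ (supp E).card ≤ J)

/-- truncated inclusion exclusion -/
noncomputable def SB (J : ℕ) (L : Finset κ) (xs : Col m κ) : ℝ :=
  ∑ E ∈ Pat m J L, (-1 : ℝ) ^ (supp E).card * ind E xs

lemma SB_eq' (J : ℕ) (L : Finset κ) (xs : Col m κ) :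
    SB J L xs = ∑ s ∈ (hitsL L xs).powerset, (if s.card ≤ J then (-1 : ℝ) ^ s.card else 0) := by
  classical
  unfold SB
  rw [← Finset.sum_filter]
  have e1 : ∑ E ∈ Pat m J L, (-1 : ℝ) ^ (supp E).card * ind E xs =
      ∑ E ∈ (Pat m J L).filter (fun E => ∀ i, E i ≠ none → xs i = E i),
        (-1 : ℝ) ^ (supp E).card := by
    rw [Finset.sum_filter]
    refine Finset.sum_congr rfl fun E _ => ?_
    unfold ind
    split_ifs <;> ring
  rw [e1]
  refine Finset.sum_bij' (fun E _ => supp E) (fun s _ => fun i => if i ∈ s then xs i else none)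
    ?_ ?_ ?_ ?_ ?_
  · intro E hE
    rw [Finset.mem_filter, Pat, Finset.mem_filter] at hE
    obtain ⟨⟨_, hE1, hE2⟩, hE3⟩ := hE
    rw [Finset.mem_filter, Finset.mem_powerset]
    refine ⟨?_, hE2⟩
    intro i hi
    have hi' := mem_supp.1 hi
    obtain ⟨k, hk⟩ := Option.ne_none_iff_exists'.mp hi'
    refine Finset.mem_filter.2 ⟨mem_univ _, k, hE1 (mem_cs.2 ⟨i, hk⟩), ?_⟩
    rw [hE3 i hi', hk]
  · intro s hs
    rw [Finset.mem_filter, Finset.mem_powerset] at hs
    obtain ⟨hs1, hs2⟩ := hs
    have hsupp : supp (fun i => if i ∈ s then xs i else none : Col m κ) = s := by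
      ext i
      rw [mem_supp]
      constructor
      · intro h
        by_contra hi
        exact h (by rw [if_neg hi])
      · intro hi
        rw [if_pos hi]
        obtain ⟨k, _, hk⟩ := (Finset.mem_filter.1 (hs1 hi)).2
        rw [hk]
        simp
    rw [Finset.mem_filter, Pat, Finset.mem_filter, hsupp]
    refine ⟨⟨mem_univ _, ?_, hs2⟩, ?_⟩
    · intro k hk
      rw [mem_cs] at hk
      obtain ⟨i, hi⟩ := hk
      by_cases his : i ∈ s
      · rw [if_pos his] at hi
        obtain ⟨l, hl, hl'⟩ := (Finset.mem_filter.1 (hs1 his)).2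
        rw [hl'] at hi
        exact Option.some.inj hi ▸ hl
      · rw [if_neg his] at hi
        exact absurd hi (by simp)
    · intro i hi
      by_cases his : i ∈ s
      · simp only [if_pos his]
      · simp only [if_neg his] at hi
        exact absurd rfl hi
  · intro E hE
    rw [Finset.mem_filter, Pat, Finset.mem_filter] at hE
    obtain ⟨_, hE3⟩ := hE
    funext i
    by_cases hi : i ∈ supp E
    · rw [if_pos hi]
      exact hE3 i (mem_supp.1 hi)
    · rw [if_neg hi]
      have : ¬ E i ≠ none := fun h => hi (mem_supp.2 h)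
      exact (not_not.1 this).symm
  · intro s hs
    rw [Finset.mem_filter, Finset.mem_powerset] at hs
    obtain ⟨hs1, hs2⟩ := hs
    ext i
    rw [mem_supp]
    constructor
    · intro h
      by_contra hi
      exact h (by rw [if_neg hi])
    · intro hi
      rw [if_pos hi]
      obtain ⟨k, _, hk⟩ := (Finset.mem_filter.1 (hs1 hi)).2
      rw [hk]
      simp
  · intro E _
    rfl

lemma SB_eq (J : ℕ) (L : Finset κ) (xs : Col m κ) :
    SB J L xs = ∑ r ∈ range (J + 1), (-1 : ℝ) ^ r * ((hitsL L xs).card.choose r : ℝ) := by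
  classical
  set T := hitsL L xs with hT
  rw [SB_eq', ← hT, sum_powerset_apply_card (fun m => if m ≤ J then (-1 : ℝ) ^ m else 0)]
  have h2 : ∀ m, T.card < m → ((T.card.choose m : ℕ) : ℝ) = 0 := by
    intro m hm
    rw [Nat.choose_eq_zero_of_lt hm, Nat.cast_zero]
  have h3 : ∑ m ∈ range (T.card + 1), T.card.choose m • (if m ≤ J then (-1 : ℝ) ^ m else 0) =
      ∑ m ∈ range (T.card + 1 + (J + 1)), (T.card.choose m : ℝ) *
        (if m ≤ J then (-1 : ℝ) ^ m else 0) := by
    rw [← sum_subset (range_subset_range.2 (Nat.le_add_right (T.card + 1) (J + 1)))]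
    · refine sum_congr rfl fun m _ => ?_
      rw [nsmul_eq_mul]
    · intro m _ hm
      rw [mem_range, not_lt] at hm
      rw [h2 m (by omega), zero_mul]
  have h4 : ∑ m ∈ range (J + 1), (-1 : ℝ) ^ m * ((T.card.choose m : ℕ) : ℝ) =
      ∑ m ∈ range (T.card + 1 + (J + 1)), (T.card.choose m : ℝ) *
        (if m ≤ J then (-1 : ℝ) ^ m else 0) := by
    rw [← sum_subset (range_subset_range.2 (Nat.le_add_left (J + 1) (T.card + 1)))]
    · refine sum_congr rfl fun m hm => ?_
      rw [mem_range] at hm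
      rw [if_pos (by omega), mul_comm]
    · intro m _ hm
      rw [mem_range, not_lt] at hm
      rw [if_neg (by omega), mul_zero]
  rw [h3, h4]

/-- value of the truncated sum -/
lemma SB_val (J : ℕ) (L : Finset κ) (xs : Col m κ) :
    SB J L xs = if (hitsL L xs).card = 0 then 1 else
      (-1 : ℝ) ^ J * (((hitsL L xs).card - 1).choose J : ℝ) := by
  rw [SB_eq]
  split_ifs with h
  · rw [h, sum_range_succ', sum_eq_zero]
    · simp
    · intro m _
      simp
  · obtain ⟨N, hN⟩ : ∃ N, (hitsL L xs).card = N + 1 := ⟨(hitsL L xs).card - 1, by omega⟩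
    rw [hN]
    have h1 := Int.alternating_sum_range_choose_eq_choose (n := N) (m := J)
    have h2 : (((∑ i ∈ range (J + 1), ((-1 : ℤ) ^ i * ((N + 1).choose i : ℤ)) : ℤ)) : ℝ) =
        (((-1 : ℤ) ^ J * (N.choose J : ℤ) : ℤ) : ℝ) := by
      rw [h1]
    push_cast at h2
    rw [h2]
    simp

lemma SB_ind (J : ℕ) (L : Finset κ) (xs : Col m κ) (t : ℝ) (ht : 0 < t) :
    |SB J L xs - (if L ⊆ aliveOf xs then 1 else 0)| ≤
      (1 / t) ^ J * ∏ j, (if ∃ k ∈ L, xs j = some k then 1 + t else 1) := by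
  have hprod : ∏ i, (if ∃ k ∈ L, xs i = some k then 1 + t else 1) =
      (1 + t) ^ (hitsL L xs).card := by
    rw [prod_ite, prod_const_one, mul_one, prod_const]
    rfl
  have h0 : 0 ≤ (1 / t) ^ J * ∏ i, (if ∃ k ∈ L, xs i = some k then 1 + t else 1) := by
    rw [hprod]
    positivity
  rw [SB_val]
  by_cases h : (hitsL L xs).card = 0
  · rw [if_pos h, if_pos ((subset_aliveOf L xs).2 (Finset.card_eq_zero.1 h))]
    simpa using h0
  · rw [if_neg h, if_neg (fun h' => h (Finset.card_eq_zero.2 ((subset_aliveOf L xs).1 h'))),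
      sub_zero, abs_mul, abs_pow, abs_neg, abs_one, one_pow, one_mul, Nat.abs_cast, hprod]
    obtain ⟨N, hN⟩ : ∃ N, (hitsL L xs).card = N + 1 := ⟨(hitsL L xs).card - 1, by omega⟩
    rw [hN]
    have h1 : ((N + 1 - 1).choose J : ℝ) ≤ ((N + 1).choose J : ℝ) := by
      exact_mod_cast Nat.choose_le_choose J (Nat.le_succ N)
    have h2 : t ^ J * ((N + 1).choose J : ℝ) ≤ (1 + t) ^ (N + 1) := by
      rcases le_or_gt J (N + 1) with hJN | hJN
      · rw [add_comm 1 t, add_pow]
        have h3 := single_le_sum (f := fun m => t ^ m * 1 ^ (N + 1 - m) *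
          ((N + 1).choose m : ℝ)) (s := range (N + 1 + 1)) (fun m _ => by positivity)
          (mem_range.2 (by omega : J < N + 1 + 1))
        simpa using h3
      · rw [Nat.choose_eq_zero_of_lt hJN, Nat.cast_zero, mul_zero]
        positivity
    have h4 : (1 / t) ^ J * t ^ J = 1 := by
      rw [← mul_pow, one_div_mul_cancel ht.ne', one_pow]
    calc ((N + 1 - 1).choose J : ℝ) ≤ ((N + 1).choose J : ℝ) := h1
      _ = (1 / t) ^ J * (t ^ J * ((N + 1).choose J : ℝ)) := by
        rw [← mul_assoc, h4, one_mul]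
      _ ≤ (1 / t) ^ J * (1 + t) ^ (N + 1) := by gcongr

lemma SB_even (J : ℕ) (hJ : Even J) (L : Finset κ) (xs : Col m κ) :
    (if L ⊆ aliveOf xs then (1 : ℝ) else 0) ≤ SB J L xs := by
  rw [SB_val]
  by_cases h : (hitsL L xs).card = 0
  · rw [if_pos h, if_pos ((subset_aliveOf L xs).2 (Finset.card_eq_zero.1 h))]
  · rw [if_neg h, if_neg (fun h' => h (Finset.card_eq_zero.2 ((subset_aliveOf L xs).1 h'))),
      hJ.neg_one_pow, one_mul]
    exact Nat.cast_nonneg _

lemma SB_odd (J : ℕ) (hJ : Odd J) (L : Finset κ) (xs : Col m κ) :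
    SB J L xs ≤ (if L ⊆ aliveOf xs then (1 : ℝ) else 0) := by
  rw [SB_val]
  by_cases h : (hitsL L xs).card = 0
  · rw [if_pos h, if_pos ((subset_aliveOf L xs).2 (Finset.card_eq_zero.1 h))]
  · rw [if_neg h, if_neg (fun h' => h (Finset.card_eq_zero.2 ((subset_aliveOf L xs).1 h'))),
      hJ.neg_one_pow, neg_one_mul]
    have : (0:ℝ) ≤ (((hitsL L xs).card - 1).choose J : ℝ) := Nat.cast_nonneg _
    linarith

/-- number of patterns -/
lemma card_Pat (m J : ℕ) (L : Finset κ) :
    ((Pat m J L).card : ℝ) ≤ 3 * ((m : ℝ) * L.card + 1) ^ J := by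
  classical
  set X : ℝ := (m : ℝ) * L.card + 1 with hX
  have hmL : (0:ℝ) ≤ (m : ℝ) * L.card := by positivity
  have hX1 : 1 ≤ X := by linarith
  have hX0 : 0 < X := by linarith
  have h1 : (Pat m J L).card • (1 : ℝ) ≤ ∑ E ∈ Pat m J L, X ^ J * ∏ i,
      (if E i = none then (1 : ℝ) else 1 / X) := by
    refine Finset.card_nsmul_le_sum _ _ _ fun E hE => ?_
    rw [Pat, Finset.mem_filter] at hE
    have e1 : ∏ i, (if E i = none then (1 : ℝ) else 1 / X) = (1 / X) ^ (supp E).card := by
      rw [prod_ite, prod_const_one, one_mul, prod_const]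
      rfl
    rw [e1, one_div, inv_pow, ← div_eq_mul_inv, one_le_div (by positivity)]
    exact pow_le_pow_right₀ hX1 hE.2.2
  rw [nsmul_eq_mul, mul_one] at h1
  refine h1.trans ?_
  rw [← Finset.mul_sum]
  have h2 : ∑ E ∈ Pat m J L, ∏ i, (if E i = none then (1 : ℝ) else 1 / X) ≤ 3 := by
    calc ∑ E ∈ Pat m J L, ∏ i, (if E i = none then (1 : ℝ) else 1 / X)
        ≤ ∑ E ∈ Fintype.piFinset (fun _ : Fin m => Finset.insertNone L), ∏ i,
            (if E i = none then (1 : ℝ) else 1 / X) := by
          refine Finset.sum_le_sum_of_subset_of_nonneg ?_ fun E _ _ =>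
            Finset.prod_nonneg fun i _ => by split_ifs <;> positivity
          intro E hE
          rw [Pat, Finset.mem_filter] at hE
          rw [Fintype.mem_piFinset]
          intro i
          cases hD : E i with
          | none => exact Finset.none_mem_insertNone
          | some k =>
            rw [Finset.some_mem_insertNone]
            exact hE.2.1 (mem_cs.2 ⟨i, hD⟩)
      _ = ∏ i : Fin m, ∑ b ∈ Finset.insertNone L, (if b = none then (1 : ℝ) else 1 / X) := by
          rw [Finset.prod_univ_sum]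
      _ = (1 + L.card / X) ^ m := by
          have e2 : ∑ b ∈ Finset.insertNone L, (if b = none then (1 : ℝ) else 1 / X) =
              1 + L.card / X := by
            rw [Finset.sum_insertNone]
            simp
            ring
          rw [e2, Finset.prod_const, Finset.card_univ, Fintype.card_fin]
      _ ≤ (Real.exp (L.card / X)) ^ m := by
          have : (0:ℝ) ≤ L.card / X := by positivity
          apply pow_le_pow_left₀ (by linarith)
          have := Real.add_one_le_exp ((L.card : ℝ) / X)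
          linarith
      _ = Real.exp (m * (L.card / X)) := by rw [Real.exp_nat_mul]
      _ ≤ Real.exp 1 := by
          apply Real.exp_le_exp.2
          rw [← mul_div_assoc, div_le_one hX0]
          linarith
      _ ≤ 3 := Real.exp_one_lt_three.le
  have h3 := mul_le_mul_of_nonneg_left h2 (pow_nonneg hX0.le J)
  linarith

/-- mean of the truncated sum -/
lemma EE_SB (gs : Fin m → ℝ) (J : ℕ) (L : Finset κ) :
    EE gs (fun xs : Col m κ => SB J L xs) = ∑ E ∈ Pat m J L, (-1 : ℝ) ^ (supp E).card * nu gs E := by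
  unfold SB
  rw [EE_sum]
  refine Finset.sum_congr rfl fun E _ => ?_
  rw [EE_smul, EE_ind]

lemma EE_SB_sub (gs : Fin m → ℝ) (h0 : ∀ j, 0 ≤ gs j)
    (h1 : ∀ j, (Fintype.card κ : ℝ) * gs j ≤ 1) (J : ℕ) (L : Finset κ) (t : ℝ) (ht : 0 < t) :
    |EE gs (fun xs : Col m κ => SB J L xs) - wS gs L| ≤
      (1 / t) ^ J * Real.exp (t * (L.card * ∑ j, gs j)) := by
  have hw : ∀ i (c : Option κ), 0 ≤ wt (gs i) c := fun i c => wt_nonneg (h0 i) (h1 i) c
  have e1 : wS gs L = EE gs (fun xs : Col m κ => if L ⊆ aliveOf xs then (1 : ℝ) else 0) := by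
    rw [← (Al_model gs h0 h1).mean L]
    rfl
  rw [e1, ← EE_sub]
  have e2 : |EE gs (fun xs : Col m κ => SB J L xs - if L ⊆ aliveOf xs then (1 : ℝ) else 0)| ≤
      EE gs (fun xs : Col m κ => (1 / t) ^ J *
        ∏ j, (if ∃ k ∈ L, xs j = some k then 1 + t else 1)) := by
    rw [abs_le]
    constructor
    · have e3 := EE_mono hw (F := fun xs : Col m κ => (-1) * ((1 / t) ^ J *
        ∏ j, (if ∃ k ∈ L, xs j = some k then 1 + t else 1)))
        (G := fun xs : Col m κ => SB J L xs - if L ⊆ aliveOf xs then (1 : ℝ) else 0)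
        (fun xs => by
          have := (abs_le.1 (SB_ind J L xs t ht)).1
          linarith)
      rw [EE_smul] at e3
      linarith
    · exact EE_mono hw fun xs => (abs_le.1 (SB_ind J L xs t ht)).2
  refine e2.trans ?_
  rw [EE_smul]
  refine mul_le_mul_of_nonneg_left ?_ (by positivity)
  rw [EE_prod gs (fun _ c => if ∃ k ∈ L, c = some k then 1 + t else 1), Finset.mul_sum,
    Finset.mul_sum, Real.exp_sum]
  refine Finset.prod_le_prod (fun i _ => Finset.sum_nonneg fun c _ => ?_) fun i _ => ?_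
  · have := hw i c
    split_ifs <;> positivity
  · have e4 : ∑ c : Option κ, wt (gs i) c * (if ∃ k ∈ L, c = some k then 1 + t else 1) =
        1 + t * (L.card * gs i) := by
      rw [Fintype.sum_option]
      have e5 : ∀ l : κ, wt (gs i) (some l) *
          (if ∃ k ∈ L, (some l : Option κ) = some k then 1 + t else 1) =
          gs i + if l ∈ L then t * gs i else 0 := by
        intro l
        by_cases hl : l ∈ L
        · rw [if_pos ⟨l, hl, rfl⟩, if_pos hl]
          simp only [wt]
          ring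
        · rw [if_neg, if_neg hl]
          · simp only [wt]
            ring
          · rintro ⟨k, hk, e⟩
            exact hl (Option.some.inj e ▸ hk)
      simp_rw [e5]
      rw [Finset.sum_add_distrib, Finset.sum_const, Finset.card_univ, nsmul_eq_mul,
        Finset.sum_ite_mem, Finset.univ_inter, Finset.sum_const, nsmul_eq_mul]
      simp [wt]
      ring
    rw [e4, add_comm]
    exact Real.add_one_le_exp _

/-- counting with alive colours -/
theorem count_alive {α : Type} [DecidableEq α] (𝒜 : Finset α) (col : α → Col n κ)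
    (scol : α → Col m κ) (g : Fin n → ℝ) (gs : Fin m → ℝ) (hg : ∀ i, 0 ≤ g i)
    (h0 : ∀ j, 0 ≤ gs j)
    (h1 : ∀ j, (Fintype.card κ : ℝ) * gs j ≤ 1) (N : ℝ) (hN : 0 ≤ N)
    (hc : ∀ (D : Col n κ) (E : Col m κ), |((𝒜.filter (fun a => (∀ i, D i ≠ none → col a i = D i) ∧
      (∀ i, E i ≠ none → scol a i = E i))).card : ℝ) - N * (nu g D * nu gs E)| ≤ 1)
    (D : Col n κ) (L : Finset κ) (J : ℕ) (hJ : Even J) (t : ℝ) (ht : 1 ≤ t) :
    |((𝒜.filter (fun a => (∀ i, D i ≠ none → col a i = D i) ∧ L ⊆ aliveOf (scol a))).card : ℝ) -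
        N * (nu g D * wS gs L)| ≤
      (1 / t) ^ J * Real.exp (t * (L.card * ∑ j, gs j)) * (N * nu g D) +
        3 * ((m : ℝ) * L.card + 1) ^ (J + 1) := by
  have ht0 : 0 < t := by linarith
  set 𝒟 : Finset α := 𝒜.filter (fun a => ∀ i, D i ≠ none → col a i = D i) with h𝒟
  have hν : 0 ≤ nu g D := by
    unfold nu
    rw [prod_nu1]
    exact Finset.prod_nonneg fun j _ => hg j
  have e1 : ((𝒜.filter (fun a => (∀ i, D i ≠ none → col a i = D i) ∧
      L ⊆ aliveOf (scol a))).card : ℝ) = ∑ a ∈ 𝒟, (if L ⊆ aliveOf (scol a) then (1 : ℝ) else 0) := by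
    rw [h𝒟, Finset.sum_ite, Finset.sum_const_zero, add_zero, Finset.sum_const, nsmul_eq_mul,
      mul_one, Finset.filter_filter]
  -- sums of the truncated functions
  have e2 : ∀ J' : ℕ, |∑ a ∈ 𝒟, SB J' L (scol a) -
      N * nu g D * EE gs (fun xs : Col m κ => SB J' L xs)| ≤ 3 * ((m : ℝ) * L.card + 1) ^ J' := by
    intro J'
    rw [EE_SB]
    unfold SB
    rw [Finset.sum_comm, Finset.mul_sum, ← Finset.sum_sub_distrib]
    refine (Finset.abs_sum_le_sum_abs _ _).trans ?_
    refine le_trans ?_ (card_Pat m J' L)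
    have e3 : ∀ E ∈ Pat m J' L, |∑ a ∈ 𝒟, (-1 : ℝ) ^ (supp E).card * ind E (scol a) -
        N * nu g D * ((-1 : ℝ) ^ (supp E).card * nu gs E)| ≤ 1 := by
      intro E _
      rw [← Finset.mul_sum]
      have e4 : ∑ a ∈ 𝒟, ind E (scol a) =
          ((𝒜.filter (fun a => (∀ i, D i ≠ none → col a i = D i) ∧
            (∀ i, E i ≠ none → scol a i = E i))).card : ℝ) := by
        unfold ind
        rw [h𝒟, Finset.sum_ite, Finset.sum_const_zero, add_zero, Finset.sum_const, nsmul_eq_mul,
          mul_one, Finset.filter_filter]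
      rw [e4]
      have e5 : (-1 : ℝ) ^ (supp E).card *
          ((𝒜.filter (fun a => (∀ i, D i ≠ none → col a i = D i) ∧
            (∀ i, E i ≠ none → scol a i = E i))).card : ℝ) -
          N * nu g D * ((-1 : ℝ) ^ (supp E).card * nu gs E) =
          (-1 : ℝ) ^ (supp E).card * (((𝒜.filter (fun a => (∀ i, D i ≠ none → col a i = D i) ∧
            (∀ i, E i ≠ none → scol a i = E i))).card : ℝ) - N * (nu g D * nu gs E)) := by ring
      rw [e5, abs_mul, abs_pow, abs_neg, abs_one, one_pow, one_mul]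
      exact hc D E
    have e6 := Finset.sum_le_card_nsmul _ _ _ e3
    rw [nsmul_eq_mul, mul_one] at e6
    exact e6
  have hmean := (Al_model (κ := κ) gs h0 h1)
  have hX1 : (1:ℝ) ≤ (m : ℝ) * L.card + 1 := by
    have : (0:ℝ) ≤ (m : ℝ) * L.card := by positivity
    linarith
  have hpow : ((m : ℝ) * L.card + 1) ^ J ≤ ((m : ℝ) * L.card + 1) ^ (J + 1) :=
    pow_le_pow_right₀ hX1 (Nat.le_succ J)
  have hE0 := Real.exp_pos (t * (L.card * ∑ j, gs j))
  have htp : (1 / t) ^ (J + 1) ≤ (1 / t) ^ J := by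
    apply pow_le_pow_of_le_one (by positivity) _ (Nat.le_succ J)
    rw [div_le_one ht0]
    exact ht
  have hNν : 0 ≤ N * nu g D := mul_nonneg hN hν
  rw [e1, abs_le]
  constructor
  · -- lower bound by the odd truncation
    have f1 : ∑ a ∈ 𝒟, SB (J + 1) L (scol a) ≤
        ∑ a ∈ 𝒟, (if L ⊆ aliveOf (scol a) then (1 : ℝ) else 0) :=
      Finset.sum_le_sum fun a _ => SB_odd (J + 1) hJ.add_one L _
    have f2 := (abs_le.1 (e2 (J + 1))).1
    have f3 := (abs_le.1 (EE_SB_sub gs h0 h1 (J + 1) L t ht0)).1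
    have f4 := mul_le_mul_of_nonneg_left f3 hNν
    have f5 : (1 / t) ^ (J + 1) * Real.exp (t * (L.card * ∑ j, gs j)) * (N * nu g D) ≤
        (1 / t) ^ J * Real.exp (t * (L.card * ∑ j, gs j)) * (N * nu g D) :=
      mul_le_mul_of_nonneg_right (mul_le_mul_of_nonneg_right htp hE0.le) hNν
    nlinarith
  · have f1 : ∑ a ∈ 𝒟, (if L ⊆ aliveOf (scol a) then (1 : ℝ) else 0) ≤
        ∑ a ∈ 𝒟, SB J L (scol a) :=
      Finset.sum_le_sum fun a _ => SB_even J hJ L _
    have f2 := (abs_le.1 (e2 J)).2
    have f3 := (abs_le.1 (EE_SB_sub gs h0 h1 J L t ht0)).2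
    have f4 := mul_le_mul_of_nonneg_left f3 hNν
    nlinarith

end Pool.Agent.W5h31.RC
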