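import Pool.Agent.W5h31.RC.Rep
import Pool.Agent.H256R2.SC.I

set_option autoImplicit false
set_option linter.unusedSectionVars false

/-! # The covering theorem with alive colours -/

namespace Pool.Agent.W5h31.RC

open Finset Pool.Agent.H256R2.SC

variable {n : ℕ} {κ : Type} [Fintype κ] [DecidableEq κ]

theorem EE_prod (g : Fin n → ℝ) (f : Fin n → Option κ → ℝ) :
    EE g (fun x => ∏ i, f i (x i)) = ∏ i, ∑ c, wt (g i) c * f i c := by
  unfold EE
  rw [Finset.prod_univ_sum, Fintype.piFinset_univ]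
  refine Finset.sum_congr rfl fun x _ => ?_
  rw [Finset.prod_mul_distrib]

/-- local majorant attached to a set of colours -/
noncomputable def aL (g : ℝ) (L : Finset κ) (c : Option κ) : ℝ :=
  1 + ∑ k ∈ L, ((if c = some k then (1 : ℝ) else 0) + g)

lemma aL_ge_one {g : ℝ} (hg : 0 ≤ g) (L : Finset κ) (c : Option κ) : 1 ≤ aL g L c := by
  unfold aL
  have : 0 ≤ ∑ k ∈ L, ((if c = some k then (1 : ℝ) else 0) + g) :=
    Finset.sum_nonneg fun k _ => by split_ifs <;> positivity
  linarith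

lemma aL_mono {g : ℝ} (hg : 0 ≤ g) {L L' : Finset κ} (h : L ⊆ L') (c : Option κ) :
    aL g L c ≤ aL g L' c := by
  unfold aL
  have : ∑ k ∈ L, ((if c = some k then (1 : ℝ) else 0) + g) ≤
      ∑ k ∈ L', ((if c = some k then (1 : ℝ) else 0) + g) :=
    Finset.sum_le_sum_of_subset_of_nonneg h fun k _ _ => by split_ifs <;> positivity
  linarith

lemma aL_none (g : ℝ) (L : Finset κ) : aL g L none = 1 + L.card * g := by
  unfold aL
  simp

lemma aL_some (g : ℝ) (L : Finset κ) (l : κ) :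
    aL g L (some l) = 1 + L.card * g + (if l ∈ L then 1 else 0) := by
  unfold aL
  rw [Finset.sum_add_distrib, Finset.sum_const, nsmul_eq_mul]
  have : ∑ k ∈ L, (if (some l : Option κ) = some k then (1 : ℝ) else 0) =
      if l ∈ L then 1 else 0 := by
    simp [Option.some.injEq]
  rw [this]
  ring

lemma local_cube {g : ℝ} (hg : 0 ≤ g) (L : Finset κ) (hL : (L.card : ℝ) * g ≤ 1) :
    ∑ c : Option κ, wt g c * (aL g L c) ^ 3 ≤ Real.exp (34 * (L.card * g)) := by
  set b : ℝ := L.card * g with hb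
  have hb0 : 0 ≤ b := by positivity
  rw [Fintype.sum_option, aL_none]
  simp only [aL_some, wt]
  rw [← hb]
  have e1 : ∑ l : κ, g * (1 + b + if l ∈ L then (1:ℝ) else 0) ^ 3 =
      (Fintype.card κ : ℝ) * g * (1 + b) ^ 3 + b * ((2 + b) ^ 3 - (1 + b) ^ 3) := by
    have e2 : ∀ l : κ, g * (1 + b + if l ∈ L then (1:ℝ) else 0) ^ 3 =
        g * (1 + b) ^ 3 + if l ∈ L then g * ((2 + b) ^ 3 - (1 + b) ^ 3) else 0 := by
      intro l
      split_ifs <;> ring
    simp_rw [e2]
    rw [Finset.sum_add_distrib, Finset.sum_const, Finset.card_univ, nsmul_eq_mul,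
      Finset.sum_ite_mem, Finset.univ_inter, Finset.sum_const, nsmul_eq_mul, hb]
    ring
  rw [e1]
  have e3 := Real.add_one_le_exp (34 * b)
  nlinarith [mul_nonneg hb0 (sub_nonneg.2 hL), mul_nonneg (mul_nonneg hb0 hb0) (sub_nonneg.2 hL),
    mul_nonneg hb0 hb0, mul_nonneg (mul_nonneg hb0 hb0) hb0,
    mul_nonneg (mul_nonneg (mul_nonneg hb0 hb0) hb0) (sub_nonneg.2 hL)]

lemma EE_cube {g : Fin n → ℝ} (hg : ∀ i, 0 ≤ g i) (hw : ∀ i (c : Option κ), 0 ≤ wt (g i) c)
    (L : Finset κ) (M : ℕ) (hLM : L.card ≤ M) (hM : ∀ i, (M : ℝ) * g i ≤ 1) :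
    EE g (fun x => ∏ i, (aL (g i) L (x i)) ^ 3) ≤ Real.exp (34 * (M * ∑ i, g i)) := by
  rw [EE_prod g (fun i c => (aL (g i) L c) ^ 3), Finset.mul_sum, Finset.mul_sum, Real.exp_sum]
  have hLM' : (L.card : ℝ) ≤ M := by exact_mod_cast hLM
  refine Finset.prod_le_prod (fun i _ => Finset.sum_nonneg fun c _ => ?_) fun i _ => ?_
  · have := aL_ge_one (hg i) L c
    have := hw i c
    positivity
  · have h1 : (L.card : ℝ) * g i ≤ M * g i := mul_le_mul_of_nonneg_right hLM' (hg i)
    refine (local_cube (hg i) L (h1.trans (hM i))).trans ?_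
    apply Real.exp_le_exp.2
    linarith

lemma card_small' (M : ℕ) :
    ((univ.filter (fun s : Finset κ => s.card ≤ M)).card : ℝ) ≤
      ((Fintype.card κ : ℝ) + 1) ^ M := by
  have key : (univ.filter (fun s : Finset κ => s.card ≤ M)).card ≤ (Fintype.card κ + 1) ^ M := by
    induction M with
    | zero =>
      have h1 : (univ.filter (fun s : Finset κ => s.card ≤ 0)) = {∅} := by
        ext s
        simp
      rw [h1]
      simp
    | succ J ih =>
      have h1 : (univ.filter (fun s : Finset κ => s.card ≤ J + 1)) ⊆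
          (univ.filter (fun s : Finset κ => s.card ≤ J)) ∪ powersetCard (J + 1) univ := by
        intro s hs
        simp only [mem_filter, mem_univ, true_and, mem_union, mem_powersetCard,
          subset_univ] at hs ⊢
        omega
      have h2 := (Finset.card_le_card h1).trans (Finset.card_union_le _ _)
      rw [Finset.card_powersetCard, Finset.card_univ] at h2
      set n := Fintype.card κ
      have h3 : n.choose (J + 1) ≤ n ^ (J + 1) := Nat.choose_le_pow n (J + 1)
      have h4 : n ^ (J + 1) ≤ n * (n + 1) ^ J := by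
        rw [pow_succ, mul_comm]
        exact Nat.mul_le_mul_left n (Nat.pow_le_pow_left (Nat.le_succ n) J)
      calc (univ.filter (fun s : Finset κ => s.card ≤ J + 1)).card
          ≤ (n + 1) ^ J + n * (n + 1) ^ J := by omega
        _ = (n + 1) ^ (J + 1) := by ring
  exact_mod_cast key

lemma ph_sum_le (g : Fin n → ℝ) (hg : ∀ i, 0 ≤ g i) (M : ℕ) (x : Col n κ) :
    ∑ D : Col n κ with (cs D).card ≤ M, ph g x D ≤
      ∑ L : Finset κ with L.card ≤ M, ∏ i, aL (g i) L (x i) := by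
  classical
  have h1 : ∀ L : Finset κ, ∏ i, aL (g i) L (x i) = ∑ D : Col n κ with cs D ⊆ L, ph g x D := by
    intro L
    have e1 : ∀ i, aL (g i) L (x i) = ∑ b ∈ Finset.insertNone L, (match b with
        | none => (1 : ℝ)
        | some k => (if x i = some k then 1 else 0) + g i) := by
      intro i
      rw [Finset.sum_insertNone]
      rfl
    simp_rw [e1]
    rw [Finset.prod_univ_sum]
    refine Finset.sum_congr ?_ fun D _ => rfl
    ext D
    rw [Fintype.mem_piFinset, Finset.mem_filter]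
    constructor
    · intro h
      refine ⟨mem_univ _, ?_⟩
      intro k hk
      rw [mem_cs] at hk
      obtain ⟨i, hi⟩ := hk
      have := h i
      rw [hi, Finset.some_mem_insertNone] at this
      exact this
    · rintro ⟨_, h⟩ i
      cases hD : D i with
      | none => exact Finset.none_mem_insertNone
      | some k =>
        rw [Finset.some_mem_insertNone]
        exact h (mem_cs.2 ⟨i, hD⟩)
  have h2 : ∑ D : Col n κ with (cs D).card ≤ M, ph g x D =
      ∑ L : Finset κ with L.card ≤ M, ∑ D : Col n κ with cs D = L, ph g x D := by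
    rw [Finset.sum_filter, Finset.sum_filter]
    simp_rw [Finset.sum_filter]
    have e1 : ∀ L : Finset κ, (if L.card ≤ M then ∑ D : Col n κ, if cs D = L then ph g x D else 0
        else 0) = ∑ D : Col n κ, if cs D = L then (if L.card ≤ M then ph g x D else 0) else 0 := by
      intro L
      split_ifs
      · rfl
      · simp
    simp_rw [e1]
    rw [Finset.sum_comm]
    refine Finset.sum_congr rfl fun D _ => ?_
    rw [Finset.sum_ite_eq]
    simp
  rw [h2]
  refine Finset.sum_le_sum fun L _ => ?_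
  rw [h1]
  refine Finset.sum_le_sum_of_subset_of_nonneg ?_ fun D _ _ => ph_nonneg g hg x D
  intro D hD
  rw [Finset.mem_filter] at hD ⊢
  exact ⟨hD.1, hD.2 ▸ Finset.Subset.refl _⟩

lemma EE_Phi {g : Fin n → ℝ} (hg : ∀ i, 0 ≤ g i) (hw : ∀ i (c : Option κ), 0 ≤ wt (g i) c)
    (M : ℕ) (hM : ∀ i, ((2 * M + 1 : ℕ) : ℝ) * g i ≤ 1) :
    EE g (fun x : Col n κ => (∑ D : Col n κ with (cs D).card ≤ M, ph g x D) *
      (∑ D : Col n κ with (cs D).card ≤ M, ph g x D) *
      (1 + ∑ k, ∏ i, (if x i = some k then (2 : ℝ) else 1))) ≤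
      ((Fintype.card κ : ℝ) + 1) ^ (2 * M + 1) *
        Real.exp (34 * ((2 * M + 1 : ℕ) * ∑ i, g i)) := by
  classical
  set S : Finset (Finset κ) := univ.filter (fun s : Finset κ => s.card ≤ M) with hS
  set T : Option κ → Finset κ := fun o => match o with
    | none => ∅
    | some k => {k} with hT
  have hpt : ∀ x : Col n κ, (∑ D : Col n κ with (cs D).card ≤ M, ph g x D) *
      (∑ D : Col n κ with (cs D).card ≤ M, ph g x D) *
      (1 + ∑ k, ∏ i, (if x i = some k then (2 : ℝ) else 1)) ≤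
      ∑ L ∈ S, ∑ L' ∈ S, ∑ o : Option κ, ∏ i, (aL (g i) (L ∪ L' ∪ T o) (x i)) ^ 3 := by
    intro x
    have h1 := ph_sum_le g hg M x
    have h0 : 0 ≤ ∑ D : Col n κ with (cs D).card ≤ M, ph g x D :=
      Finset.sum_nonneg fun D _ => ph_nonneg g hg x D
    have h2 : 1 + ∑ k, ∏ i, (if x i = some k then (2 : ℝ) else 1) ≤
        ∑ o : Option κ, ∏ i, aL (g i) (T o) (x i) := by
      rw [Fintype.sum_option]
      refine add_le_add ?_ (Finset.sum_le_sum fun k _ => ?_)
      · simp [hT, aL]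
      · refine Finset.prod_le_prod (fun i _ => by split_ifs <;> norm_num) fun i _ => ?_
        have hgi := hg i
        simp only [hT, aL, Finset.sum_singleton]
        split_ifs <;> linarith
    have h3 : 0 ≤ 1 + ∑ k, ∏ i, (if x i = some k then (2 : ℝ) else 1) := by
      have : 0 ≤ ∑ k, ∏ i, (if x i = some k then (2 : ℝ) else 1) :=
        Finset.sum_nonneg fun k _ => Finset.prod_nonneg fun i _ => by split_ifs <;> norm_num
      linarith
    calc (∑ D : Col n κ with (cs D).card ≤ M, ph g x D) *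
        (∑ D : Col n κ with (cs D).card ≤ M, ph g x D) *
        (1 + ∑ k, ∏ i, (if x i = some k then (2 : ℝ) else 1))
        ≤ ((∑ L ∈ S, ∏ i, aL (g i) L (x i)) * (∑ L ∈ S, ∏ i, aL (g i) L (x i))) *
          ∑ o : Option κ, ∏ i, aL (g i) (T o) (x i) := by
          have h4 : (∑ D : Col n κ with (cs D).card ≤ M, ph g x D) *
              (∑ D : Col n κ with (cs D).card ≤ M, ph g x D) ≤
              (∑ L ∈ S, ∏ i, aL (g i) L (x i)) * (∑ L ∈ S, ∏ i, aL (g i) L (x i)) :=
            mul_le_mul h1 h1 h0 (h0.trans h1)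
          exact mul_le_mul h4 h2 h3 ((mul_nonneg h0 h0).trans h4)
      _ = ∑ L ∈ S, ∑ L' ∈ S, ∑ o : Option κ, ∏ i,
            (aL (g i) L (x i) * aL (g i) L' (x i) * aL (g i) (T o) (x i)) := by
          rw [Finset.sum_mul_sum, Finset.sum_mul]
          refine Finset.sum_congr rfl fun L _ => ?_
          rw [Finset.sum_mul]
          refine Finset.sum_congr rfl fun L' _ => ?_
          rw [Finset.mul_sum]
          refine Finset.sum_congr rfl fun o _ => ?_
          rw [Finset.prod_mul_distrib, Finset.prod_mul_distrib]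
      _ ≤ _ := by
          refine Finset.sum_le_sum fun L _ => Finset.sum_le_sum fun L' _ =>
            Finset.sum_le_sum fun o _ => ?_
          have a0 : ∀ (L : Finset κ) i, 0 ≤ aL (g i) L (x i) := fun L i =>
            zero_le_one.trans (aL_ge_one (hg i) L (x i))
          refine Finset.prod_le_prod (fun i _ => ?_) fun i _ => ?_
          · have h1 := a0 L i
            have h2 := a0 L' i
            have h3 := a0 (T o) i
            positivity
          · have h1 := aL_mono (hg i) (L := L) (L' := L ∪ L' ∪ T o) (by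
              intro a ha; simp [ha]) (x i)
            have h2 := aL_mono (hg i) (L := L') (L' := L ∪ L' ∪ T o) (by
              intro a ha; simp [ha]) (x i)
            have h3 := aL_mono (hg i) (L := T o) (L' := L ∪ L' ∪ T o) (by
              intro a ha; simp [ha]) (x i)
            have h0 := a0 (L ∪ L' ∪ T o) i
            calc aL (g i) L (x i) * aL (g i) L' (x i) * aL (g i) (T o) (x i)
                ≤ aL (g i) (L ∪ L' ∪ T o) (x i) * aL (g i) (L ∪ L' ∪ T o) (x i) *
                  aL (g i) (L ∪ L' ∪ T o) (x i) := by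
                  refine mul_le_mul (mul_le_mul h1 h2 (a0 L' i) h0) h3 (a0 (T o) i)
                    (mul_nonneg h0 h0)
              _ = _ := by ring
  refine (EE_mono hw hpt).trans ?_
  rw [EE_sum]
  have e1 : ∀ L ∈ S, EE g (fun x : Col n κ => ∑ L' ∈ S, ∑ o : Option κ, ∏ i,
      (aL (g i) (L ∪ L' ∪ T o) (x i)) ^ 3) ≤
      S.card * (((Fintype.card κ : ℝ) + 1) * Real.exp (34 * ((2 * M + 1 : ℕ) * ∑ i, g i))) := by
    intro L hL
    rw [EE_sum, ← nsmul_eq_mul]
    refine Finset.sum_le_card_nsmul S _ _ fun L' hL' => ?_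
    rw [EE_sum]
    have e2 : ∀ o ∈ (univ : Finset (Option κ)), EE g (fun x : Col n κ => ∏ i,
        (aL (g i) (L ∪ L' ∪ T o) (x i)) ^ 3) ≤
        Real.exp (34 * ((2 * M + 1 : ℕ) * ∑ i, g i)) := by
      intro o _
      refine EE_cube hg hw _ (2 * M + 1) ?_ hM
      have c1 := (Finset.mem_filter.1 hL).2
      have c2 := (Finset.mem_filter.1 hL').2
      have c3 : (T o).card ≤ 1 := by
        cases o <;> simp [hT]
      have c4 := Finset.card_union_le (L ∪ L') (T o)
      have c5 := Finset.card_union_le L L'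
      omega
    have e3 := Finset.sum_le_card_nsmul _ _ _ e2
    rw [nsmul_eq_mul, Finset.card_univ, Fintype.card_option] at e3
    push_cast at e3 ⊢
    exact e3
  have e4 := Finset.sum_le_card_nsmul S _ _ e1
  refine e4.trans ?_
  rw [nsmul_eq_mul]
  have c1 := card_small' (κ := κ) M
  have hu0 : (0:ℝ) ≤ Fintype.card κ := Nat.cast_nonneg _
  have hSc : (0:ℝ) ≤ S.card := Nat.cast_nonneg _
  have hE : 0 < Real.exp (34 * ((2 * M + 1 : ℕ) * ∑ i, g i)) := Real.exp_pos _
  have c2 : (S.card : ℝ) * S.card ≤ ((Fintype.card κ : ℝ) + 1) ^ M *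
      ((Fintype.card κ : ℝ) + 1) ^ M := mul_le_mul c1 c1 hSc (by positivity)
  calc (S.card : ℝ) * (S.card * (((Fintype.card κ : ℝ) + 1) *
        Real.exp (34 * ((2 * M + 1 : ℕ) * ∑ i, g i))))
      = (S.card * S.card) * (((Fintype.card κ : ℝ) + 1) *
        Real.exp (34 * ((2 * M + 1 : ℕ) * ∑ i, g i))) := by ring
    _ ≤ (((Fintype.card κ : ℝ) + 1) ^ M * ((Fintype.card κ : ℝ) + 1) ^ M) *
        (((Fintype.card κ : ℝ) + 1) * Real.exp (34 * ((2 * M + 1 : ℕ) * ∑ i, g i))) :=
        mul_le_mul_of_nonneg_right c2 (by positivity)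
    _ = _ := by ring

/-- number of assignments, sharp exponent -/
theorem count_assign' (p : Fin n → ℝ) (hp : ∀ i, 1 ≤ p i) (θ : ℝ) (hθ : 0 ≤ θ) (Q : ℝ)
    (hQ : 0 < Q) :
    ∑ D : Col n κ with qq p D ≤ Q, (2 : ℝ) ^ (univ.filter (fun i => D i ≠ none)).card ≤
      Q ^ (1 + θ) * Real.exp (2 * (Fintype.card κ : ℝ) * ∑ i, (p i) ^ (-(1 + θ))) := by
  have hp0 : ∀ i, 0 < p i := fun i => lt_of_lt_of_le one_pos (hp i)
  have hqq : ∀ D : Col n κ, 0 < qq p D := fun D => lt_of_lt_of_le one_pos (one_le_qq hp D)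
  have hqs : ∀ D : Col n κ, (qq p D) ^ (-(1 + θ)) = ∏ i, (nu1 (p i) (D i)) ^ (-(1 + θ)) := by
    intro D
    unfold qq
    rw [← Real.finsetProd_rpow]
    intro i _
    exact zero_le_one.trans (one_le_nu1 (hp i) _)
  have h2 : ∀ D : Col n κ, (2 : ℝ) ^ (univ.filter (fun i => D i ≠ none)).card =
      ∏ i, (if D i ≠ none then (2 : ℝ) else 1) := by
    intro D
    rw [Finset.prod_ite]
    simp
  set φ : Fin n → Option κ → ℝ := fun i c =>
    (if c ≠ none then 2 else 1) * (nu1 (p i) c) ^ (-(1 + θ)) with hφ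
  calc ∑ D : Col n κ with qq p D ≤ Q, (2 : ℝ) ^ (univ.filter (fun i => D i ≠ none)).card
      ≤ ∑ D : Col n κ with qq p D ≤ Q, (2 : ℝ) ^ (univ.filter (fun i => D i ≠ none)).card *
          (Q ^ (1 + θ) * (qq p D) ^ (-(1 + θ))) := by
        apply Finset.sum_le_sum
        intro D hD
        have hD' : qq p D ≤ Q := (Finset.mem_filter.mp hD).2
        have h1 : 1 ≤ Q ^ (1 + θ) * (qq p D) ^ (-(1 + θ)) := by
          rw [Real.rpow_neg (hqq D).le, ← div_eq_mul_inv, one_le_div (by
            have := hqq D; positivity)]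
          exact Real.rpow_le_rpow (hqq D).le hD' (by linarith)
        exact le_mul_of_one_le_right (by positivity) h1
    _ ≤ ∑ D : Col n κ, (2 : ℝ) ^ (univ.filter (fun i => D i ≠ none)).card *
          (Q ^ (1 + θ) * (qq p D) ^ (-(1 + θ))) :=
        Finset.sum_le_sum_of_subset_of_nonneg (Finset.filter_subset _ _) fun D _ _ => by
          have := hqq D
          positivity
    _ = Q ^ (1 + θ) * ∏ i, ∑ c, φ i c := by
        rw [Finset.prod_univ_sum, Fintype.piFinset_univ, Finset.mul_sum]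
        refine Finset.sum_congr rfl fun D _ => ?_
        rw [h2, hqs]
        simp only [hφ]
        rw [Finset.prod_mul_distrib]
        ring
    _ ≤ Q ^ (1 + θ) * ∏ i, Real.exp (2 * (Fintype.card κ : ℝ) * (p i) ^ (-(1 + θ))) := by
        apply mul_le_mul_of_nonneg_left _ (by positivity)
        apply Finset.prod_le_prod
        · intro i _
          apply Finset.sum_nonneg
          intro c _
          simp only [hφ]
          have : 0 ≤ nu1 (p i) c := zero_le_one.trans (one_le_nu1 (hp i) _)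
          positivity
        · intro i _
          have : ∑ c, φ i c = 1 + 2 * (Fintype.card κ : ℝ) * (p i) ^ (-(1 + θ)) := by
            rw [Fintype.sum_option]
            simp [hφ, nu1]
            ring
          rw [this, add_comm]
          exact Real.add_one_le_exp _
    _ = _ := by
        rw [← Real.exp_sum, Finset.mul_sum]

/-- the covering theorem -/
theorem core_w {α : Type} [DecidableEq α] (𝒜 : Finset α) (col : α → Col n κ)
    (alive : α → Finset κ)
    {p g : Fin n → ℝ} {h : Finset (Fin n) → ℝ} {z K : ℝ} (H : Prof p g h z K)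
    {w : Finset κ → ℝ} {β : ℝ} (hw' : Wt w β)
    {Ω : Type} [Fintype Ω] {pr : Ω → ℝ} {B : Ω → Finset κ} (A : Al pr B w)
    (Q δ t τ N ρ Err CV : ℝ) (J M : ℕ) (hJ : Even J) (ht : 0 < t) (hN : 0 < N) (hρ : 0 ≤ ρ)
    (hErr : 0 ≤ Err) (hτ0 : 0 < τ) (hτ1 : τ ≤ 1)
    (hQz : 1 ≤ Q)
    (hpz : ∀ i, p i ≤ z) (hg1 : ∀ i, g i ≤ 1) (htg : ∀ i, 3 * t * g i ≤ 1)
    (hug : ∀ i, (Fintype.card κ : ℝ) * g i ≤ 1)
    (hMg : ∀ i, ((2 * M + 1 : ℕ) : ℝ) * g i ≤ 1)
    (hδ : ∀ D : Col n κ, qq p D ≤ Q → 2 * ∑ i with D i ≠ none, g i ≤ δ)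
    (hug4 : (Fintype.card κ : ℝ) * δ ≤ 1 / 4)
    (hM : ∀ D : Col n κ, yT p h Q D ≠ 0 → (cs D).card ≤ M)
    (htail : (Fintype.card κ + 1 : ℝ) * (δ ^ 2 + Real.exp (τ / Real.log z *
      ((Fintype.card κ : ℝ) * β * (1 + τ) * K - Real.log (Q / z)))) ≤ 1 / 8)
    (hmom : (Fintype.card κ : ℝ) * (1 / t) ^ J * Real.exp ((2 + 6 * t) * ∑ i, g i) ≤ 1 / 8)
    (hCV : ∑ D : Col n κ with qq p D ≤ Q, (2 : ℝ) ^ (univ.filter (fun i => D i ≠ none)).card ≤ CV)
    (hcnt : ∀ (D : Col n κ) (L : Finset κ), qq p D ≤ Q * Q * z ^ J → L.card ≤ M + M + 1 →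
      |((𝒜.filter (fun a => (∀ i, D i ≠ none → col a i = D i) ∧ L ⊆ alive a)).card : ℝ) -
        N * (nu g D * w L)| ≤ ρ * (N * nu g D) + Err)
    (hfin : ρ * N * (((Fintype.card κ : ℝ) + 1) ^ (2 * M + 1) *
        Real.exp (34 * ((2 * M + 1 : ℕ) * ∑ i, g i))) +
        Err * (CV * CV * (1 + Fintype.card κ * (n + 1) ^ J)) < N / 2) :
    ∃ a ∈ 𝒜, ∀ k ∈ alive a, ∃ i, col a i = some k := by
  set u : ℝ := (Fintype.card κ : ℝ) with hu
  have hu0 : 0 ≤ u := Nat.cast_nonneg _
  have hQ0 : 0 < Q := by linarith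
  have hz0 : 0 < z := by linarith [H.z1]
  have hwt : ∀ i (c : Option κ), 0 ≤ wt (g i) c := fun i c => wt_nonneg (H.g0 i).le (hug i) c
  have hg0 : ∀ i, 0 ≤ g i := fun i => (H.g0 i).le
  set E : ℝ := Real.exp (τ / Real.log z * (u * β * (1 + τ) * K - Real.log (Q / z))) with hE
  set Z : ℝ := Zw g h w with hZ
  have hZ1 : 1 ≤ Z := Zw_ge_one H hw'
  have hE0 : 0 < E := Real.exp_pos _
  have hp1 : ∀ i, 1 ≤ p i := fun i => (H.p1 i).le
  have hT : Tw p g h w (Q / z) ≤ E * Z := tail_w H hw' τ hτ0 hτ1 (Q / z) (by positivity)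
  have hE8 : E ≤ 1 / 8 := by
    have : δ ^ 2 + E ≤ (u + 1) * (δ ^ 2 + E) := by nlinarith [sq_nonneg δ]
    nlinarith [sq_nonneg δ]
  have hT8 : Tw p g h w (Q / z) ≤ 1 / 8 * Z := by nlinarith
  set F : Finset κ → Col n κ → ℝ := fun B x =>
    VV g (yB p h Q B) x * VV g (yB p h Q B) x * UU J B x with hF
  have hlow : 3 / 4 * Z ≤ ∑ ω, pr ω * EE g (fun x => (VV g (yB p h Q (B ω)) x) ^ 2) :=
    lower_w H hw' A Q δ hug hδ hug4 hQ0 hT8
  have hup : ∀ k, ∑ ω, pr ω * (if k ∈ B ω then
      EE g (fun x => (VV g (yB p h Q (B ω)) x) ^ 2 * SS J k x) else 0) ≤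
      δ ^ 2 * Z + E * Z + (1 / t) ^ J * (Real.exp ((2 + 6 * t) * ∑ i, g i) * Z) := fun k =>
    (upper_w H hw' A Q δ t J hJ ht htg hug hQ0 hδ k).trans (by linarith)
  have hEF : Z / 2 ≤ ∑ ω, pr ω * EE g (F (B ω)) := by
    have e0 : ∀ ω, EE g (F (B ω)) = EE g (fun x => (VV g (yB p h Q (B ω)) x) ^ 2) -
        ∑ k, (if k ∈ B ω then
          EE g (fun x => (VV g (yB p h Q (B ω)) x) ^ 2 * SS J k x) else 0) := by
      intro ω
      have e1 : ∀ k, (if k ∈ B ω then
          EE g (fun x => (VV g (yB p h Q (B ω)) x) ^ 2 * SS J k x) else 0) =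
          EE g (fun x => (VV g (yB p h Q (B ω)) x) ^ 2 * (if k ∈ B ω then SS J k x else 0)) := by
        intro k
        split_ifs
        · rfl
        · have : (fun x : Col n κ => (VV g (yB p h Q (B ω)) x) ^ 2 * (0:ℝ)) =
              fun x => 0 * (VV g (yB p h Q (B ω)) x) ^ 2 := by
            funext x; ring
          rw [this, EE_smul, zero_mul]
      simp_rw [e1]
      rw [← EE_sum, ← EE_sub]
      congr 1
      funext x
      simp only [hF, UU]
      rw [← Finset.mul_sum]
      ring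
    simp_rw [e0, mul_sub]
    rw [Finset.sum_sub_distrib]
    have e2 : ∑ ω, pr ω * ∑ k, (if k ∈ B ω then
        EE g (fun x => (VV g (yB p h Q (B ω)) x) ^ 2 * SS J k x) else 0) ≤
        u * (δ ^ 2 * Z + E * Z + (1 / t) ^ J * (Real.exp ((2 + 6 * t) * ∑ i, g i) * Z)) := by
      have e8 : ∑ ω, pr ω * ∑ k, (if k ∈ B ω then
          EE g (fun x => (VV g (yB p h Q (B ω)) x) ^ 2 * SS J k x) else 0) =
          ∑ k, ∑ ω, pr ω * (if k ∈ B ω then
            EE g (fun x => (VV g (yB p h Q (B ω)) x) ^ 2 * SS J k x) else 0) := by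
        rw [Finset.sum_comm]
        refine Finset.sum_congr rfl fun ω _ => ?_
        rw [Finset.mul_sum]
      rw [e8]
      have e9 := Finset.sum_le_card_nsmul (univ : Finset κ) (fun k => ∑ ω, pr ω * (if k ∈ B ω then
        EE g (fun x => (VV g (yB p h Q (B ω)) x) ^ 2 * SS J k x) else 0))
        (δ ^ 2 * Z + E * Z + (1 / t) ^ J * (Real.exp ((2 + 6 * t) * ∑ i, g i) * Z))
        (fun k _ => hup k)
      rw [Finset.card_univ, nsmul_eq_mul] at e9
      exact e9
    have e3 : u * (δ ^ 2 * Z + E * Z) ≤ 1 / 8 * Z := by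
      have : u * (δ ^ 2 + E) ≤ 1 / 8 := by nlinarith [sq_nonneg δ]
      nlinarith
    have e4 : u * ((1 / t) ^ J * (Real.exp ((2 + 6 * t) * ∑ i, g i) * Z)) ≤ 1 / 8 * Z := by
      nlinarith
    nlinarith
  -- representation
  have hR1 := Rep_V p g h z K H hg1 Q M hM
  have hR2 := Rep_UU (κ := κ) p hp1 z hpz H.z1.le J
  have hR := Rep_mul hp1 (Rep_mul hp1 hR1 hR1) hR2
  have hCV0 : 0 ≤ ∑ D : Col n κ with qq p D ≤ Q,
      (2 : ℝ) ^ (univ.filter (fun i => D i ≠ none)).card :=
    Finset.sum_nonneg fun D _ => by positivity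
  have hU0 : (0:ℝ) ≤ 1 + u * (n + 1) ^ J := by positivity
  have hR' : Rep p (Q * Q * z ^ J) (M + M + 1) (CV * CV * (1 + u * (n + 1) ^ J))
      (fun x => (∑ D : Col n κ with (cs D).card ≤ M, ph g x D) *
      (∑ D : Col n κ with (cs D).card ≤ M, ph g x D) *
      (1 + ∑ k, ∏ i, (if x i = some k then (2 : ℝ) else 1))) F := by
    refine Rep_mono le_rfl le_rfl ?_ (fun x => le_rfl) hR
    exact mul_le_mul_of_nonneg_right (mul_le_mul hCV hCV hCV0 (hCV0.trans hCV)) hU0
  have htr := transfer_w 𝒜 col alive hwt A N ρ Err _ _ _ _ hN.le hρ hErr hcnt _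
    (EE_Phi hg0 hwt M hMg) F hR'
  have hpos : 0 < ∑ a ∈ 𝒜, F (alive a) (col a) := by
    have e1 := (abs_le.mp htr).1
    have e2 : N / 2 ≤ N * ∑ ω, pr ω * EE g (F (B ω)) := by nlinarith
    linarith
  obtain ⟨a, ha, hFa⟩ : ∃ a ∈ 𝒜, 0 < F (alive a) (col a) := by
    by_contra hc
    push Not at hc
    exact absurd (Finset.sum_nonpos hc) (not_le.mpr hpos)
  refine ⟨a, ha, fun k hk' => ?_⟩
  by_contra hk
  push Not at hk
  have hV0 : 0 ≤ VV g (yB p h Q (alive a)) (col a) * VV g (yB p h Q (alive a)) (col a) :=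
    mul_self_nonneg _
  have h1 : 0 < UU J (alive a) (col a) := by
    by_contra hc
    push Not at hc
    have : F (alive a) (col a) ≤ 0 := mul_nonpos_of_nonneg_of_nonpos hV0 hc
    linarith
  have hSS0 : ∀ l, 0 ≤ (if l ∈ alive a then SS J l (col a) else 0) := by
    intro l
    split_ifs
    · refine le_trans ?_ (SS_lower J hJ l (col a))
      split_ifs <;> norm_num
    · exact le_rfl
  have h2 : (if k ∈ alive a then SS J k (col a) else 0) ≤
      ∑ l, (if l ∈ alive a then SS J l (col a) else 0) :=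
    Finset.single_le_sum (f := fun l => if l ∈ alive a then SS J l (col a) else 0)
      (fun l _ => hSS0 l) (Finset.mem_univ k)
  rw [if_pos hk'] at h2
  have h3 := SS_lower J hJ k (col a)
  rw [if_pos hk] at h3
  unfold UU at h1
  linarith

end Pool.Agent.W5h31.RC
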