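import Pool.Agent.W5h31.RC.Rg

set_option autoImplicit false
set_option linter.unusedSectionVars false

/-! # The profile with the sharp cost -/

namespace Pool.Agent.W5h31.RC

open Finset Filter Pool.Agent.H256R2.SC

open scoped Classical

lemma ev_logpow (s K : ℝ) (hs : 0 < s) : ∀ᶠ L : ℝ in atTop, K * (Real.log L) ^ 2 ≤ L ^ s := by
  have e1 : (fun L : ℝ => (Real.log L) ^ (2:ℝ)) =o[atTop] (fun L : ℝ => L ^ s) :=
    isLittleO_log_rpow_rpow_atTop 2 hs
  have e2 := e1.def (show (0:ℝ) < 1 / (|K| + 1) by positivity)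
  filter_upwards [e2, eventually_ge_atTop (1:ℝ)] with L hL hL2
  have hl : 0 ≤ Real.log L := Real.log_nonneg hL2
  rw [Real.norm_eq_abs, Real.norm_eq_abs, abs_of_nonneg (Real.rpow_nonneg hl _),
    abs_of_nonneg (Real.rpow_nonneg (by linarith) _)] at hL
  have e3 : (Real.log L) ^ (2:ℝ) = (Real.log L) ^ 2 := by
    rw [← Real.rpow_natCast]; norm_num
  rw [e3] at hL
  have e4 : (|K| + 1) * (Real.log L) ^ 2 ≤ L ^ s := by
    rw [div_mul_eq_mul_div, one_mul, le_div_iff₀ (by positivity)] at hL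
    linarith
  have e5 : K * (Real.log L) ^ 2 ≤ (|K| + 1) * (Real.log L) ^ 2 := by
    apply mul_le_mul_of_nonneg_right _ (sq_nonneg _)
    linarith [le_abs_self K]
  linarith

lemma ev_loglog (s K : ℝ) (hs : 0 < s) :
    ∀ᶠ L : ℝ in atTop, Real.log (Real.log L) + K ≤ s * Real.log L := by
  have h1 : ∀ᶠ t : ℝ in atTop, Real.log t + K ≤ s * t := by
    have h := (Real.isLittleO_log_id_atTop.def (show (0:ℝ) < s / 2 by positivity))
    filter_upwards [h, eventually_ge_atTop (1 : ℝ), eventually_ge_atTop (2 * K / s)] with t ht h1 h2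
    have h3 : 0 ≤ Real.log t := Real.log_nonneg h1
    simp only [id, Real.norm_eq_abs, abs_of_nonneg h3,
      abs_of_nonneg (by linarith : (0 : ℝ) ≤ t)] at ht
    rw [div_le_iff₀ hs] at h2
    linarith
  exact Real.tendsto_log_atTop.eventually h1

/-- enumerated primes -/
noncomputable abbrev eP (a b : ℝ) : Fin (PR a b).card → ℝ := fun i => ((emb (PR a b) i : ℕ) : ℝ)

/-- reciprocals of the enumerated primes -/
noncomputable abbrev eg (a b : ℝ) : Fin (PR a b).card → ℝ := fun i => 1 / ((emb (PR a b) i : ℕ) : ℝ)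

/-- existence of the scale -/
lemma scale_exists (lam e θ : ℝ) (hlam : 1 < lam) (he : 0 < e) (he1 : e < 1) (hθ : 0 < θ) :
    ∀ᶠ L : ℝ in atTop, ∃ J : ℕ, xs (L ^ e) lam J ≤ θ * L / Real.log L ∧
      (1 - 2 * e) * Real.log L ≤ J * Real.log lam := by
  have hll : 0 < Real.log lam := Real.log_pos hlam
  have h1 := ev_loglog e (Real.log lam - Real.log θ) he
  have h2 : ∀ᶠ L : ℝ in atTop, 1 ≤ Real.log L := Real.tendsto_log_atTop.eventually_ge_atTop 1
  have h3 := ev_loglog (1 - e) (- Real.log θ) (by linarith)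
  filter_upwards [h1, h2, h3, eventually_ge_atTop (1:ℝ)] with L e1 e2 e3 e4
  have hL0 : 0 < L := by linarith
  set l := Real.log L with hl
  have hl0 : 0 < l := by linarith
  set T : ℝ := Real.log θ + (1 - e) * l - Real.log l with hT
  have hT0 : 0 ≤ T := by linarith
  set J : ℕ := ⌊T / Real.log lam⌋₊ with hJ
  refine ⟨J, ?_, ?_⟩
  · have hJ1 : (J:ℝ) ≤ T / Real.log lam := Nat.floor_le (by positivity)
    rw [le_div_iff₀ hll] at hJ1
    unfold xs
    have g1 : lam ^ J = Real.exp (J * Real.log lam) := by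
      rw [Real.exp_nat_mul, Real.exp_log (by linarith)]
    have g2 : L ^ e = Real.exp (e * l) := by
      rw [Real.rpow_def_of_pos hL0, mul_comm]
    rw [g1, g2, ← Real.exp_add]
    have g3 : θ * L / l = Real.exp (Real.log θ + l - Real.log l) := by
      rw [Real.exp_sub, Real.exp_add, Real.exp_log hθ, Real.exp_log hL0, Real.exp_log hl0]
    rw [g3]
    apply Real.exp_le_exp.2
    rw [hT] at hJ1
    linarith
  · have hJ2 : T / Real.log lam < J + 1 := Nat.lt_floor_add_one _
    rw [div_lt_iff₀ hll] at hJ2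
    rw [hT] at hJ2
    linarith

/-- the profile with the sharp cost -/
theorem sharp_prof (ε : ℝ) (hε : 0 < ε) (hε1 : ε < 1) : ∀ᶠ L : ℝ in atTop,
    ∃ (z K : ℝ) (hh : Finset (Fin (PR (L ^ 3) z).card) → ℝ),
      L ^ (ε / 32) ≤ Real.log z ∧
      Real.log z ≤ ε ^ 2 / 1024 * L / Real.log L ∧
      Prof (eP (L ^ 3) z) (eg (L ^ 3) z) hh z K ∧
      (∀ s, hh s ≠ 0 → L ^ (ε / 32) ≤ Real.log (∏ i ∈ s, eP (L ^ 3) z i)) ∧
      WW (L ^ 3) * K * ((1 - ε / 16) * (1 - ε / 32) * Real.log L) ≤ 1 + ε / 32 := by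
  obtain ⟨C, hC, hA0⟩ := A0_upper
  obtain ⟨c, hc, hW⟩ := WW_lower
  set lam : ℝ := 1 + ε / 32 with hlam
  have hlam1 : 1 < lam := by rw [hlam]; linarith
  have hl1 : 0 < lam - 1 := by linarith
  set e : ℝ := ε / 32 with he
  have he0 : 0 < e := by positivity
  have he1 : e < 1 := by rw [he]; linarith
  set C₁ : ℝ := C / (c * (lam - 1)) with hC₁
  have hC₁0 : 0 < C₁ := by positivity
  have hll : 0 < Real.log lam := Real.log_pos hlam1
  have hllle : Real.log lam ≤ lam - 1 := Real.log_le_sub_one_of_pos (by linarith)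
  have s1 := scale_exists lam e (ε ^ 2 / 1024) hlam1 he0 he1 (by positivity)
  have s2 : ∀ᶠ L : ℝ in atTop, (4 * C₁ + 4 + 128 * C₁ / ε) * Real.log lam ≤ Real.log L / 2 := by
    have := Real.tendsto_log_atTop.eventually_ge_atTop
      (2 * ((4 * C₁ + 4 + 128 * C₁ / ε) * Real.log lam))
    filter_upwards [this] with L hL
    linarith
  have s3 := ev_logpow e 4 he0
  have s4 : ∀ᶠ L : ℝ in atTop, 1 ≤ Real.log L := Real.tendsto_log_atTop.eventually_ge_atTop 1
  filter_upwards [s1, s2, s3, s4, eventually_ge_atTop (3:ℝ), eventually_ge_atTop (128 / ε)]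
    with L t1 t2 t3 t4 t5 t6
  obtain ⟨J, hJ1, hJ2⟩ := t1
  have hL0 : 0 < L := by linarith
  set l := Real.log L with hl
  have hl0 : 0 < l := by linarith
  set l₀ : ℝ := L ^ e with hl₀
  have hl₀0 : 0 < l₀ := Real.rpow_pos_of_pos hL0 _
  set H : ℝ := L ^ 3 with hH
  have hlogH : Real.log H = 3 * l := by rw [hH, Real.log_pow]; push_cast; ring
  have hHL : L ≤ H := by
    rw [hH]
    calc L = L ^ 1 := (pow_one L).symm
      _ ≤ L ^ 3 := pow_le_pow_right₀ (by linarith) (by norm_num)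
  have hH3 : 3 ≤ H := by linarith
  have hH0 : 0 < H := by linarith
  set z : ℝ := Real.exp (xs l₀ lam J) with hz
  have hlz : Real.log z = xs l₀ lam J := by rw [hz, Real.log_exp]
  have hx0J : l₀ ≤ xs l₀ lam J := by
    have := xs_mono hl₀0 hlam1 (Nat.zero_le J)
    unfold xs at this ⊢
    simpa using this
  have hl₀z : Real.exp l₀ ≤ z := Real.exp_le_exp.2 hx0J
  have hHl₀ : H ≤ Real.exp l₀ := by
    rw [← Real.log_le_iff_le_exp hH0, hlogH]
    nlinarith
  -- J is large
  have hJl : (1 / 2) * l ≤ J * Real.log lam := by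
    have : (1:ℝ) / 2 ≤ 1 - 2 * e := by rw [he]; linarith
    nlinarith
  have hJbig : 4 * C₁ + 4 + 128 * C₁ / ε ≤ J := by
    have h1 : (4 * C₁ + 4 + 128 * C₁ / ε) * Real.log lam ≤ J * Real.log lam := by linarith
    exact le_of_mul_le_mul_right h1 hll
  have hq0 : 0 ≤ 128 * C₁ / ε := by positivity
  have hJ0 : (0:ℝ) < J := by linarith
  -- lower bound of the normalising sum
  set P := eP H z with hP
  set g := eg H z with hg
  set A : ℝ := A0 P g l₀ with hA
  have hA0nn : 0 ≤ A := by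
    rw [hA]
    unfold A0
    refine Finset.sum_nonneg fun s _ => Finset.prod_nonneg fun i _ => ?_
    rw [hg]
    positivity
  have hAC : A ≤ C * l₀ / Real.log H := hA0 H z l₀ (by linarith) hHl₀ hl₀z
  have hlogHpos : 0 < Real.log H := by rw [hlogH]; positivity
  have hWH := hW H hH3
  have hWH0 := WW_pos H
  have hAW : A / (l₀ * (lam - 1)) ≤ C₁ * WW H := by
    calc A / (l₀ * (lam - 1)) ≤ (C * l₀ / Real.log H) / (l₀ * (lam - 1)) :=
          div_le_div_of_nonneg_right hAC (by positivity)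
      _ = C₁ * (c / Real.log H) := by
          rw [hC₁]
          field_simp
      _ ≤ C₁ * WW H := mul_le_mul_of_nonneg_left hWH hC₁0.le
  have hMl : ∀ j ∈ Finset.Icc 1 J, WW H / (1 + 2 / H) * xs l₀ lam j - A ≤ Mj P g l₀ lam j := by
    intro j hj
    exact Mj_lower H z l₀ lam J j (by linarith) hl₀0 hlam1 (Finset.mem_Icc.1 hj).2 le_rfl
  have hS1 := S0_lower P g l₀ lam (WW H / (1 + 2 / H)) A hl₀0 hlam1 J hA0nn hMl
  have hHe : 1 - e / 2 ≤ 1 / (1 + 2 / H) := by
    rw [le_div_iff₀ (by positivity)]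
    have h1 : 2 / H ≤ e / 2 := by
      rw [div_le_div_iff₀ hH0 (by norm_num)]
      have : 128 / ε ≤ H := by linarith
      rw [div_le_iff₀ hε] at this
      rw [he]
      linarith
    have h2 : 0 ≤ 2 / H := by positivity
    nlinarith
  have hS2 : WW H * (J * (1 - e)) ≤ S0 P g l₀ lam J := by
    refine le_trans ?_ hS1
    have h1 : WW H * (1 - e / 2) * J ≤ WW H / (1 + 2 / H) * J := by
      apply mul_le_mul_of_nonneg_right _ hJ0.le
      have h1' := mul_le_mul_of_nonneg_left hHe hWH0.le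
      rwa [mul_one_div] at h1'
    have h2 : C₁ * WW H ≤ WW H * (e / 2 * J) := by
      have h3 : C₁ ≤ e / 2 * J := by
        have h4 : 128 * C₁ / ε ≤ J := by linarith
        rw [div_le_iff₀ hε] at h4
        rw [he]
        linarith
      nlinarith
    nlinarith
  have h1e : 0 < 1 - e := by linarith
  have hSpos : 0 < S0 P g l₀ lam J := lt_of_lt_of_le (by positivity) hS2
  have hsmall : A0 P g l₀ / (l₀ * (lam - 1)) ≤ S0 P g l₀ lam J := by
    refine hAW.trans (le_trans ?_ hS2)
    have h5 : C₁ ≤ J * (1 - e) := by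
      have : (1:ℝ) / 2 ≤ 1 - e := by rw [he]; linarith
      nlinarith
    nlinarith
  have hp1 : ∀ i, 1 < P i := by
    intro i
    have := ((mem_PR (a := H) (b := z) (Real.exp_pos _).le).1 (emb_mem (PR H z) i)).2.1
    rw [hP]
    simp only [eP]
    linarith
  have hg0 : ∀ i, 0 < g i := by
    intro i
    have := hp1 i
    rw [hg]
    simp only [eg]
    rw [hP] at this
    simp only [eP] at this
    apply div_pos one_pos
    linarith
  have hprof := exists_prof P g hp1 hg0 l₀ lam hl₀0 hlam1 J hSpos hsmall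
  refine ⟨z, 1 / S0 P g l₀ lam J * (lam / (lam - 1)),
    fun s => (1 / S0 P g l₀ lam J) * h0 P l₀ lam J s, ?_, ?_, ?_, ?_, ?_⟩
  · rw [hlz]; exact hx0J
  · rw [hlz]; exact hJ1
  · exact hprof
  · intro s hs
    exact prof_supp_ge P g l₀ lam J _ s hs
  · -- the cost
    have h6 : WW H / S0 P g l₀ lam J ≤ 1 / (J * (1 - e)) := by
      rw [div_le_div_iff₀ hSpos (by positivity)]
      linarith
    have h7 : (1 - 2 * e) * l ≤ J * (lam - 1) := by nlinarith
    have h8 : 0 < 1 - 2 * e := by rw [he]; linarith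
    have e1 : (1 - ε / 16) * (1 - ε / 32) * l = (1 - 2 * e) * l * (1 - e) := by
      rw [he]; ring
    rw [e1]
    calc WW H * (1 / S0 P g l₀ lam J * (lam / (lam - 1))) * ((1 - 2 * e) * l * (1 - e))
        = (WW H / S0 P g l₀ lam J) * (lam / (lam - 1) * ((1 - 2 * e) * l * (1 - e))) := by ring
      _ ≤ (1 / (J * (1 - e))) * (lam / (lam - 1) * (J * (lam - 1) * (1 - e))) := by
          apply mul_le_mul h6 _ (by positivity) (by positivity)
          apply mul_le_mul_of_nonneg_left _ (by positivity)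
          exact mul_le_mul_of_nonneg_right h7 h1e.le
      _ = lam := by field_simp

end Pool.Agent.W5h31.RC
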