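import Pool.Agent.W5h31.RC.Wt
import Pool.Agent.H256R2.SC.J

set_option autoImplicit false
set_option linter.unusedSectionVars false

/-! # Second moments averaged over the alive colours -/

namespace Pool.Agent.W5h31.RC

open Finset Pool.Agent.H256R2.SC

variable {n : ℕ} {κ : Type} [Fintype κ] [DecidableEq κ]

/-- truncated coefficients restricted to the colours of `B` -/
noncomputable def yB (p : Fin n → ℝ) (h : Finset (Fin n) → ℝ) (Q : ℝ) (B : Finset κ)
    (D : Col n κ) : ℝ :=
  if cs D ⊆ B then yT p h Q D else 0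

/-- a finite model of the set of alive colours -/
structure Al {Ω : Type} [Fintype Ω] (pr : Ω → ℝ) (B : Ω → Finset κ) (w : Finset κ → ℝ) :
    Prop where
  pr0 : ∀ ω, 0 ≤ pr ω
  mean : ∀ K, ∑ ω, pr ω * (if K ⊆ B ω then 1 else 0) = w K

lemma cs_subset_insert (k : κ) (D : Col n κ) : cs D ⊆ insert k (cs (er k D)) := by
  rcases Finset.eq_empty_or_nonempty (fib D k) with he | he
  · have h1 : er k D = D := by
      apply er_eq_self
      intro i hi
      have : i ∈ fib D k := Pool.Agent.H256R2.SC.mem_fib.2 hi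
      rw [he] at this
      exact absurd this (Finset.notMem_empty i)
    rw [h1]
    exact Finset.subset_insert _ _
  · rw [← cs_eq_insert k D he]

lemma red_yB (p g : Fin n → ℝ) (h : Finset (Fin n) → ℝ) (Q : ℝ) (B : Finset κ) (k : κ)
    (hk : k ∈ B) (D' : Col n κ) :
    red g (yB p h Q B) k D' = if cs D' ⊆ B then red g (yT p h Q) k D' else 0 := by
  unfold red
  by_cases hB : cs D' ⊆ B
  · rw [if_pos hB]
    refine Finset.sum_congr rfl fun D hD => ?_
    rw [Finset.mem_filter] at hD
    have h1 : cs D ⊆ B := by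
      refine (cs_subset_insert k D).trans ?_
      rw [hD.2]
      exact Finset.insert_subset hk hB
    unfold yB
    rw [if_pos h1]
  · rw [if_neg hB]
    refine Finset.sum_eq_zero fun D hD => ?_
    rw [Finset.mem_filter] at hD
    have h1 : ¬ cs D ⊆ B := by
      intro h
      apply hB
      rw [← hD.2]
      exact (cs_er_subset k D).trans h
    unfold yB
    rw [if_neg h1, zero_mul]

section
variable {p g : Fin n → ℝ} {h : Finset (Fin n) → ℝ} {z K : ℝ} {w : Finset κ → ℝ} {β : ℝ}
variable {Ω : Type} [Fintype Ω] {pr : Ω → ℝ} {B : Ω → Finset κ}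

/-- averaging a sum over the assignments -/
lemma avg_sum (A : Al pr B w) (f : Col n κ → ℝ) :
    ∑ ω, pr ω * ∑ D : Col n κ, (if cs D ⊆ B ω then f D else 0) = ∑ D : Col n κ, f D * w (cs D) := by
  simp_rw [Finset.mul_sum]
  rw [Finset.sum_comm]
  refine Finset.sum_congr rfl fun D _ => ?_
  rw [← A.mean, Finset.mul_sum]
  refine Finset.sum_congr rfl fun ω _ => ?_
  split_ifs <;> ring

/-- lower bound of the second moment -/
theorem lower_w (H : Prof p g h z K) (hw' : Wt w β) (A : Al pr B w) (Q δ : ℝ)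
    (hug : ∀ i, (Fintype.card κ : ℝ) * g i ≤ 1)
    (hδ : ∀ D : Col n κ, qq p D ≤ Q → 2 * ∑ i with D i ≠ none, g i ≤ δ)
    (hug4 : (Fintype.card κ : ℝ) * δ ≤ 1 / 4) (hQ0 : 0 < Q)
    (hT8 : Tw p g h w (Q / z) ≤ 1 / 8 * Zw g h w) :
    3 / 4 * Zw g h w ≤ ∑ ω, pr ω * EE g (fun x => (VV g (yB p h Q (B ω)) x) ^ 2) := by
  have hw : ∀ i (c : Option κ), 0 ≤ wt (g i) c := fun i c => wt_nonneg (H.g0 i).le (hug i) c
  have h1 : ∀ ω, ∑ D : Col n κ, (if cs D ⊆ B ω then
      (if qq p D ≤ Q then 7 / 8 * ((yy h D) ^ 2 * nu g D) else 0) else 0) ≤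
      EE g (fun x => (VV g (yB p h Q (B ω)) x) ^ 2) := by
    intro ω
    have h1 := tensor_lower (κ := κ) g
      (fun i c => nu1 (g i) c * nu1 (1 - (Fintype.card κ : ℝ) * g i) c) hw
      (by
        intro i c
        cases c with
        | none => simp [nu1]
        | some k =>
          simp only [nu1]
          exact mul_nonneg (H.g0 i).le (by linarith [hug i]))
      (fun i Y => local_lower (g i) (H.g0 i).le Y) (yB p h Q (B ω))
    refine le_trans ?_ h1
    refine Finset.sum_le_sum fun D _ => ?_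
    unfold yB yT
    split_ifs with hB hD
    · rw [Finset.prod_mul_distrib]
      have e1 : ∏ i, nu1 (1 - (Fintype.card κ : ℝ) * g i) (D i) =
          ∏ i ∈ supp D, (1 - (Fintype.card κ : ℝ) * g i) := prod_nu1 _ D
      rw [e1]
      have e2 : 7 / 8 ≤ ∏ i ∈ supp D, (1 - (Fintype.card κ : ℝ) * g i) := by
        refine le_trans ?_ (prod_ge_one_sub_sum (supp D) (fun i => (Fintype.card κ : ℝ) * g i)
          (fun i => mul_nonneg (Nat.cast_nonneg _) (H.g0 i).le) hug)
        rw [← Finset.mul_sum]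
        have e3 := hδ D hD
        have e4 : ∑ i ∈ supp D, g i ≤ δ / 2 := by
          unfold supp
          linarith
        have e5 : (Fintype.card κ : ℝ) * ∑ i ∈ supp D, g i ≤ (Fintype.card κ : ℝ) * (δ / 2) :=
          mul_le_mul_of_nonneg_left e4 (Nat.cast_nonneg _)
        nlinarith
      have e6 : 0 ≤ (yy h D) ^ 2 * nu g D := mul_nonneg (sq_nonneg _) (nu_nn H D)
      have e7 : ∏ i, nu1 (g i) (D i) = nu g D := rfl
      rw [e7]
      nlinarith
    · simp
    · simp
  have h2 : ∑ ω, pr ω * ∑ D : Col n κ, (if cs D ⊆ B ω then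
      (if qq p D ≤ Q then 7 / 8 * ((yy h D) ^ 2 * nu g D) else 0) else 0) ≤
      ∑ ω, pr ω * EE g (fun x => (VV g (yB p h Q (B ω)) x) ^ 2) :=
    Finset.sum_le_sum fun ω _ => mul_le_mul_of_nonneg_left (h1 ω) (A.pr0 ω)
  refine le_trans ?_ h2
  rw [avg_sum A]
  have h3 : Zw g h w = ∑ D : Col n κ with qq p D ≤ Q, (yy h D) ^ 2 * nu g D * w (cs D) +
      ∑ D : Col n κ with ¬ qq p D ≤ Q, (yy h D) ^ 2 * nu g D * w (cs D) := by
    unfold Zw
    rw [Finset.sum_filter_add_sum_filter_not]
  have h4 : ∑ D : Col n κ with ¬ qq p D ≤ Q, (yy h D) ^ 2 * nu g D * w (cs D) ≤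
      Tw p g h w (Q / z) := by
    unfold Tw
    apply Finset.sum_le_sum_of_subset_of_nonneg
    · intro D hD
      rw [Finset.mem_filter] at hD ⊢
      refine ⟨hD.1, lt_of_le_of_lt ?_ (not_le.mp hD.2)⟩
      exact div_le_self hQ0.le H.z1.le
    · intro D _ _
      exact term_nonneg H hw' D
  have h5 := Zw_ge_one H hw'
  have h6 : ∑ D : Col n κ, (if qq p D ≤ Q then 7 / 8 * ((yy h D) ^ 2 * nu g D) else 0) *
      w (cs D) = 7 / 8 * ∑ D : Col n κ with qq p D ≤ Q, (yy h D) ^ 2 * nu g D * w (cs D) := by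
    rw [Finset.sum_filter, Finset.mul_sum]
    refine Finset.sum_congr rfl fun D _ => ?_
    split_ifs <;> ring
  rw [h6]
  linarith

/-- upper bound of the sieve majorant part -/
theorem upper_w (H : Prof p g h z K) (hw' : Wt w β) (A : Al pr B w) (Q δ t : ℝ) (J : ℕ)
    (hJ : Even J) (ht : 0 < t)
    (htg : ∀ i, 3 * t * g i ≤ 1)
    (hug : ∀ i, (Fintype.card κ : ℝ) * g i ≤ 1) (hQ0 : 0 < Q)
    (hδ : ∀ D : Col n κ, qq p D ≤ Q → 2 * ∑ i with D i ≠ none, g i ≤ δ) (k : κ) :
    ∑ ω, pr ω * (if k ∈ B ω then EE g (fun x => (VV g (yB p h Q (B ω)) x) ^ 2 * SS J k x) else 0) ≤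
      δ ^ 2 * Zw g h w + Tw p g h w (Q / z) +
        (1 / t) ^ J * (Real.exp ((2 + 6 * t) * ∑ i, g i) * Zw g h w) := by
  have hw : ∀ i (c : Option κ), 0 ≤ wt (g i) c := fun i c => wt_nonneg (H.g0 i).le (hug i) c
  have hbet : ∀ D : Col n κ, 0 ≤ ∏ i, bet (g i) t k (D i) := by
    intro D
    apply Finset.prod_nonneg
    intro i _
    cases D i with
    | none =>
      simp only [bet]
      have := (H.g0 i).le
      positivity
    | some l =>
      simp only [bet]
      have := (H.g0 i).le
      split_ifs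
      · positivity
      · exact this
  have hper : ∀ ω, (if k ∈ B ω then
      EE g (fun x => (VV g (yB p h Q (B ω)) x) ^ 2 * SS J k x) else 0) ≤
      ∑ D : Col n κ, (if cs D ⊆ B ω then nu g D * (red g (yT p h Q) k D) ^ 2 +
        (1 / t) ^ J * ((∏ i, bet (g i) t k (D i)) * (yy h D) ^ 2) else 0) := by
    intro ω
    have hnn : 0 ≤ ∑ D : Col n κ, (if cs D ⊆ B ω then nu g D * (red g (yT p h Q) k D) ^ 2 +
        (1 / t) ^ J * ((∏ i, bet (g i) t k (D i)) * (yy h D) ^ 2) else 0) := by
      refine Finset.sum_nonneg fun D _ => ?_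
      split_ifs
      · have h1 := nu_nn H D
        have h2 := hbet D
        positivity
      · exact le_rfl
    split_ifs with hk
    swap
    · exact hnn
    have h1 : EE g (fun x => (VV g (yB p h Q (B ω)) x) ^ 2 * SS J k x) ≤
        EE g (fun x => (if ∀ i, x i ≠ some k then 1 else 0) *
          (VV g (yB p h Q (B ω)) x) ^ 2 +
          (1 / t) ^ J * ((∏ i, (if x i = some k then 1 + t else 1)) *
            (VV g (yB p h Q (B ω)) x) ^ 2)) := by
      apply EE_mono hw
      intro x
      have := mul_le_mul_of_nonneg_left (SS_upper J hJ t ht k x)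
        (sq_nonneg (VV g (yB p h Q (B ω)) x))
      refine this.trans (le_of_eq ?_)
      ring
    refine h1.trans ?_
    rw [EE_add, EE_smul]
    have h2 : EE g (fun x => (if ∀ i, x i ≠ some k then (1:ℝ) else 0) *
        (VV g (yB p h Q (B ω)) x) ^ 2) ≤
        ∑ D : Col n κ, (if cs D ⊆ B ω then nu g D * (red g (yT p h Q) k D) ^ 2 else 0) := by
      refine (rough_bound g (fun i => (H.g0 i).le) hw _ k).trans (le_of_eq ?_)
      refine Finset.sum_congr rfl fun D _ => ?_
      rw [red_yB p g h Q (B ω) k hk D]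
      split_ifs <;> simp
    have h3 : EE g (fun x => (∏ i, (if x i = some k then 1 + t else 1)) *
        (VV g (yB p h Q (B ω)) x) ^ 2) ≤
        ∑ D : Col n κ, (if cs D ⊆ B ω then (∏ i, bet (g i) t k (D i)) * (yy h D) ^ 2 else 0) := by
      have h4 := tensor_upper (κ := κ) g (fun _ c => if c = some k then 1 + t else 1)
        (fun i c => bet (g i) t k c) hw
        (by intro i c; split_ifs <;> linarith)
        (by
          intro i c
          cases c with
          | none =>
            simp only [bet]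
            have := (H.g0 i).le
            positivity
          | some l =>
            simp only [bet]
            have := (H.g0 i).le
            split_ifs
            · positivity
            · exact this)
        (fun i Y => local_wt (g i) t (H.g0 i).le ht.le (htg i) k Y) (yB p h Q (B ω))
      refine h4.trans ?_
      apply Finset.sum_le_sum
      intro D _
      have hb := hbet D
      unfold yB yT
      split_ifs
      · exact le_rfl
      · rw [zero_pow two_ne_zero, mul_zero]
        positivity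
      · simp
    have h5 : (0:ℝ) ≤ (1 / t) ^ J := by positivity
    have h6 := mul_le_mul_of_nonneg_left h3 h5
    refine (add_le_add h2 h6).trans (le_of_eq ?_)
    rw [Finset.mul_sum, ← Finset.sum_add_distrib]
    refine Finset.sum_congr rfl fun D _ => ?_
    split_ifs <;> ring
  have h2 := Finset.sum_le_sum fun ω (_ : ω ∈ (univ : Finset Ω)) =>
    mul_le_mul_of_nonneg_left (hper ω) (A.pr0 ω)
  refine h2.trans ?_
  rw [avg_sum A]
  have h3 : ∑ D : Col n κ, (nu g D * (red g (yT p h Q) k D) ^ 2 +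
        (1 / t) ^ J * ((∏ i, bet (g i) t k (D i)) * (yy h D) ^ 2)) * w (cs D) =
      ∑ D : Col n κ, nu g D * (red g (yT p h Q) k D) ^ 2 * w (cs D) +
      (1 / t) ^ J * ∑ D : Col n κ, (∏ i, bet (g i) t k (D i)) * (yy h D) ^ 2 * w (cs D) := by
    rw [Finset.mul_sum, ← Finset.sum_add_distrib]
    refine Finset.sum_congr rfl fun D _ => ?_
    ring
  rw [h3]
  have h4 := red_w H hw' Q δ hQ0 hδ k
  have h5 := bet_w H hw' t ht.le k
  have h6 : (0:ℝ) ≤ (1 / t) ^ J := by positivity
  have h7 := mul_le_mul_of_nonneg_left h5 h6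
  linarith

end

end Pool.Agent.W5h31.RC
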