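import Pool.Agent.W5h31.RC.Sv3
import Pool.Agent.W5h31.RC.Cov2

set_option autoImplicit false
set_option linter.unusedVariables false

/-! # Runs of composite numbers with a sharp constant -/

namespace Pool.Agent.W5h31.RC

open Finset Filter

open scoped Classical

theorem exists_crt (n : ℕ) (a : ℕ → ℕ) :
    ∃ b0 : ℕ, b0 < primorial n ∧ ∀ p : ℕ, p.Prime → p ≤ n → b0 ≡ a p [MOD p] := by
  have hs : ∀ i ∈ (range (n + 1)).filter Nat.Prime, (id i : ℕ) ≠ 0 := fun i hi =>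
    (mem_filter.1 hi).2.ne_zero
  have pp : Set.Pairwise (((range (n + 1)).filter Nat.Prime : Finset ℕ) : Set ℕ)
      (Function.onFun Nat.Coprime id) := by
    intro i hi j hj hij
    have hi' := (mem_filter.1 (mem_coe.1 hi)).2
    have hj' := (mem_filter.1 (mem_coe.1 hj)).2
    exact (Nat.coprime_primes hi' hj').2 hij
  refine ⟨Nat.chineseRemainderOfFinset a id _ hs pp, ?_, ?_⟩
  · exact Nat.chineseRemainderOfFinset_lt_prod a id hs pp
  · intro p hp hpn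
    exact (Nat.chineseRemainderOfFinset a id _ hs pp).2 p
      (mem_filter.2 ⟨mem_range.2 (by omega), hp⟩)

/-- the eventual facts for the last step, `L = log X`, `θ = ε / 512` -/
lemma facts_fin (ε θ : ℝ) (hε : 0 < ε) (hε1 : ε < 1) (hθ : 0 < θ) (hθ1 : θ < 1) :
    ∀ᶠ L : ℝ in atTop, 100 ≤ L ∧ 1 ≤ Real.log L ∧ 1 ≤ Real.log (Real.log L) ∧
      1 ≤ Real.log (Real.log (Real.log L)) ∧
      L + 1 ≤ 1 / 4 * (1 - ε) * (L * (Real.log L) ^ 2 * Real.log (Real.log (Real.log L)) /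
        (Real.log (Real.log L)) ^ 2) ∧
      1 / 4 * (1 - ε) * (L * (Real.log L) ^ 2 * Real.log (Real.log (Real.log L)) /
        (Real.log (Real.log L)) ^ 2) ≤ L ^ 2 ∧
      Real.exp ((1 - θ / 4) * L) + 1 ≤ Real.exp L / 8 ∧
      L ^ 2 ≤ Real.exp L / 8 ∧ 8 * Real.exp (L / 4) + 8 < Real.exp L ∧
      8 * L + 8 < Real.exp L := by
  have T0 : Tendsto (fun L : ℝ => L) atTop atTop := tendsto_id
  have T1 : Tendsto (fun L : ℝ => Real.log L) atTop atTop := Real.tendsto_log_atTop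
  have T2 : Tendsto (fun L : ℝ => Real.log (Real.log L)) atTop atTop :=
    Real.tendsto_log_atTop.comp T1
  have T3 : Tendsto (fun L : ℝ => Real.log (Real.log (Real.log L))) atTop atTop :=
    Real.tendsto_log_atTop.comp T2
  obtain ⟨κ, hκ⟩ : ∃ κ : ℝ, κ = 1 - ε := ⟨_, rfl⟩
  have hκ0 : 0 < κ := by rw [hκ]; linarith
  have g1 := T1.eventually Pool.Agent.H256R2.SC.ev_log_sq
  have g3 := T2.eventually (Pool.Agent.H256R2.SC.ev_log (one_pos (α := ℝ)))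
  have g2 := Pool.Agent.H256R2.SC.ev_log_sq
  have h5 : Tendsto (fun L : ℝ => Real.exp (1 * L) / L ^ (2:ℝ)) atTop atTop :=
    tendsto_exp_mul_div_rpow_atTop 2 1 one_pos
  filter_upwards [g1, g2, g3, h5.eventually_ge_atTop 8, T0.eventually_ge_atTop 100,
    T1.eventually_ge_atTop 1, T1.eventually_ge_atTop (16 / κ),
    T2.eventually_ge_atTop 1, T3.eventually_ge_atTop 1, T0.eventually_ge_atTop (16 / θ)] with
      L a1 a2 a3 a4 a5 a6 a6' a7 a8 a9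
  obtain ⟨l, hl⟩ : ∃ l : ℝ, l = Real.log L := ⟨_, rfl⟩
  rw [← hl] at a1 a2 a3 a6 a6' a7 a8 ⊢
  obtain ⟨t, ht⟩ : ∃ t : ℝ, t = Real.log l := ⟨_, rfl⟩
  rw [← ht] at a1 a3 a7 a8 ⊢
  obtain ⟨s, hs⟩ : ∃ s : ℝ, s = Real.log t := ⟨_, rfl⟩
  rw [← hs] at a3 a8 ⊢
  rw [← hκ]
  have hL0 : 0 < L := by linarith
  have hl0 : 0 < l := by linarith
  have ht0 : 0 < t := by linarith
  have hs0 : 0 < s := by linarith
  have hE8 : 8 ≤ Real.exp (θ / 4 * L) / 1 := by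
    rw [div_le_iff₀ hθ] at a9
    have e1 : (4:ℝ) ≤ θ / 4 * L := by linarith
    have e2 : Real.exp 4 ≤ Real.exp (θ / 4 * L) := Real.exp_le_exp.2 e1
    have e3 : Real.exp 4 = Real.exp 1 * Real.exp 1 * (Real.exp 1 * Real.exp 1) := by
      rw [← Real.exp_add, ← Real.exp_add]
      norm_num
    have e4 := Real.add_one_le_exp (1:ℝ)
    have e5 : (2:ℝ) * 2 * (2 * 2) ≤ Real.exp 1 * Real.exp 1 * (Real.exp 1 * Real.exp 1) := by
      gcongr <;> linarith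
    rw [div_one]
    linarith
  refine ⟨a5, a6, a7, a8, ?_, ?_, ?_, ?_, ?_, ?_⟩
  · -- lower bound
    have e1 : 1 / 4 * κ * (L * l ^ 2 * s / t ^ 2) = L * (κ * l * s / 4 * (l / t ^ 2)) := by
      ring
    rw [e1]
    have e2 : 2 ≤ l / t ^ 2 := by
      rw [le_div_iff₀ (by positivity)]
      linarith
    have e3 : 4 ≤ κ * l * s / 4 := by
      rw [div_le_iff₀ hκ0] at a6'
      have : l * κ * 1 ≤ l * κ * s := mul_le_mul_of_nonneg_left a8 (by positivity)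
      linarith
    have e4 : 4 * 2 ≤ κ * l * s / 4 * (l / t ^ 2) := mul_le_mul e3 e2 (by norm_num) (by linarith)
    have e5 : L * (4 * 2) ≤ L * (κ * l * s / 4 * (l / t ^ 2)) :=
      mul_le_mul_of_nonneg_left e4 hL0.le
    linarith
  · have e1 : s / t ^ 2 ≤ 1 := by
      rw [div_le_one (by positivity)]
      nlinarith
    calc 1 / 4 * κ * (L * l ^ 2 * s / t ^ 2) = 1 / 4 * κ * (L * l ^ 2) * (s / t ^ 2) := by ring
      _ ≤ 1 / 4 * κ * (L * l ^ 2) * 1 := mul_le_mul_of_nonneg_left e1 (by positivity)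
      _ ≤ 1 / 4 * 1 * (L * l ^ 2) * 1 := by
        have : κ ≤ 1 := by rw [hκ]; linarith
        gcongr
      _ ≤ L ^ 2 := by nlinarith
  · have e1 : Real.exp ((1 - θ / 4) * L) * Real.exp (θ / 4 * L) = Real.exp L := by
      rw [← Real.exp_add]
      congr 1
      ring
    have e2 : 1 ≤ Real.exp ((1 - θ / 4) * L) := Real.one_le_exp (by
      have : 0 < 1 - θ / 4 := by linarith
      positivity)
    have e3 : (16:ℝ) ≤ Real.exp (θ / 4 * L) := by
      rw [div_le_iff₀ hθ] at a9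
      have e1 : (4:ℝ) ≤ θ / 4 * L := by linarith
      have e2 : Real.exp 4 ≤ Real.exp (θ / 4 * L) := Real.exp_le_exp.2 e1
      have e3 : Real.exp 4 = Real.exp 1 * Real.exp 1 * (Real.exp 1 * Real.exp 1) := by
        rw [← Real.exp_add, ← Real.exp_add]
        norm_num
      have e4 := Real.add_one_le_exp (1:ℝ)
      have e5 : (2:ℝ) * 2 * (2 * 2) ≤ Real.exp 1 * Real.exp 1 * (Real.exp 1 * Real.exp 1) := by
        gcongr <;> linarith
      linarith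
    have e4 : Real.exp ((1 - θ / 4) * L) * 16 ≤ Real.exp ((1 - θ / 4) * L) * Real.exp (θ / 4 * L) :=
      mul_le_mul_of_nonneg_left e3 (by linarith)
    linarith
  · rw [one_mul, le_div_iff₀ (by positivity)] at a4
    have : L ^ (2:ℝ) = L ^ 2 := by
      rw [← Real.rpow_natCast]
      norm_num
    rw [this] at a4
    linarith
  · have e1 : Real.exp (L / 4) * Real.exp (3 * L / 4) = Real.exp L := by
      rw [← Real.exp_add]
      congr 1
      ring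
    have e2 := Real.add_one_le_exp (3 * L / 4)
    have e3 : 1 ≤ Real.exp (L / 4) := Real.one_le_exp (by positivity)
    have e4 : Real.exp (L / 4) * 75 ≤ Real.exp (L / 4) * Real.exp (3 * L / 4) :=
      mul_le_mul_of_nonneg_left (by linarith) (by linarith)
    linarith
  · have e1 : Real.exp (L / 2) * Real.exp (L / 2) = Real.exp L := by
      rw [← Real.exp_add]
      congr 1
      ring
    have e2 := Real.add_one_le_exp (L / 2)
    have e4 : (L / 2 + 1) * (L / 2 + 1) ≤ Real.exp (L / 2) * Real.exp (L / 2) := by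
      apply mul_le_mul e2 e2 (by positivity) (by positivity)
    nlinarith

/-- **runs of composite numbers in every interval of length `X`** -/
theorem run0 (ε : ℝ) (hε : 0 < ε) (hε1 : ε < 1) : ∀ᶠ X : ℝ in atTop, ∀ x : ℝ, 0 ≤ x →
    ∃ a : ℕ, 2 ≤ a ∧ x < a ∧ (a : ℝ) + 1 / 4 * (1 - ε) * Pool.Agent.H256R2.SC.ff X ≤ x + X / 2 ∧
      ∀ k : ℕ, 1 ≤ k → (k : ℝ) ≤ 1 / 4 * (1 - ε) * Pool.Agent.H256R2.SC.ff X →
        ¬ (a + k).Prime := by
  obtain ⟨δ, hδ⟩ : ∃ δ : ℝ, δ = ε / 4 := ⟨_, rfl⟩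
  have hδ0 : 0 < δ := by rw [hδ]; positivity
  have hδ1 : δ < 1 := by rw [hδ]; linarith
  obtain ⟨θ, hθ⟩ : ∃ θ : ℝ, θ = δ / 128 := ⟨_, rfl⟩
  have hθ0 : 0 < θ := by rw [hθ]; positivity
  have hθ1 : θ < 1 := by rw [hθ]; linarith
  obtain ⟨ε₁, hε₁⟩ : ∃ ε₁ : ℝ, ε₁ = θ / 2 := ⟨_, rfl⟩
  have hε₁0 : 0 < ε₁ := by rw [hε₁]; positivity
  have hε₁1 : ε₁ ≤ 1 := by rw [hε₁]; linarith
  have ev := (cover δ hδ0 hδ1).and ((survivors ε ε₁ hε hε1 hε₁0 hε₁1).and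
    (facts_fin ε θ hε hε1 hθ0 hθ1))
  filter_upwards [Real.tendsto_log_atTop.eventually ev, eventually_ge_atTop (1:ℝ)] with X hX hX1
  obtain ⟨hcov, hsur, f1, f2, f3, f4, f5, f6, f7, f8, f9, f10⟩ := hX
  intro x hx
  have hX0 : 0 < X := by linarith
  have hexp : Real.exp (Real.log X) = X := Real.exp_log hX0
  rw [hexp] at f7 f8 f9 f10
  obtain ⟨L, hL⟩ : ∃ L : ℝ, L = Real.log X := ⟨_, rfl⟩
  have hff : Pool.Agent.H256R2.SC.ff X = L * (Real.log L) ^ 2 * Real.log (Real.log (Real.log L)) /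
        (Real.log (Real.log L)) ^ 2 := by
    unfold Pool.Agent.H256R2.SC.ff
    rw [← hL]
  rw [← hL] at hcov hsur f1 f2 f3 f4 f5 f6 f7 f8 f9 f10
  rw [← hff] at hsur f5 f6
  obtain ⟨F, hF⟩ : ∃ F : ℝ, F = 1 / 4 * (1 - ε) * Pool.Agent.H256R2.SC.ff X := ⟨_, rfl⟩
  rw [← hF] at f5 f6 hsur ⊢
  have hF0 : 0 ≤ F := by linarith
  obtain ⟨h, hh⟩ : ∃ h : ℕ, h = ⌊F⌋₊ := ⟨_, rfl⟩
  have hhF : (h : ℝ) ≤ F := by rw [hh]; exact Nat.floor_le hF0
  have hFh : F < h + 1 := by rw [hh]; exact Nat.lt_floor_add_one F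
  have hLh : L ≤ h := by linarith
  obtain ⟨b, hb⟩ := hsur h hLh hhF
  obtain ⟨y, hy⟩ : ∃ y : ℝ, y = ε₁ * L := ⟨_, rfl⟩
  rw [← hy] at hb
  have hL0 : 0 < L := by linarith
  have hy0 : 0 < y := by rw [hy]; positivity
  have hyL : y ≤ L := by
    rw [hy]
    have : ε₁ * L ≤ 1 * L := mul_le_mul_of_nonneg_right hε₁1 hL0.le
    linarith
  obtain ⟨U, hU⟩ : ∃ U : Finset ℕ, U = (Finset.Icc 1 h).filter (fun k => ∀ p : ℕ, p.Prime →
    (p : ℝ) ≤ y → ¬ k ≡ b p [MOD p]) := ⟨_, rfl⟩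
  rw [← hU, ← hδ] at hb
  obtain ⟨P, hP⟩ : ∃ P : ℕ, P = primorial ⌊y⌋₊ := ⟨_, rfl⟩
  have hPpos : 0 < P := by rw [hP]; exact primorial_pos _
  have hfloor : ∀ p : ℕ, p ≤ ⌊y⌋₊ ↔ (p : ℝ) ≤ y := fun p => Nat.le_floor_iff hy0.le
  have hPr : (P : ℝ) ≤ Real.exp (3 / 4 * θ * L) := by
    have h1 : (P : ℝ) ≤ (4 : ℝ) ^ ⌊y⌋₊ := by
      rw [hP]
      exact_mod_cast primorial_le_four_pow _
    have h3 : Real.log 4 ≤ 3 / 2 := by
      have e1 : Real.log 4 = 2 * Real.log 2 := by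
        rw [show (4 : ℝ) = 2 ^ (2 : ℕ) by norm_num, Real.log_pow]; norm_num
      have e2 := Real.log_two_lt_d9
      linarith
    have h4 : (4 : ℝ) = Real.exp (Real.log 4) := (Real.exp_log (by norm_num)).symm
    refine h1.trans ?_
    have h7 : (4 : ℝ) ^ ⌊y⌋₊ = Real.exp ((⌊y⌋₊ : ℝ) * Real.log 4) := by
      rw [Real.exp_nat_mul, ← h4]
    rw [h7]
    apply Real.exp_le_exp.2
    have h5 : (⌊y⌋₊ : ℝ) ≤ y := Nat.floor_le hy0.le
    have h6 : 0 ≤ Real.log 4 := Real.log_nonneg (by norm_num)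
    calc (⌊y⌋₊ : ℝ) * Real.log 4 ≤ y * (3 / 2) := mul_le_mul h5 h3 h6 hy0.le
      _ = 3 / 4 * θ * L := by rw [hy, hε₁]; ring
  obtain ⟨b0, hb0, hb0'⟩ := exists_crt ⌊y⌋₊ (fun p => (p - 1) * b p)
  obtain ⟨A, hA⟩ : ∃ A : ℤ, A = ⌊x + X / 8⌋ := ⟨_, rfl⟩
  obtain ⟨B, hB⟩ : ∃ B : ℤ, B = ⌊x + X / 4⌋ := ⟨_, rfl⟩
  have hAB : A ≤ B := by
    rw [hA, hB]
    exact Int.floor_le_floor (by linarith)
  have hA1 : (A : ℝ) ≤ x + X / 8 := by rw [hA]; exact Int.floor_le _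
  have hA2 : x + X / 8 < (A : ℝ) + 1 := by rw [hA]; exact Int.lt_floor_add_one _
  have hB1 : (B : ℝ) ≤ x + X / 4 := by rw [hB]; exact Int.floor_le _
  have hB2 : x + X / 4 < (B : ℝ) + 1 := by rw [hB]; exact Int.lt_floor_add_one _
  have hN : Real.exp ((1 - δ / 128) * L) ≤ ((B : ℝ) - A) / P := by
    rw [le_div_iff₀ (by exact_mod_cast hPpos)]
    calc Real.exp ((1 - δ / 128) * L) * P ≤ Real.exp ((1 - δ / 128) * L) *
          Real.exp (3 / 4 * θ * L) := mul_le_mul_of_nonneg_left hPr (Real.exp_pos _).le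
      _ = Real.exp ((1 - θ / 4) * L) := by
        rw [← Real.exp_add]
        congr 1
        rw [hθ]
        ring
      _ ≤ (B : ℝ) - A := by linarith
  have hU1 : ∀ k ∈ U, 1 ≤ k ∧ (k : ℝ) ≤ (h : ℝ) := by
    intro k hk
    rw [hU, Finset.mem_filter, Finset.mem_Icc] at hk
    exact ⟨hk.1.1, by exact_mod_cast hk.1.2⟩
  have hh1 : L ^ (1 / 2 : ℝ) ≤ (h : ℝ) := by
    have : L ^ (1 / 2 : ℝ) ≤ L ^ (1 : ℝ) :=
      Real.rpow_le_rpow_of_exponent_le (by linarith) (by norm_num)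
    rw [Real.rpow_one] at this
    linarith
  have hh2 : (h : ℝ) ≤ L ^ 2 := hhF.trans f6
  obtain ⟨a, haAB, ha0, ha⟩ := hcov (h : ℝ) hh1 hh2 U hU1 hb P hPpos (by
    intro p hp hpP
    rw [hP] at hpP
    have := (hfloor p).1 ((hp.dvd_primorial_iff).1 hpP)
    linarith) (b0 : ℤ) A B hAB hN
  rw [Finset.mem_Ioc] at haAB
  have ha1 : (A : ℝ) + 1 ≤ a := by exact_mod_cast haAB.1
  have ha2 : (a : ℝ) ≤ B := by exact_mod_cast haAB.2
  have ha3 : x + X / 8 < a := by linarith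
  have hapos : 0 < a := by
    have : (0:ℝ) < a := by linarith
    exact_mod_cast this
  obtain ⟨m, rfl⟩ := Int.eq_ofNat_of_zero_le hapos.le
  rw [Int.cast_natCast] at ha1 ha2 ha3
  refine ⟨m, ?_, by linarith, by linarith, ?_⟩
  · have : (2:ℝ) ≤ m := by linarith
    exact_mod_cast this
  intro k hk1 hk2 hprime
  have hkh : k ≤ h := by
    rw [hh]
    exact Nat.le_floor hk2
  have hcomp : ∀ p : ℕ, p.Prime → (p : ℝ) ≤ X / 8 → ¬ p ∣ m + k := by
    intro p hp hpX hdvd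
    have h1 := (Nat.prime_dvd_prime_iff_eq hp hprime).1 hdvd
    have h2 : (p : ℝ) = m + k := by
      rw [h1]
      push_cast
      ring
    have h3 : (0 : ℝ) ≤ k := by positivity
    linarith
  by_cases hkU : k ∈ U
  · obtain ⟨p, hp, hp1, hp2, hp3⟩ := ha k hkU
    apply hcomp p hp (by linarith)
    have h2 : (p : ℤ) ∣ ((m + k : ℕ) : ℤ) := by
      push_cast
      exact hp3
    exact_mod_cast h2
  · have hkU' : ¬ ∀ p : ℕ, p.Prime → (p : ℝ) ≤ y → ¬ k ≡ b p [MOD p] := fun h' =>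
      hkU (by rw [hU]; exact mem_filter.2 ⟨mem_Icc.2 ⟨hk1, hkh⟩, h'⟩)
    push Not at hkU'
    obtain ⟨p, hp, hpy, hkp⟩ := hkU'
    apply hcomp p hp (by linarith)
    have h1 : b0 + k ≡ (p - 1) * b p + b p [MOD p] :=
      Nat.ModEq.add (hb0' p hp ((hfloor p).2 hpy)) hkp
    have h2 : (p - 1) * b p + b p = p * b p := by
      have := hp.one_lt
      obtain ⟨q, hq⟩ : ∃ q, p = q + 1 := ⟨p - 1, by omega⟩
      rw [hq]
      simp only [Nat.add_sub_cancel]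
      ring
    rw [h2] at h1
    have h3 : p ∣ b0 + k := (Nat.modEq_zero_iff_dvd).1
      (h1.trans ((Nat.modEq_zero_iff_dvd).2 (Dvd.intro _ rfl)))
    have h4 : (p : ℤ) ∣ (m : ℤ) - (b0 : ℤ) := by
      refine dvd_trans ?_ ha0
      have : p ∣ P := by
        rw [hP]
        exact (hp.dvd_primorial_iff).2 ((hfloor p).2 hpy)
      exact_mod_cast this
    have h5 : (p : ℤ) ∣ ((b0 + k : ℕ) : ℤ) := by exact_mod_cast h3
    have h6 : (p : ℤ) ∣ ((m + k : ℕ) : ℤ) := by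
      have h7 := dvd_add h4 h5
      have h8 : (m : ℤ) - (b0 : ℤ) + ((b0 + k : ℕ) : ℤ) = ((m + k : ℕ) : ℤ) := by
        push_cast
        ring
      rwa [h8] at h7
    exact_mod_cast h6

/-- the function `ff` is eventually positive -/
lemma ff_pos_ev : ∀ᶠ X : ℝ in atTop, 0 < Pool.Agent.H256R2.SC.ff X := by
  filter_upwards [Pool.Agent.H256R2.SC.t1.eventually_ge_atTop 1,
    Pool.Agent.H256R2.SC.t2.eventually_ge_atTop 1, Pool.Agent.H256R2.SC.t3.eventually_ge_atTop 1,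
    Pool.Agent.H256R2.SC.t4.eventually_ge_atTop 1] with X h2 h3 h4 h5
  unfold Pool.Agent.H256R2.SC.ff
  positivity

theorem run (ε : ℝ) (hε : 0 < ε) : ∀ᶠ X : ℝ in atTop, ∀ x : ℝ, 0 ≤ x →
    ∃ a : ℕ, 2 ≤ a ∧ x < a ∧ (a : ℝ) + (1 / 4 - ε) * Pool.Agent.H256R2.SC.ff X ≤ x + X / 2 ∧
      ∀ k : ℕ, 1 ≤ k → (k : ℝ) ≤ (1 / 4 - ε) * Pool.Agent.H256R2.SC.ff X →
        ¬ (a + k).Prime := by
  obtain ⟨δ, hδ⟩ : ∃ δ : ℝ, δ = min (1 / 2) (4 * ε) := ⟨_, rfl⟩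
  have hδ0 : 0 < δ := by rw [hδ]; positivity
  have hδ1 : δ < 1 := by
    rw [hδ]
    exact lt_of_le_of_lt (min_le_left _ _) (by norm_num)
  have hδε : δ ≤ 4 * ε := by rw [hδ]; exact min_le_right _ _
  filter_upwards [run0 δ hδ0 hδ1, ff_pos_ev] with X hX hff x hx
  obtain ⟨a, h0, h1, h2, h3⟩ := hX x hx
  have h4 : (1 / 4 - ε) * Pool.Agent.H256R2.SC.ff X ≤
      1 / 4 * (1 - δ) * Pool.Agent.H256R2.SC.ff X :=
    mul_le_mul_of_nonneg_right (by linarith) hff.le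
  exact ⟨a, h0, h1, by linarith, fun k hk1 hk2 => h3 k hk1 (hk2.trans h4)⟩

/-- **large gaps with an explicit constant** -/
theorem gaps (ε : ℝ) (hε : 0 < ε) : ∀ᶠ X : ℝ in atTop,
    ∃ m : ℕ, (Nat.nth Nat.Prime (m + 1) : ℝ) ≤ X ∧
      (1 / 4 - ε) * Pool.Agent.H256R2.SC.ff X ≤
        (Nat.nth Nat.Prime (m + 1) : ℝ) - Nat.nth Nat.Prime m := by
  obtain ⟨δ, hδ⟩ : ∃ δ : ℝ, δ = min (1 / 8) ε := ⟨_, rfl⟩
  have hδ0 : 0 < δ := by rw [hδ]; positivity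
  have hδ1 : δ ≤ 1 / 8 := by rw [hδ]; exact min_le_left _ _
  have hδε : δ ≤ ε := by rw [hδ]; exact min_le_right _ _
  filter_upwards [run δ hδ0, ff_pos_ev, eventually_ge_atTop (32:ℝ)] with X hX hff hX32
  obtain ⟨x, h0, h1, h2, h3⟩ := hX 0 le_rfl
  rw [zero_add] at h2
  have hF0 : 0 < (1 / 4 - δ) * Pool.Agent.H256R2.SC.ff X := mul_pos (by linarith) hff
  obtain ⟨m1, hm1⟩ : ∃ m1 : ℕ, m1 = Nat.count Nat.Prime (x + 1) := ⟨_, rfl⟩
  have hm1pos : 0 < m1 := by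
    rw [hm1]
    have := Nat.count_monotone Nat.Prime (show 3 ≤ x + 1 by omega)
    have h2 : Nat.count Nat.Prime 3 = 1 := by decide
    omega
  obtain ⟨m, hm⟩ : ∃ m, m1 = m + 1 := ⟨m1 - 1, by omega⟩
  refine ⟨m, ?_, ?_⟩
  · -- Bertrand
    obtain ⟨n, hn⟩ : ∃ n : ℕ, n = ⌊X / 2⌋₊ := ⟨_, rfl⟩
    have hn0 : n ≠ 0 := by
      rw [hn]
      have : 1 ≤ ⌊X / 2⌋₊ := Nat.one_le_floor_iff _ |>.2 (by linarith)
      omega
    obtain ⟨r, hr, hr1, hr2⟩ := Nat.exists_prime_lt_and_le_two_mul n hn0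
    have hxn : x ≤ n := by
      rw [hn]
      apply Nat.le_floor
      linarith
    have h5 : Nat.nth Nat.Prime m1 ≤ r := by
      have h6 : m1 ≤ Nat.count Nat.Prime r := by
        rw [hm1]
        exact Nat.count_monotone _ (by omega)
      calc Nat.nth Nat.Prime m1 ≤ Nat.nth Nat.Prime (Nat.count Nat.Prime r) :=
            Nat.nth_monotone Nat.infinite_setOfPred_prime h6
        _ = r := Nat.nth_count hr
    rw [hm] at h5
    have h7 : (r : ℝ) ≤ 2 * n := by exact_mod_cast hr2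
    have h8 : (n : ℝ) ≤ X / 2 := by
      rw [hn]
      exact Nat.floor_le (by linarith)
    have h9 : (Nat.nth Nat.Prime (m + 1) : ℝ) ≤ r := by exact_mod_cast h5
    linarith
  · have h5 : Nat.nth Nat.Prime m < x + 1 := by
      apply Nat.nth_lt_of_lt_count
      omega
    have h6 : x + 1 ≤ Nat.nth Nat.Prime (m + 1) := by
      rw [← hm, hm1]
      exact Nat.le_nth_count Nat.infinite_setOfPred_prime (x + 1)
    have h7 : (Nat.nth Nat.Prime (m + 1)).Prime := Nat.prime_nth_prime _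
    obtain ⟨k, hk⟩ : ∃ k, Nat.nth Nat.Prime (m + 1) = x + k :=
      ⟨_, (Nat.add_sub_of_le (by omega)).symm⟩
    have hk1 : 1 ≤ k := by omega
    have h8 : (1 / 4 - δ) * Pool.Agent.H256R2.SC.ff X < k := by
      by_contra h
      push Not at h
      exact h3 k hk1 h (hk ▸ h7)
    have h9 : (Nat.nth Nat.Prime (m + 1) : ℝ) = x + k := by
      rw [hk]
      push_cast
      ring
    have h10 : (Nat.nth Nat.Prime m : ℝ) ≤ x := by
      have : Nat.nth Nat.Prime m ≤ x := by omega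
      exact_mod_cast this
    have h12 : (1 / 4 - ε) * Pool.Agent.H256R2.SC.ff X ≤
        (1 / 4 - δ) * Pool.Agent.H256R2.SC.ff X :=
      mul_le_mul_of_nonneg_right (by linarith) hff.le
    linarith

end Pool.Agent.W5h31.RC
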