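import Pool.Agent.W5h31.RC.Cov

set_option autoImplicit false
set_option linter.unusedSectionVars false
set_option linter.unusedVariables false

/-! # Numerical lemmas for the covering theorem -/

namespace Pool.Agent.W5h31.RC

open Finset Filter Pool.Agent.H256R2.SC

lemma n_pow (L l : ℝ) (hLexp : L = Real.exp l) (m : ℕ) : L ^ m = Real.exp (m * l) := by
  rw [Real.exp_nat_mul, ← hLexp]

/-- error term of the small primes -/
lemma n_err (L l e θ M' m : ℝ) (k : ℕ) (hL : 1000 ≤ L) (hl : 0 < l) (hLexp : L = Real.exp l)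
    (hm0 : 0 ≤ m) (hm : m ≤ L ^ 3) (hM0 : 1 ≤ M') (hM : M' ≤ 3 * L ^ (1 - e))
    (hM3 : M' ≤ 3 * L)
    (hk : (k : ℝ) ≤ 41 * l * M') (f3 : 615 * l ^ 2 ≤ θ * L ^ e)
    (h1e : L ^ e * L ^ (1 - e) = L) (h1e0 : 0 < L ^ (1 - e)) :
    3 * (m * M' + 1) ^ k ≤ 3 * Real.exp (θ * L) := by
  apply mul_le_mul_of_nonneg_left _ (by norm_num)
  have hL0 : 0 < L := by linarith
  have h1 : m * M' + 1 ≤ L ^ 5 := by
    have h3 : m * M' ≤ L ^ 3 * (3 * L) := mul_le_mul hm hM3 (by linarith) (by positivity)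
    have h4 : L ^ 3 * (3 * L) + 1 ≤ L ^ 5 := by
      have h5 : L ^ 5 = L ^ 4 * L := by ring
      have h6 : (1:ℝ) ≤ L ^ 4 := one_le_pow₀ (by linarith)
      rw [h5]
      nlinarith
    linarith
  have h0 : 0 ≤ m * M' := mul_nonneg hm0 (by linarith)
  have h2 : (m * M' + 1) ^ k ≤ (L ^ 5) ^ k := pow_le_pow_left₀ (by linarith) h1 _
  refine h2.trans ?_
  rw [n_pow L l hLexp 5, ← Real.exp_nat_mul]
  apply Real.exp_le_exp.2
  push_cast
  have h3 : (k:ℝ) * (5 * l) ≤ (41 * l * M') * (5 * l) :=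
    mul_le_mul_of_nonneg_right hk (by positivity)
  have h4 : (41 * l * M') * (5 * l) ≤ (41 * l * (3 * L ^ (1 - e))) * (5 * l) := by
    apply mul_le_mul_of_nonneg_right _ (by positivity)
    exact mul_le_mul_of_nonneg_left hM (by positivity)
  have h5 : (41 * l * (3 * L ^ (1 - e))) * (5 * l) = (615 * l ^ 2) * L ^ (1 - e) := by ring
  have h6 : (615 * l ^ 2) * L ^ (1 - e) ≤ (θ * L ^ e) * L ^ (1 - e) :=
    mul_le_mul_of_nonneg_right f3 h1e0.le
  have h7 : (θ * L ^ e) * L ^ (1 - e) = θ * L := by rw [mul_assoc, h1e]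
  linarith

/-- number of assignments -/
lemma n_cv {n : ℕ} (L l H u ε θ : ℝ) (P g : Fin n → ℝ) (hL : 1000 ≤ L) (hl : 0 < l)
    (hε : 0 < ε) (hε1 : ε < 1) (hθ : θ = ε / 128)
    (hH : H = L ^ 3) (hPH : ∀ i, H < P i) (hgP : ∀ i, g i = 1 / P i) (hu0 : 0 ≤ u)
    (hu : u ≤ L * l / 2) (hG : ∑ i, g i ≤ 2 * l) (f4 : 4 * l ^ 2 ≤ θ * L ^ (3 * θ)) :
    (Real.exp ((1 / 2 - ε / 16) * L)) ^ (1 + θ) *
      Real.exp (2 * u * ∑ i, (P i) ^ (-(1 + θ))) ≤
      Real.exp ((1 / 2 - ε / 16 + 3 / 2 * θ) * L) := by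
  have hL0 : 0 < L := by linarith
  have hH0 : 0 < H := by rw [hH]; positivity
  have hθ0 : 0 < θ := by rw [hθ]; positivity
  have hg0 : ∀ i, 0 ≤ g i := fun i => by
    rw [hgP]
    have := hPH i
    apply div_nonneg zero_le_one
    linarith
  have hGn : 0 ≤ ∑ i, g i := Finset.sum_nonneg fun i _ => hg0 i
  rw [← Real.exp_mul, ← Real.exp_add]
  apply Real.exp_le_exp.2
  have h1 : ∑ i, (P i) ^ (-(1 + θ)) ≤ L ^ (-(3 * θ)) * ∑ i, g i := by
    rw [Finset.mul_sum]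
    refine Finset.sum_le_sum fun i _ => ?_
    have hPi : 0 < P i := by linarith [hPH i]
    have e1 : (P i) ^ (-(1 + θ)) = (P i) ^ (-θ) * g i := by
      rw [hgP, neg_add, add_comm, Real.rpow_add hPi, Real.rpow_neg_one, one_div]
    rw [e1]
    apply mul_le_mul_of_nonneg_right _ (hg0 i)
    have e2 : L ^ (-(3 * θ)) = H ^ (-θ) := by
      rw [hH, ← Real.rpow_natCast, ← Real.rpow_mul hL0.le]
      congr 1
      push_cast
      ring
    rw [e2]
    exact Real.rpow_le_rpow_of_nonpos hH0 (hPH i).le (by linarith)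
  have h3 : 0 < L ^ (-(3 * θ)) := Real.rpow_pos_of_pos hL0 _
  have h2 : 2 * u * ∑ i, (P i) ^ (-(1 + θ)) ≤ θ * L := by
    calc 2 * u * ∑ i, (P i) ^ (-(1 + θ)) ≤ 2 * u * (L ^ (-(3 * θ)) * ∑ i, g i) :=
          mul_le_mul_of_nonneg_left h1 (by positivity)
      _ ≤ 2 * (L * l / 2) * (L ^ (-(3 * θ)) * (2 * l)) := by
          apply mul_le_mul _ _ (by positivity) (by positivity)
          · linarith
          · exact mul_le_mul_of_nonneg_left hG h3.le
      _ = L * (L ^ (-(3 * θ)) * (2 * l ^ 2)) := by ring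
      _ ≤ L * (L ^ (-(3 * θ)) * (θ * L ^ (3 * θ))) := by
          apply mul_le_mul_of_nonneg_left _ hL0.le
          apply mul_le_mul_of_nonneg_left _ h3.le
          have := sq_nonneg l
          linarith
      _ = θ * L := by
          have h5 : L ^ (-(3 * θ)) * L ^ (3 * θ) = 1 := by
            rw [← Real.rpow_add hL0]
            simp
          calc L * (L ^ (-(3 * θ)) * (θ * L ^ (3 * θ))) =
              θ * L * (L ^ (-(3 * θ)) * L ^ (3 * θ)) := by ring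
            _ = θ * L := by rw [h5, mul_one]
  have h6 : (1 / 2 - ε / 16) * L * (1 + θ) ≤ (1 / 2 - ε / 16 + 1 / 2 * θ) * L := by
    have : 0 ≤ ε * θ * L := by positivity
    nlinarith
  linarith

lemma n_zJ (L l ε z : ℝ) (J : ℕ) (hL : 1000 ≤ L) (hε : 0 < ε) (hε1 : ε < 1)
    (hz0 : 0 < z) (hlz0 : 0 < Real.log z) (hJ2 : (J:ℝ) ≤ 25 * l)
    (hlzl : Real.log z * l ≤ ε ^ 2 / 1024 * L) : z ^ J ≤ Real.exp (ε / 32 * L) := by
  have hzexp : z = Real.exp (Real.log z) := (Real.exp_log hz0).symm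
  have hL0 : 0 < L := by linarith
  rw [hzexp, ← Real.exp_nat_mul]
  apply Real.exp_le_exp.mpr
  calc (J:ℝ) * Real.log z ≤ (25 * l) * Real.log z := mul_le_mul_of_nonneg_right hJ2 hlz0.le
    _ = 25 * (Real.log z * l) := by ring
    _ ≤ 25 * (ε ^ 2 / 1024 * L) := by linarith
    _ = 25 * (ε ^ 2 / 1024) * L := by ring
    _ ≤ ε / 32 * L := by
        apply mul_le_mul_of_nonneg_right _ hL0.le
        nlinarith

lemma n_U1 (L l ε θ z u n : ℝ) (J : ℕ) (hL : 1000 ≤ L) (hε : 0 < ε) (hθ : θ = ε / 128)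
    (hLexp : L = Real.exp l) (hn : 0 ≤ n) (hn1 : n + 1 ≤ z) (hu0 : 0 ≤ u) (hu : u ≤ L ^ 2)
    (f6 : l ≤ ε / 512 * L)
    (hzJ : z ^ J ≤ Real.exp (ε / 32 * L)) :
    1 + u * (n + 1) ^ J ≤ 2 * Real.exp ((ε / 32 + θ) * L) := by
  have hL0 : 0 < L := by linarith
  have hθ0 : 0 < θ := by rw [hθ]; positivity
  have h1 : (n + 1) ^ J ≤ Real.exp (ε / 32 * L) :=
    (pow_le_pow_left₀ (by linarith) hn1 J).trans hzJ
  have h2 : u ≤ Real.exp (θ * L) := by
    refine hu.trans ?_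
    rw [n_pow L l hLexp 2]
    apply Real.exp_le_exp.2
    push_cast
    rw [hθ]
    have : 0 < ε * L := by positivity
    linarith
  have h3 : u * (n + 1) ^ J ≤ Real.exp (θ * L) * Real.exp (ε / 32 * L) :=
    mul_le_mul h2 h1 (by positivity) (Real.exp_pos _).le
  have h4 : Real.exp (θ * L) * Real.exp (ε / 32 * L) = Real.exp ((ε / 32 + θ) * L) := by
    rw [← Real.exp_add]
    congr 1
    ring
  have h5 : (1:ℝ) ≤ Real.exp ((ε / 32 + θ) * L) := Real.one_le_exp (by positivity)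
  linarith

lemma n_cap (L l ε u β K Wh WH : ℝ) (hL : 1000 ≤ L) (hl : 0 < l) (hε : 0 < ε) (hε1 : ε < 1)
    (hK0 : 0 ≤ K) (hβ0 : 0 ≤ β) (hW : Wh * β = WH) (hu : u ≤ (1 - ε) / 2 * L * l * Wh)
    (hcost : WH * K * ((1 - ε / 16) * (1 - ε / 32) * l) ≤ 1 + ε / 32) :
    u * β * (1 + ε / 32) * K ≤ (1 / 2 - ε / 4) * L := by
  have hL0 : 0 < L := by linarith
  have h1 : u * β ≤ (1 - ε) / 2 * L * l * WH := by
    have := mul_le_mul_of_nonneg_right hu hβ0
    rw [← hW]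
    linarith
  have h1e : 0 < (1 - ε / 16) * (1 - ε / 32) := by
    apply mul_pos <;> linarith
  have h2 : u * β * (1 + ε / 32) * K * ((1 - ε / 16) * (1 - ε / 32)) ≤
      (1 - ε) / 2 * L * (1 + ε / 32) * (1 + ε / 32) := by
    calc u * β * (1 + ε / 32) * K * ((1 - ε / 16) * (1 - ε / 32))
        ≤ ((1 - ε) / 2 * L * l * WH) * (1 + ε / 32) * K * ((1 - ε / 16) * (1 - ε / 32)) := by
          gcongr
      _ = (1 - ε) / 2 * L * (1 + ε / 32) *
          (WH * K * ((1 - ε / 16) * (1 - ε / 32) * l)) := by ring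
      _ ≤ (1 - ε) / 2 * L * (1 + ε / 32) * (1 + ε / 32) := by
          apply mul_le_mul_of_nonneg_left hcost
          have : 0 ≤ 1 - ε := by linarith
          positivity
  have h3 := num1 ε hε hε1
  have h4 : (1 - ε) / 2 * L * (1 + ε / 32) * (1 + ε / 32) ≤
      (1 / 2 - ε / 4) * L * ((1 - ε / 16) * (1 - ε / 32)) := by
    calc (1 - ε) / 2 * L * (1 + ε / 32) * (1 + ε / 32)
        = L / 2 * ((1 - ε) * (1 + ε / 32) * (1 + ε / 32)) := by ring
      _ ≤ L / 2 * ((1 - ε / 2) * ((1 - ε / 16) * (1 - ε / 32))) :=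
          mul_le_mul_of_nonneg_left h3 (by positivity)
      _ = _ := by ring
  exact le_of_mul_le_mul_right (h2.trans h4) h1e

lemma n_tail (L l ε u X Q z : ℝ) (hL : 1000 ≤ L) (hl : 0 < l) (hε : 0 < ε) (hε1 : ε < 1)
    (hLexp : L = Real.exp l) (hu0 : 0 ≤ u) (hu : u + 1 ≤ L ^ 2)
    (hX : X ≤ (1 / 2 - ε / 4) * L) (hQ0 : 0 < Q) (hz0 : 0 < z)
    (hlogQ : Real.log Q = (1 / 2 - ε / 16) * L) (hlz0 : 0 < Real.log z)
    (hlz16 : Real.log z ≤ ε / 16 * L) (hlzl : Real.log z * l ≤ ε ^ 2 / 1024 * L) :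
    (u + 1 : ℝ) * ((2 / L ^ 2) ^ 2 + Real.exp (ε / 32 / Real.log z *
      (X - Real.log (Q / z)))) ≤ 1 / 8 := by
  have hL0 : 0 < L := by linarith
  have h1 : (1 / 2 - ε / 8) * L ≤ Real.log (Q / z) := by
    rw [Real.log_div hQ0.ne' hz0.ne', hlogQ]
    linarith
  have h2 : X - Real.log (Q / z) ≤ -(ε / 8 * L) := by linarith
  have h3 : ε / 32 / Real.log z * (X - Real.log (Q / z)) ≤ -(4 * l) := by
    calc ε / 32 / Real.log z * (X - Real.log (Q / z))
        ≤ ε / 32 / Real.log z * (-(ε / 8 * L)) :=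
          mul_le_mul_of_nonneg_left h2 (by positivity)
      _ = -(ε ^ 2 / 256 * L / Real.log z) := by ring
      _ ≤ -(4 * l) := by
          apply neg_le_neg
          rw [le_div_iff₀ hlz0]
          linarith
  have h4 : Real.exp (ε / 32 / Real.log z * (X - Real.log (Q / z))) ≤ 1 / L ^ 4 := by
    have e1 : (1:ℝ) / L ^ 4 = Real.exp (-(4 * l)) := by
      rw [Real.exp_neg, n_pow L l hLexp 4]
      push_cast
      rw [one_div]
    rw [e1]
    exact Real.exp_le_exp.mpr h3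
  have h5 : (2 / L ^ 2) ^ 2 = 4 / L ^ 4 := by
    rw [div_pow]
    congr 1
    · norm_num
    · ring
  rw [h5]
  calc (u + 1 : ℝ) * (4 / L ^ 4 + Real.exp (ε / 32 / Real.log z *
      (X - Real.log (Q / z)))) ≤ L ^ 2 * (4 / L ^ 4 + 1 / L ^ 4) := by
        apply mul_le_mul hu _ (by positivity) (by positivity)
        linarith
    _ = 5 / L ^ 2 := by field_simp; norm_num
    _ ≤ 1 / 8 := by
        rw [div_le_div_iff₀ (by positivity) (by norm_num)]
        nlinarith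

lemma n_third (x : ℝ) (J : ℕ) (hx : x ≤ J) : (1 / (3:ℝ)) ^ J ≤ Real.exp (-x) := by
  have e1 : (1 / (3:ℝ)) = Real.exp (-(Real.log 3)) := by
    rw [Real.exp_neg, Real.exp_log (by norm_num)]; norm_num
  rw [e1, ← Real.exp_nat_mul]
  apply Real.exp_le_exp.mpr
  have e2 : (1:ℝ) ≤ Real.log 3 := by
    rw [Real.le_log_iff_exp_le (by norm_num)]
    have := Real.exp_one_lt_d9
    linarith
  have e3 : 0 ≤ (J:ℝ) := Nat.cast_nonneg _
  have e4 : (J:ℝ) ≤ J * Real.log 3 := by nlinarith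
  linarith

lemma n_mom (L l u G : ℝ) (J : ℕ) (hL : 1000 ≤ L) (hLexp : L = Real.exp l) (hu0 : 0 ≤ u)
    (hu : u ≤ L ^ 2) (hJ : 24 * l ≤ J) (hG : 20 * G ≤ 21 * l) :
    u * (1 / 3) ^ J * Real.exp ((2 + 6 * 3) * G) ≤ 1 / 8 := by
  have h1 := n_third (24 * l) J hJ
  have h2 : Real.exp ((2 + 6 * 3) * G) ≤ Real.exp (21 * l) := by
    apply Real.exp_le_exp.mpr
    linarith
  have h3 : u ≤ Real.exp (2 * l) := by
    refine hu.trans (le_of_eq ?_)
    rw [n_pow L l hLexp 2]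
    push_cast
    rfl
  calc u * (1 / (3:ℝ)) ^ J * Real.exp ((2 + 6 * 3) * G)
      ≤ Real.exp (2 * l) * Real.exp (-(24 * l)) * Real.exp (21 * l) := by
        gcongr
    _ = Real.exp (-l) := by
        rw [← Real.exp_add, ← Real.exp_add]
        congr 1
        ring
    _ = 1 / L := by rw [Real.exp_neg, ← hLexp, one_div]
    _ ≤ 1 / 8 := one_div_le_one_div_of_le (by norm_num) (by linarith)

lemma n_fin1 (L l u C G N M' : ℝ) (Js k : ℕ) (hL : 1000 ≤ L) (hLexp : L = Real.exp l)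
    (hu0 : 0 ≤ u) (hu : u + 1 ≤ L ^ 2) (hJs : 40 * l * M' ≤ Js) (hk : (k : ℝ) = M')
    (hM : 1 ≤ M') (hG : G ≤ l + C) (hC : 3 ≤ 4 * l - 9 - 34 * C) (hN : 0 < N) :
    ((1 / 3) ^ Js * Real.exp (9 * M')) * N * ((u + 1) ^ k * Real.exp (34 * (M' * G))) ≤ N / 4 := by
  have h1 := n_third (40 * l * M') Js hJs
  have h2 : (u + 1) ^ k ≤ Real.exp (2 * l * M') := by
    calc (u + 1) ^ k ≤ (L ^ 2) ^ k := pow_le_pow_left₀ (by linarith) hu _
      _ = Real.exp (2 * l * M') := by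
          rw [n_pow L l hLexp 2, ← Real.exp_nat_mul]
          congr 1
          push_cast
          rw [hk]
          ring
  have h3 : Real.exp (34 * (M' * G)) ≤ Real.exp (34 * (M' * (l + C))) := by
    apply Real.exp_le_exp.2
    apply mul_le_mul_of_nonneg_left _ (by norm_num)
    exact mul_le_mul_of_nonneg_left hG (by linarith)
  have h4 : ((1 / 3) ^ Js * Real.exp (9 * M')) * ((u + 1) ^ k * Real.exp (34 * (M' * G))) ≤
      1 / 4 := by
    calc ((1 / 3) ^ Js * Real.exp (9 * M')) * ((u + 1) ^ k * Real.exp (34 * (M' * G)))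
        ≤ (Real.exp (-(40 * l * M')) * Real.exp (9 * M')) *
          (Real.exp (2 * l * M') * Real.exp (34 * (M' * (l + C)))) := by
          gcongr
      _ = Real.exp (-(M' * (4 * l - 9 - 34 * C))) := by
          rw [← Real.exp_add, ← Real.exp_add, ← Real.exp_add]
          congr 1
          ring
      _ ≤ Real.exp (-(3:ℝ)) := by
          apply Real.exp_le_exp.2
          apply neg_le_neg
          nlinarith
      _ ≤ 1 / 4 := by
          rw [Real.exp_neg, ← one_div]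
          apply one_div_le_one_div_of_le (by norm_num)
          have := Real.add_one_le_exp (3:ℝ)
          linarith
  calc ((1 / 3) ^ Js * Real.exp (9 * M')) * N * ((u + 1) ^ k * Real.exp (34 * (M' * G)))
      = N * (((1 / 3) ^ Js * Real.exp (9 * M')) * ((u + 1) ^ k *
        Real.exp (34 * (M' * G)))) := by ring
    _ ≤ N * (1 / 4) := mul_le_mul_of_nonneg_left h4 hN.le
    _ = N / 4 := by ring

lemma n_gs (l logh C S : ℝ) (hC0 : 0 ≤ C) (hl : 100 * (C + 1) ≤ l) (hlogh : l / 2 ≤ logh)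
    (hS : S ≤ Real.log (3 * l / logh) + C / logh) : S ≤ 3 := by
  have hlogh0 : 0 < logh := by linarith
  have hl0 : 0 < l := by linarith
  have h3 : Real.log (3 * l / logh) ≤ 2 := by
    have h4 : 3 * l / logh ≤ 6 := by
      rw [div_le_iff₀ hlogh0]
      linarith
    have h5 : (6:ℝ) ≤ Real.exp 2 := by
      have e1 : (2.7:ℝ) < Real.exp 1 := by
        have := Real.exp_one_gt_d9
        linarith
      have e2 : Real.exp 2 = Real.exp 1 * Real.exp 1 := by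
        rw [← Real.exp_add]; norm_num
      rw [e2]
      nlinarith
    rw [Real.log_le_iff_le_exp (by positivity)]
    linarith
  have h4 : C / logh ≤ 1 := by
    rw [div_le_one hlogh0]
    nlinarith
  linarith

lemma n_G (L l logz logH C S : ℝ) (hL : 1000 ≤ L) (hl : l = Real.log L) (hC0 : 0 ≤ C)
    (hlogz : 0 < logz) (hzL : logz ≤ L) (hlogH : logH = 3 * l) (hl1 : 100 ≤ l)
    (hS : S ≤ Real.log (logz / logH) + C / logH) : S ≤ l + C := by
  have h3 : Real.log (logz / logH) ≤ l := by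
    rw [hl]
    apply Real.log_le_log (by rw [hlogH]; positivity)
    rw [hlogH, div_le_iff₀ (by positivity)]
    nlinarith
  have h4 : C / logH ≤ C := by
    rw [hlogH, div_le_iff₀ (by positivity)]
    nlinarith
  linarith

lemma q1 (L C l : ℝ) (hC : 0 ≤ C) (h : 100 * (C + 1) ≤ l) : 100 ≤ l := by nlinarith

lemma q2 (L l ε : ℝ) (hL : 1000 ≤ L) (hl : 100 ≤ l) (h2 : l ^ 2 ≤ L) : l ≤ L ∧ 4 * l ≤ L ∧
    l ^ 2 ≤ L := by
  refine ⟨by nlinarith, by nlinarith, h2⟩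

lemma q3 (L l ε x : ℝ) (hL : 1000 ≤ L) (hl : 100 ≤ l) (hε : 0 < ε) (hε1 : ε < 1) (hx : 0 < x)
    (h : x * l ≤ ε ^ 2 / 1024 * L) : x ≤ ε / 16 * L ∧ x ≤ L / 4 ∧ x ≤ L := by
  have h1 : x ≤ x * l := by nlinarith
  have h2 : ε ^ 2 / 1024 * L ≤ ε / 16 * L := by
    apply mul_le_mul_of_nonneg_right _ (by linarith)
    nlinarith
  have h3 : ε / 16 * L ≤ 1 / 16 * L := by
    apply mul_le_mul_of_nonneg_right _ (by linarith)
    linarith
  refine ⟨by linarith, by linarith, by linarith⟩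

lemma q4 (l X Y : ℝ) (hl : 100 ≤ l) (h1 : 615 * l ^ 2 ≤ X) (h2 : X ≤ Y) : 3 * l ≤ Y := by
  nlinarith

lemma q5 (L l ε W u : ℝ) (hL : 1000 ≤ L) (hl : 100 ≤ l) (hε : 0 < ε) (hε1 : ε < 1)
    (hW0 : 0 < W) (hW1 : W ≤ 1)
    (hl2 : l ^ 2 ≤ L) (hu : u ≤ (1 - ε) / 2 * L * l * W) : u ≤ L * l / 2 ∧ u + 1 ≤ L ^ 2 := by
  have h0 : 0 < L * l := by positivity
  have h1 : (1 - ε) / 2 * L * l * W ≤ (1 - ε) / 2 * L * l * 1 :=
    mul_le_mul_of_nonneg_left hW1 (by
      have : 0 ≤ 1 - ε := by linarith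
      positivity)
  have h2 : (1 - ε) / 2 * L * l * 1 ≤ 1 / 2 * (L * l) := by nlinarith
  refine ⟨by linarith, ?_⟩
  have h3 : u ≤ L * l / 2 := by linarith
  have h4 : l ≤ L := by nlinarith
  nlinarith

lemma q6 (H L : ℝ) (hL : 1000 ≤ L) (hH : H = L ^ 3) : 1 / H ≤ 1 / 1000 := by
  apply one_div_le_one_div_of_le (by norm_num)
  have hH3 : H = L * L * L := by rw [hH]; ring
  rw [hH3]
  nlinarith

lemma q7 (X Y L : ℝ) (hX : 1 ≤ X) (hY : 0 < Y) (h : X * Y = L) : Y ≤ L := by nlinarith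

lemma q8 (l M : ℝ) (hl : 100 ≤ l) (hM : 1 ≤ M) (c : ℝ) (hc : c < 20 * l * M + 1) :
    2 * c + 1 ≤ 41 * l * M := by
  nlinarith

lemma q9 (L : ℝ) (hL : 1000 ≤ L) : 3 / L ^ 2 ≤ 1 := by
  rw [div_le_one (by positivity)]
  nlinarith

lemma q10 (L l : ℝ) (hL : 1000 ≤ L) (hl : 4 * l ≤ L) : l / L ≤ 1 / 4 := by
  rw [div_le_div_iff₀ (by linarith) (by norm_num)]
  nlinarith

end Pool.Agent.W5h31.RC
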