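import Pool.Agent.W5h31.RC.Cw
import Pool.Agent.H256R2.SC.H1
import Pool.Agent.H256R2.SC.H2
import Pool.Agent.H256R2.SC.H3

set_option autoImplicit false
set_option linter.unusedSectionVars false

/-! # Finite expansions in elementary events, and the transfer to the actual set -/

namespace Pool.Agent.W5h31.RC

open Finset Pool.Agent.H256R2.SC

variable {n : ℕ} {κ : Type} [Fintype κ] [DecidableEq κ]

/-- `F` is a combination of elementary events (pattern `D` present, colours of `K` alive) -/
def Rep (p : Fin n → ℝ) (Q : ℝ) (M : ℕ) (C : ℝ) (Φ : Col n κ → ℝ)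
    (F : Finset κ → Col n κ → ℝ) : Prop :=
  ∃ (ι : Type) (_ : Fintype ι) (c : ι → ℝ) (D : ι → Col n κ) (K : ι → Finset κ),
    (∀ B x, F B x = ∑ j, c j * (ind (D j) x * (if K j ⊆ B then 1 else 0))) ∧
    (∀ j, c j ≠ 0 → qq p (D j) ≤ Q ∧ (K j).card ≤ M) ∧
    ∑ j, |c j| ≤ C ∧ (∀ x, ∑ j, |c j| * ind (D j) x ≤ Φ x)

lemma ind_nonneg (D x : Col n κ) : 0 ≤ ind D x := by
  unfold ind
  split_ifs <;> norm_num

theorem Rep_mul {p : Fin n → ℝ} (hp : ∀ i, 1 ≤ p i) {Q Q' : ℝ} {M M' : ℕ} {C C' : ℝ}
    {Φ Φ' : Col n κ → ℝ} {F F' : Finset κ → Col n κ → ℝ}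
    (hF : Rep p Q M C Φ F) (hF' : Rep p Q' M' C' Φ' F') :
    Rep p (Q * Q') (M + M') (C * C') (fun x => Φ x * Φ' x) (fun B x => F B x * F' B x) := by
  classical
  obtain ⟨ι, hι, c, D, K, h1, h2, h3, h4⟩ := hF
  obtain ⟨ι', hι', c', D', K', h1', h2', h3', h4'⟩ := hF'
  have hC0 : 0 ≤ ∑ j, |c' j| := Finset.sum_nonneg fun j _ => abs_nonneg _
  have hC : 0 ≤ C := (Finset.sum_nonneg fun j _ => abs_nonneg _).trans h3
  refine ⟨ι × ι', inferInstance, fun q => if Cmp (D q.1) (D' q.2) then c q.1 * c' q.2 else 0,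
    fun q => un (D q.1) (D' q.2), fun q => K q.1 ∪ K' q.2, ?_, ?_, ?_, ?_⟩
  · intro B x
    simp only
    rw [h1, h1', Finset.sum_mul_sum, Fintype.sum_prod_type]
    refine Finset.sum_congr rfl fun j _ => Finset.sum_congr rfl fun j' _ => ?_
    have e1 : (if K j ∪ K' j' ⊆ B then (1:ℝ) else 0) =
        (if K j ⊆ B then (1:ℝ) else 0) * (if K' j' ⊆ B then (1:ℝ) else 0) := by
      by_cases ha : K j ⊆ B <;> by_cases hb : K' j' ⊆ B <;>
        simp [Finset.union_subset_iff, ha, hb]
    rw [e1]
    have e2 := ind_mul (D j) (D' j') x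
    by_cases hc : Cmp (D j) (D' j')
    · rw [if_pos hc] at e2 ⊢
      rw [← e2]
      ring
    · rw [if_neg hc] at e2 ⊢
      rw [zero_mul]
      calc c j * (ind (D j) x * if K j ⊆ B then 1 else 0) *
            (c' j' * (ind (D' j') x * if K' j' ⊆ B then 1 else 0))
          = (ind (D j) x * ind (D' j') x) * (c j * c' j' * (if K j ⊆ B then 1 else 0) *
            (if K' j' ⊆ B then 1 else 0)) := by ring
        _ = 0 := by rw [e2, zero_mul]
  · intro q hq
    simp only at hq
    change qq p (un (D q.1) (D' q.2)) ≤ Q * Q' ∧ (K q.1 ∪ K' q.2).card ≤ M + M'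
    have hc : Cmp (D q.1) (D' q.2) := by
      by_contra hc
      exact hq (if_neg hc)
    rw [if_pos hc] at hq
    have a1 := h2 q.1 (left_ne_zero_of_mul hq)
    have a2 := h2' q.2 (right_ne_zero_of_mul hq)
    constructor
    · refine (qq_un hp _ _).trans ?_
      have b1 := one_le_qq hp (D q.1)
      have b2 := one_le_qq hp (D' q.2)
      exact mul_le_mul a1.1 a2.1 (by linarith) (by linarith)
    · exact (Finset.card_union_le _ _).trans (add_le_add a1.2 a2.2)
  · calc ∑ q : ι × ι', |if Cmp (D q.1) (D' q.2) then c q.1 * c' q.2 else 0|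
        ≤ ∑ q : ι × ι', |c q.1| * |c' q.2| := by
          refine Finset.sum_le_sum fun q _ => ?_
          split_ifs
          · rw [abs_mul]
          · rw [abs_zero]; positivity
      _ = (∑ j, |c j|) * ∑ j, |c' j| := by
          rw [Fintype.sum_prod_type, Finset.sum_mul_sum]
      _ ≤ C * C' := mul_le_mul h3 h3' hC0 hC
  · intro x
    have n1 : 0 ≤ ∑ j, |c j| * ind (D j) x :=
      Finset.sum_nonneg fun j _ => mul_nonneg (abs_nonneg _) (ind_nonneg _ _)
    have n2 : 0 ≤ ∑ j, |c' j| * ind (D' j) x :=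
      Finset.sum_nonneg fun j _ => mul_nonneg (abs_nonneg _) (ind_nonneg _ _)
    calc ∑ q : ι × ι', |if Cmp (D q.1) (D' q.2) then c q.1 * c' q.2 else 0| *
          ind (un (D q.1) (D' q.2)) x
        ≤ ∑ q : ι × ι', (|c q.1| * ind (D q.1) x) * (|c' q.2| * ind (D' q.2) x) := by
          refine Finset.sum_le_sum fun q _ => ?_
          have e2 := ind_mul (D q.1) (D' q.2) x
          have i1 := ind_nonneg (D q.1) x
          have i2 := ind_nonneg (D' q.2) x
          split_ifs with hc
          · rw [if_pos hc] at e2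
            rw [abs_mul, ← e2]
            apply le_of_eq
            ring
          · rw [abs_zero, zero_mul]
            positivity
      _ = (∑ j, |c j| * ind (D j) x) * ∑ j, |c' j| * ind (D' j) x := by
          rw [Fintype.sum_prod_type, Finset.sum_mul_sum]
      _ ≤ Φ x * Φ' x := mul_le_mul (h4 x) (h4' x) n2 (n1.trans (h4 x))

theorem Rep_mono {p : Fin n → ℝ} {Q Q' : ℝ} {M M' : ℕ} {C C' : ℝ}
    {Φ Φ' : Col n κ → ℝ} {F : Finset κ → Col n κ → ℝ} (hQ : Q ≤ Q') (hM : M ≤ M') (hC : C ≤ C')
    (hΦ : ∀ x, Φ x ≤ Φ' x) (hF : Rep p Q M C Φ F) : Rep p Q' M' C' Φ' F := by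
  obtain ⟨ι, hι, c, D, K, h1, h2, h3, h4⟩ := hF
  exact ⟨ι, hι, c, D, K, h1, fun j hj => ⟨(h2 j hj).1.trans hQ, (h2 j hj).2.trans hM⟩,
    h3.trans hC, fun x => (h4 x).trans (hΦ x)⟩

/-- local majorant -/
noncomputable def ph (g : Fin n → ℝ) (x D : Col n κ) : ℝ :=
  ∏ i, (match D i with
    | none => (1 : ℝ)
    | some k => (if x i = some k then 1 else 0) + g i)

lemma sum_abs_cf_ind (g : ℝ) (hg0 : 0 ≤ g) (a c : Option κ) :
    ∑ b, |cf g a b| * (if b ≠ none → c = b then (1 : ℝ) else 0) =
      (match a with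
        | none => (1 : ℝ)
        | some k => (if c = some k then 1 else 0) + g) := by
  cases a with
  | none =>
    simp [cf, Fintype.sum_option]
  | some k =>
    simp only [cf, Fintype.sum_option]
    have h1 : ∑ x : κ, |(if (some x : Option κ) = some k then (1 : ℝ) else
        if (some x : Option κ) = none then -g else 0)| *
        (if (some x : Option κ) ≠ none → c = some x then (1 : ℝ) else 0) =
        (if c = some k then 1 else 0) := by
      rw [Finset.sum_eq_single k]
      · simp
      · intro b _ hb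
        simp [hb]
      · intro h
        exact absurd (Finset.mem_univ k) h
    rw [h1]
    simp [abs_of_nonneg hg0]
    ring

lemma sum_abs_prod_cf_ind (g : Fin n → ℝ) (hg0 : ∀ i, 0 ≤ g i) (D x : Col n κ) :
    ∑ E : Col n κ, |∏ i, cf (g i) (D i) (E i)| * ind E x = ph g x D := by
  have h1 : ∑ E : Col n κ, |∏ i, cf (g i) (D i) (E i)| * ind E x =
      ∏ i, ∑ b, |cf (g i) (D i) b| * (if b ≠ none → x i = b then (1 : ℝ) else 0) := by
    rw [Finset.prod_univ_sum, Fintype.piFinset_univ]
    apply Finset.sum_congr rfl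
    intro E _
    rw [Finset.abs_prod, ind_eq_prod, Finset.prod_mul_distrib]
  rw [h1]
  unfold ph
  refine Finset.prod_congr rfl fun i _ => ?_
  exact sum_abs_cf_ind (g i) (hg0 i) (D i) (x i)

lemma ph_nonneg (g : Fin n → ℝ) (hg0 : ∀ i, 0 ≤ g i) (x D : Col n κ) : 0 ≤ ph g x D := by
  unfold ph
  refine Finset.prod_nonneg fun i _ => ?_
  have := hg0 i
  cases D i with
  | none => simp
  | some k =>
    simp only
    split_ifs <;> positivity

theorem Rep_V (p g : Fin n → ℝ) (h : Finset (Fin n) → ℝ) (z K : ℝ) (H : Prof p g h z K)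
    (hg1 : ∀ i, g i ≤ 1) (Q : ℝ) (M : ℕ) (hM : ∀ D : Col n κ, yT p h Q D ≠ 0 → (cs D).card ≤ M) :
    Rep p Q M (∑ D : Col n κ with qq p D ≤ Q, 2 ^ (univ.filter (fun i => D i ≠ none)).card)
      (fun x => ∑ D : Col n κ with (cs D).card ≤ M, ph g x D)
      (fun B x => VV g (yB p h Q B) x) := by
  classical
  have hg0 : ∀ i, 0 ≤ g i := fun i => (H.g0 i).le
  have hp : ∀ i, 1 ≤ p i := fun i => (H.p1 i).le
  have hy1 : ∀ D : Col n κ, |yT p h Q D| ≤ 1 := by
    intro D
    unfold yT
    split_ifs
    · exact yy_abs_le H.h0 H.h1 D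
    · simp
  refine ⟨Col n κ × Col n κ, inferInstance,
    fun q => yT p h Q q.1 * ∏ i, cf (g i) (q.1 i) (q.2 i), fun q => q.2, fun q => cs q.1,
    ?_, ?_, ?_, ?_⟩
  · intro B x
    simp only
    unfold VV
    rw [Fintype.sum_prod_type]
    refine Finset.sum_congr rfl fun D _ => ?_
    rw [psi_eq, Finset.mul_sum]
    refine Finset.sum_congr rfl fun E _ => ?_
    unfold yB
    split_ifs <;> ring
  · intro q hq
    change qq p q.2 ≤ Q ∧ (cs q.1).card ≤ M
    have h2 : yT p h Q q.1 ≠ 0 := left_ne_zero_of_mul hq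
    have h3 : ∏ i, cf (g i) (q.1 i) (q.2 i) ≠ 0 := right_ne_zero_of_mul hq
    refine ⟨?_, hM q.1 h2⟩
    have h4 : qq p q.1 ≤ Q := by
      by_contra hc
      exact h2 (by unfold yT; rw [if_neg hc])
    refine le_trans ?_ h4
    unfold qq
    apply Finset.prod_le_prod
    · intro i _
      exact le_trans zero_le_one (nu1_ge_one (p i) (hp i) (q.2 i))
    · intro i _
      have h4 : cf (g i) (q.1 i) (q.2 i) ≠ 0 := by
        intro h5
        exact h3 (Finset.prod_eq_zero (Finset.mem_univ i) h5)
      have h6 : q.2 i = q.1 i ∨ q.2 i = none := by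
        unfold cf at h4
        cases hDi : q.1 i with
        | none =>
          rw [hDi] at h4
          by_cases h7 : q.2 i = none
          · right; exact h7
          · simp [h7] at h4
        | some k =>
          rw [hDi] at h4
          by_cases h7 : q.2 i = some k
          · left; exact h7
          · by_cases h8 : q.2 i = none
            · right; exact h8
            · simp [h7, h8] at h4
      rcases h6 with h6 | h6
      · rw [h6]
      · rw [h6]
        exact nu1_ge_one (p i) (hp i) (q.1 i)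
  · rw [Fintype.sum_prod_type, Finset.sum_filter]
    refine Finset.sum_le_sum fun D _ => ?_
    have h1 := sum_abs_prod_cf g hg0 hg1 D
    have h0 : 0 ≤ ∑ E : Col n κ, |∏ i, cf (g i) (D i) (E i)| :=
      Finset.sum_nonneg (fun E _ => abs_nonneg _)
    have e1 : ∑ E : Col n κ, |yT p h Q D * ∏ i, cf (g i) (D i) (E i)| =
        |yT p h Q D| * ∑ E : Col n κ, |∏ i, cf (g i) (D i) (E i)| := by
      rw [Finset.mul_sum]
      refine Finset.sum_congr rfl fun E _ => ?_
      rw [abs_mul]
    simp only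
    rw [e1]
    split_ifs with hD
    · calc |yT p h Q D| * ∑ E : Col n κ, |∏ i, cf (g i) (D i) (E i)|
            ≤ 1 * ∑ E : Col n κ, |∏ i, cf (g i) (D i) (E i)| :=
              mul_le_mul_of_nonneg_right (hy1 D) h0
          _ ≤ _ := by rw [one_mul]; exact h1
    · have h2 : yT p h Q D = 0 := by unfold yT; rw [if_neg hD]
      rw [h2]
      simp
  · intro x
    simp only
    rw [Fintype.sum_prod_type, Finset.sum_filter]
    refine Finset.sum_le_sum fun D _ => ?_
    have e1 : ∑ E : Col n κ, |yT p h Q D * ∏ i, cf (g i) (D i) (E i)| * ind E x =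
        |yT p h Q D| * ph g x D := by
      rw [← sum_abs_prod_cf_ind g hg0 D x, Finset.mul_sum]
      refine Finset.sum_congr rfl fun E _ => ?_
      rw [abs_mul]
      ring
    simp only
    rw [e1]
    have hph := ph_nonneg g hg0 x D
    split_ifs with hD
    · calc |yT p h Q D| * ph g x D ≤ 1 * ph g x D := mul_le_mul_of_nonneg_right (hy1 D) hph
        _ = _ := one_mul _
    · have h2 : yT p h Q D = 0 := by
        by_contra h2
        exact hD (hM D h2)
      rw [h2]
      simp

/-- the factor detecting the uncovered alive colours -/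
noncomputable def UU (J : ℕ) (B : Finset κ) (x : Col n κ) : ℝ :=
  1 - ∑ k, (if k ∈ B then SS J k x else 0)

lemma qq_onS_le (p : Fin n → ℝ) (hp : ∀ i, 1 ≤ p i) (z : ℝ) (hz : ∀ i, p i ≤ z) (hz1 : 1 ≤ z)
    (J : ℕ) (k : κ) (s : Finset (Fin n)) (hs : s.card ≤ J) : qq p (onS k s) ≤ z ^ J := by
  have h2 : qq p (onS k s) = ∏ i ∈ s, p i := by
    unfold qq onS
    rw [← Finset.prod_filter_mul_prod_filter_not univ (fun i => i ∈ s)]
    have h3 : ∏ i with i ∉ s, nu1 (p i) (if i ∈ s then some k else none) = 1 := by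
      apply Finset.prod_eq_one
      intro i hi
      simp only [mem_filter, mem_univ, true_and] at hi
      simp [hi, nu1]
    rw [h3, mul_one, Finset.filter_mem_eq_inter, Finset.univ_inter]
    apply Finset.prod_congr rfl
    intro i hi
    simp [hi, nu1]
  rw [h2]
  calc ∏ i ∈ s, p i ≤ ∏ i ∈ s, z := by
        apply Finset.prod_le_prod
        · intro i _
          exact le_trans zero_le_one (hp i)
        · intro i _
          exact hz i
    _ = z ^ s.card := by rw [Finset.prod_const]
    _ ≤ z ^ J := pow_le_pow_right₀ hz1 hs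

theorem Rep_UU (p : Fin n → ℝ) (hp : ∀ i, 1 ≤ p i) (z : ℝ) (hz : ∀ i, p i ≤ z) (hz1 : 1 ≤ z)
    (J : ℕ) :
    Rep p (z ^ J) 1 (1 + Fintype.card κ * (n + 1) ^ J)
      (fun x : Col n κ => 1 + ∑ k, ∏ i, (if x i = some k then (2 : ℝ) else 1))
      (fun B x => UU J B x) := by
  classical
  refine ⟨Option (κ × Finset (Fin n)), inferInstance,
    fun q => match q with
      | none => 1
      | some (_, s) => if s.card ≤ J then -(-1 : ℝ) ^ s.card else 0,
    fun q => match q with
      | none => fun _ => none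
      | some (k, s) => onS k s,
    fun q => match q with
      | none => ∅
      | some (k, _) => {k}, ?_, ?_, ?_, ?_⟩
  · intro B x
    rw [Fintype.sum_option, Fintype.sum_prod_type]
    unfold UU
    have e0 : ind (fun _ => none : Col n κ) x = 1 := by simp [ind]
    simp only [e0, Finset.empty_subset, if_true, mul_one]
    rw [sub_eq_add_neg, ← Finset.sum_neg_distrib]
    congr 1
    refine Finset.sum_congr rfl fun k _ => ?_
    simp only [Finset.singleton_subset_iff]
    unfold SS
    split_ifs with hk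
    · rw [Finset.sum_filter, ← Finset.sum_neg_distrib]
      refine Finset.sum_congr rfl fun s _ => ?_
      rw [ind_onS]
      simp only [mul_one]
      split_ifs <;> ring
    · simp
  · intro q hq
    match q with
    | none =>
      simp only [qq_none, Finset.card_empty]
      exact ⟨one_le_pow₀ hz1, by norm_num⟩
    | some (k, s) =>
      simp only at hq ⊢
      have hs : s.card ≤ J := by
        by_contra hs
        exact hq (if_neg hs)
      exact ⟨qq_onS_le p hp z hz hz1 J k s hs, by simp⟩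
  · rw [Fintype.sum_option, Fintype.sum_prod_type]
    simp only [abs_one]
    have e1 : ∀ k : κ, ∑ s : Finset (Fin n), |if s.card ≤ J then -(-1 : ℝ) ^ s.card else 0| ≤
        ((n : ℝ) + 1) ^ J := by
      intro k
      have e2 : ∀ s : Finset (Fin n), |if s.card ≤ J then -(-1 : ℝ) ^ s.card else 0| =
          if s.card ≤ J then (1 : ℝ) else 0 := by
        intro s
        split_ifs <;> simp [abs_neg, abs_pow]
      simp_rw [e2]
      rw [← Finset.sum_filter, Finset.sum_const, nsmul_eq_mul, mul_one]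
      have h := card_small n J
      have h' : (((univ.filter (fun s : Finset (Fin n) => s.card ≤ J)).card : ℕ) : ℝ) ≤
          (((n + 1) ^ J : ℕ) : ℝ) := by exact_mod_cast h
      push_cast at h'
      exact h'
    have e3 := Finset.sum_le_sum fun k (_ : k ∈ (univ : Finset κ)) => e1 k
    rw [Finset.sum_const (b := ((n : ℝ) + 1) ^ J), Finset.card_univ, nsmul_eq_mul] at e3
    linarith
  · intro x
    rw [Fintype.sum_option, Fintype.sum_prod_type]
    have e0 : ind (fun _ => none : Col n κ) x = 1 := by simp [ind]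
    simp only [abs_one, e0, mul_one]
    have e1 : ∀ k : κ, ∑ s : Finset (Fin n), |if s.card ≤ J then -(-1 : ℝ) ^ s.card else 0| *
        ind (onS k s) x ≤ ∏ i, (if x i = some k then (2 : ℝ) else 1) := by
      intro k
      have e2 : ∏ i, (if x i = some k then (2 : ℝ) else 1) =
          ∑ s : Finset (Fin n), ∏ i ∈ s, (if x i = some k then (1 : ℝ) else 0) := by
        have e3 : ∀ i, (if x i = some k then (2 : ℝ) else 1) =
            1 + (if x i = some k then (1 : ℝ) else 0) := by
          intro i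
          split_ifs <;> norm_num
        simp_rw [e3]
        rw [Finset.prod_one_add]
        simp
      rw [e2]
      refine Finset.sum_le_sum fun s _ => ?_
      have e4 : ∏ i ∈ s, (if x i = some k then (1 : ℝ) else 0) = ind (onS k s) x := by
        rw [ind_onS]
        split_ifs with hs
        · exact Finset.prod_eq_one fun i hi => by rw [if_pos (hs i hi)]
        · push Not at hs
          obtain ⟨i, hi, hx⟩ := hs
          exact Finset.prod_eq_zero hi (by rw [if_neg hx])
      rw [e4]
      have i1 := ind_nonneg (onS k s) x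
      split_ifs
      · rw [abs_neg, abs_pow, abs_neg, abs_one, one_pow, one_mul]
      · rw [abs_zero, zero_mul]; exact i1
    exact add_le_add le_rfl (Finset.sum_le_sum fun k _ => e1 k)

/-- transfer to the actual set -/
theorem transfer_w {α : Type} [DecidableEq α] (𝒜 : Finset α) (col : α → Col n κ)
    (alive : α → Finset κ) {p g : Fin n → ℝ} (hwt : ∀ i (c : Option κ), 0 ≤ wt (g i) c)
    {Ω : Type} [Fintype Ω] {pr : Ω → ℝ} {B : Ω → Finset κ} {w : Finset κ → ℝ} (A : Al pr B w)
    (N ρ Err Q C C₂ : ℝ) (M : ℕ) (hN : 0 ≤ N) (hρ : 0 ≤ ρ) (hErr : 0 ≤ Err)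
    (hcnt : ∀ (D : Col n κ) (K : Finset κ), qq p D ≤ Q → K.card ≤ M →
      |((𝒜.filter (fun a => (∀ i, D i ≠ none → col a i = D i) ∧ K ⊆ alive a)).card : ℝ) -
        N * (nu g D * w K)| ≤ ρ * (N * nu g D) + Err)
    (Φ : Col n κ → ℝ) (hΦ : EE g Φ ≤ C₂)
    (F : Finset κ → Col n κ → ℝ) (hF : Rep p Q M C Φ F) :
    |∑ a ∈ 𝒜, F (alive a) (col a) - N * ∑ ω, pr ω * EE g (F (B ω))| ≤
      ρ * N * C₂ + Err * C := by
  obtain ⟨ι, hι, c, D, K, h1, h2, h3, h4⟩ := hF
  have e1 : ∑ a ∈ 𝒜, F (alive a) (col a) = ∑ j, c j *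
      ((𝒜.filter (fun a => (∀ i, (D j) i ≠ none → col a i = (D j) i) ∧ K j ⊆ alive a)).card
        : ℝ) := by
    simp_rw [h1]
    rw [Finset.sum_comm]
    refine Finset.sum_congr rfl fun j _ => ?_
    rw [← Finset.mul_sum]
    congr 1
    have e2 : ∀ a, ind (D j) (col a) * (if K j ⊆ alive a then (1:ℝ) else 0) =
        if (∀ i, (D j) i ≠ none → col a i = (D j) i) ∧ K j ⊆ alive a then (1:ℝ) else 0 := by
      intro a
      unfold ind
      by_cases ha : ∀ i, (D j) i ≠ none → col a i = (D j) i
      · by_cases hb : K j ⊆ alive a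
        · rw [if_pos ha, if_pos hb, if_pos ⟨ha, hb⟩, mul_one]
        · rw [if_neg hb, mul_zero, if_neg fun h => hb h.2]
      · rw [if_neg ha, zero_mul, if_neg fun h => ha h.1]
    simp_rw [e2]
    rw [Finset.sum_ite, Finset.sum_const_zero, add_zero, Finset.sum_const, nsmul_eq_mul, mul_one]
  have e2 : ∑ ω, pr ω * EE g (F (B ω)) = ∑ j, c j * (nu g (D j) * w (K j)) := by
    have e3 : ∀ ω, EE g (F (B ω)) = ∑ j, c j * (nu g (D j) * if K j ⊆ B ω then 1 else 0) := by
      intro ω
      have e4 : F (B ω) = fun x => ∑ j, c j * (ind (D j) x * (if K j ⊆ B ω then 1 else 0)) := by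
        funext x
        exact h1 (B ω) x
      rw [e4, EE_sum]
      refine Finset.sum_congr rfl fun j _ => ?_
      rw [EE_smul]
      congr 1
      have e5 : (fun x => ind (D j) x * (if K j ⊆ B ω then (1:ℝ) else 0)) =
          fun x => (if K j ⊆ B ω then (1:ℝ) else 0) * ind (D j) x := by
        funext x; ring
      rw [e5, EE_smul, EE_ind]
      ring
    simp_rw [e3, Finset.mul_sum]
    rw [Finset.sum_comm]
    refine Finset.sum_congr rfl fun j _ => ?_
    rw [← A.mean, Finset.mul_sum, Finset.mul_sum]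
    refine Finset.sum_congr rfl fun ω _ => ?_
    ring
  have hC : 0 ≤ ∑ j, |c j| := Finset.sum_nonneg fun j _ => abs_nonneg _
  have e6 : ∑ j, |c j| * nu g (D j) ≤ C₂ := by
    refine le_trans ?_ hΦ
    have e7 : ∑ j, |c j| * nu g (D j) = EE g (fun x => ∑ j, |c j| * ind (D j) x) := by
      rw [EE_sum]
      refine Finset.sum_congr rfl fun j _ => ?_
      rw [EE_smul, EE_ind]
    rw [e7]
    exact EE_mono hwt h4
  rw [e1, e2, Finset.mul_sum, ← Finset.sum_sub_distrib]
  calc |∑ j, (c j * ((𝒜.filter (fun a => (∀ i, (D j) i ≠ none → col a i = (D j) i) ∧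
        K j ⊆ alive a)).card : ℝ) - N * (c j * (nu g (D j) * w (K j))))|
      ≤ ∑ j, |c j * ((𝒜.filter (fun a => (∀ i, (D j) i ≠ none → col a i = (D j) i) ∧
        K j ⊆ alive a)).card : ℝ) - N * (c j * (nu g (D j) * w (K j)))| :=
        Finset.abs_sum_le_sum_abs _ _
    _ ≤ ∑ j, |c j| * (ρ * (N * nu g (D j)) + Err) := by
        refine Finset.sum_le_sum fun j _ => ?_
        have h5 : c j * ((𝒜.filter (fun a => (∀ i, (D j) i ≠ none → col a i = (D j) i) ∧
            K j ⊆ alive a)).card : ℝ) - N * (c j * (nu g (D j) * w (K j))) =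
            c j * (((𝒜.filter (fun a => (∀ i, (D j) i ≠ none → col a i = (D j) i) ∧
            K j ⊆ alive a)).card : ℝ) - N * (nu g (D j) * w (K j))) := by ring
        rw [h5, abs_mul]
        by_cases hD : c j = 0
        · simp [hD]
        · exact mul_le_mul_of_nonneg_left (hcnt _ _ (h2 j hD).1 (h2 j hD).2) (abs_nonneg _)
    _ = ρ * N * (∑ j, |c j| * nu g (D j)) + Err * ∑ j, |c j| := by
        rw [Finset.mul_sum, Finset.mul_sum, ← Finset.sum_add_distrib]
        refine Finset.sum_congr rfl fun j _ => ?_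
        ring
    _ ≤ ρ * N * C₂ + Err * C := by
        apply add_le_add
        · exact mul_le_mul_of_nonneg_left e6 (mul_nonneg hρ hN)
        · exact mul_le_mul_of_nonneg_left h3 hErr

end Pool.Agent.W5h31.RC
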