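import Pool.Agent.W5h31.RC.Pf
import Pool.Agent.H256R2.SC.L
import Pool.Agent.H256R2.SC.V1
import Pool.Agent.Helper923.HMertens

set_option autoImplicit false
set_option linter.unusedSectionVars false

/-! # Rough numbers: input for the profile -/

namespace Pool.Agent.W5h31.RC

open Finset Pool.Agent.H256R2.SC

open scoped Classical

/-- primes in `(a, b]` -/
noncomputable def PR (a b : ℝ) : Finset ℕ :=
  (Finset.Icc 1 ⌊b⌋₊).filter (fun p => p.Prime ∧ a < (p : ℝ))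

/-- product over the primes up to `a` -/
noncomputable def WW (a : ℝ) : ℝ := ∏ p ∈ (Finset.Icc 1 ⌊a⌋₊).filter Nat.Prime, (1 - 1 / (p : ℝ))

lemma mem_PR {a b : ℝ} {p : ℕ} (hb : 0 ≤ b) : p ∈ PR a b ↔ p.Prime ∧ a < (p : ℝ) ∧ (p : ℝ) ≤ b := by
  unfold PR
  rw [Finset.mem_filter, Finset.mem_Icc, Nat.le_floor_iff hb]
  constructor
  · rintro ⟨⟨_, h2⟩, h3, h4⟩
    exact ⟨h3, h4, h2⟩
  · rintro ⟨h1, h2, h3⟩
    exact ⟨⟨h1.one_lt.le, h3⟩, h1, h2⟩

lemma WW_pos (a : ℝ) : 0 < WW a := by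
  unfold WW
  refine Finset.prod_pos fun p hp => ?_
  have h1 := (Finset.mem_filter.1 hp).2.one_lt
  have h2 : (1:ℝ) < p := by exact_mod_cast h1
  have h3 : 1 / (p : ℝ) < 1 := by rw [div_lt_one (by linarith)]; exact h2
  linarith

lemma WW_le_one (a : ℝ) : WW a ≤ 1 := by
  unfold WW
  refine Finset.prod_le_one (fun p hp => ?_) fun p _ => ?_
  · have h1 := (Finset.mem_filter.1 hp).2.one_lt
    have h2 : (1:ℝ) < p := by exact_mod_cast h1
    have h3 : 1 / (p : ℝ) < 1 := by rw [div_lt_one (by linarith)]; exact h2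
    linarith
  · have : (0:ℝ) ≤ 1 / (p : ℝ) := by positivity
    linarith

/-- real version of the Mertens estimate -/
theorem mertens_real : ∃ C : ℝ, 0 ≤ C ∧ ∀ a b : ℝ, 2 ≤ a → a ≤ b →
    |∑ p ∈ PR a b, (1 : ℝ) / p - Real.log (Real.log b / Real.log a)| ≤ C / Real.log a := by
  obtain ⟨C, hC0, hC⟩ := Pool.Agent.Helper923.HMertens.mertens_ratio
  refine ⟨2 * C + 2, by positivity, ?_⟩
  intro a b ha hab
  have hb : 2 ≤ b := ha.trans hab
  set A := ⌊a⌋₊ with hA
  set B := ⌊b⌋₊ with hB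
  have hA2 : 2 ≤ A := Nat.le_floor (by exact_mod_cast ha)
  have hAB : A ≤ B := Nat.floor_le_floor hab
  have hB2 : 2 ≤ B := hA2.trans hAB
  have hA2' : (2:ℝ) ≤ A := by exact_mod_cast hA2
  have hB2' : (2:ℝ) ≤ B := by exact_mod_cast hB2
  have hAa : (A:ℝ) ≤ a := Nat.floor_le (by linarith)
  have hBb : (B:ℝ) ≤ b := Nat.floor_le (by linarith)
  have haA : a < A + 1 := Nat.lt_floor_add_one a
  have hbB : b < B + 1 := Nat.lt_floor_add_one b
  have hset : PR a b = (Finset.Ioc A B).filter Nat.Prime := by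
    ext p
    rw [mem_PR (by linarith), Finset.mem_filter, Finset.mem_Ioc, hA, hB,
      Nat.floor_lt (by linarith), Nat.le_floor_iff (by linarith)]
    tauto
  have h1 := hC A B hA2 hAB
  rw [← hset] at h1
  have hlA : 0 < Real.log A := Real.log_pos (by linarith)
  have hlB : 0 < Real.log B := Real.log_pos (by linarith)
  have hla : 0 < Real.log a := Real.log_pos (by linarith)
  have hlb : 0 < Real.log b := Real.log_pos (by linarith)
  have hlAa : Real.log A ≤ Real.log a := Real.log_le_log (by linarith) hAa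
  have hlBb : Real.log B ≤ Real.log b := Real.log_le_log (by linarith) hBb
  have hlAB : Real.log A ≤ Real.log B := Real.log_le_log (by linarith) (by exact_mod_cast hAB)
  have h2A : Real.log a ≤ 2 * Real.log A := by
    have e1 : Real.log a ≤ Real.log ((A:ℝ) * A) :=
      Real.log_le_log (by linarith) (by nlinarith)
    rw [Real.log_mul (by positivity) (by positivity)] at e1
    linarith
  -- difference of the iterated logarithms
  have key : ∀ (x : ℝ) (X : ℕ), 2 ≤ (X:ℝ) → (X:ℝ) ≤ x → x < X + 1 → Real.log A ≤ Real.log X →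
      0 ≤ Real.log (Real.log x) - Real.log (Real.log X) ∧
      Real.log (Real.log x) - Real.log (Real.log X) ≤ 1 / (2 * Real.log A) := by
    intro x X hX hXx hxX hAX
    have hlX : 0 < Real.log X := Real.log_pos (by linarith)
    have hlx : 0 < Real.log x := Real.log_pos (by linarith)
    have hlXx : Real.log X ≤ Real.log x := Real.log_le_log (by linarith) hXx
    refine ⟨by linarith [Real.log_le_log hlX hlXx], ?_⟩
    have e1 : Real.log (Real.log x) - Real.log (Real.log X) ≤ Real.log x / Real.log X - 1 := by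
      rw [← Real.log_div hlx.ne' hlX.ne']
      exact Real.log_le_sub_one_of_pos (by positivity)
    have e2 : Real.log x - Real.log X ≤ 1 / X := by
      have hX0 : (0:ℝ) < X := by linarith
      have hx0 : (0:ℝ) < x := by linarith
      rw [← Real.log_div (by linarith) (by linarith)]
      refine (Real.log_le_sub_one_of_pos (div_pos hx0 hX0)).trans ?_
      rw [div_sub_one (by linarith)]
      apply div_le_div_of_nonneg_right (by linarith) (by linarith)
    have e3 : (1:ℝ) / X ≤ 1 / 2 := one_div_le_one_div_of_le (by norm_num) hX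
    have e4 : Real.log x / Real.log X - 1 = (Real.log x - Real.log X) / Real.log X := by
      field_simp
    rw [e4] at e1
    refine e1.trans ?_
    calc (Real.log x - Real.log X) / Real.log X ≤ (1 / 2) / Real.log X :=
          div_le_div_of_nonneg_right (e2.trans e3) hlX.le
      _ ≤ (1 / 2) / Real.log A := div_le_div_of_nonneg_left (by norm_num) hlA hAX
      _ = 1 / (2 * Real.log A) := by rw [div_div]
  obtain ⟨ka1, ka2⟩ := key a A hA2' hAa haA le_rfl
  obtain ⟨kb1, kb2⟩ := key b B hB2' hBb hbB hlAB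
  have e5 : Real.log (Real.log b / Real.log a) = Real.log (Real.log b) - Real.log (Real.log a) :=
    Real.log_div hlb.ne' hla.ne'
  have e6 : Real.log (Real.log B / Real.log A) = Real.log (Real.log B) - Real.log (Real.log A) :=
    Real.log_div hlB.ne' hlA.ne'
  rw [e6] at h1
  rw [e5]
  have e7 : C / Real.log A ≤ 2 * C / Real.log a := by
    rw [div_le_div_iff₀ hlA hla]
    nlinarith
  have e8 : 1 / (2 * Real.log A) ≤ 1 / Real.log a := by
    apply one_div_le_one_div_of_le hla h2A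
  have e9 : (2 * C + 2) / Real.log a = 2 * C / Real.log a + 1 / Real.log a + 1 / Real.log a := by
    ring
  rw [e9]
  rw [abs_le] at h1 ⊢
  have hpos : 0 < 1 / Real.log a := by positivity
  constructor <;> linarith [h1.1, h1.2]

/-- decomposition of an integer -/
theorem decomp' (P : Finset ℕ) (m : ℕ) (hm : 1 ≤ m) : ∃ a l : ℕ, ∃ s : Finset ℕ,
    a ∈ Nat.factoredNumbers P ∧ 1 ≤ a ∧ 1 ≤ l ∧ (∀ p ∈ s, p.Prime ∧ p ∉ P) ∧
    (∀ q : ℕ, q.Prime → q ∣ l → q ∉ P) ∧
    m = a * l ^ 2 * ∏ p ∈ s, p := by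
  set a := ∏ p ∈ m.primeFactors with p ∈ P, p ^ (m.factorization p) with ha
  set b := ∏ p ∈ m.primeFactors with ¬ (p ∈ P), p ^ (m.factorization p) with hb
  have hab : a * b = m := by
    rw [ha, hb, Finset.prod_filter_mul_prod_filter_not]
    exact Nat.prod_factorization_pow_eq_self (by omega)
  have ha0 : a ≠ 0 := by rintro h; rw [h, zero_mul] at hab; omega
  have hb0 : b ≠ 0 := by rintro h; rw [h, mul_zero] at hab; omega
  have haP : a ∈ Nat.factoredNumbers P := by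
    rw [Nat.mem_factoredNumbers']
    intro q hq hqa
    rw [ha, Prime.dvd_finsetProd_iff hq.prime] at hqa
    obtain ⟨p, hp, hqp⟩ := hqa
    rw [Finset.mem_filter, Nat.mem_primeFactors] at hp
    have := (Nat.prime_dvd_prime_iff_eq hq hp.1.1).1 (hq.dvd_of_dvd_pow hqp)
    rw [this]; exact hp.2
  have hbP : ∀ q : ℕ, q.Prime → q ∣ b → q ∉ P := by
    intro q hq hqb
    rw [hb, Prime.dvd_finsetProd_iff hq.prime] at hqb
    obtain ⟨p, hp, hqp⟩ := hqb
    rw [Finset.mem_filter, Nat.mem_primeFactors] at hp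
    have := (Nat.prime_dvd_prime_iff_eq hq hp.1.1).1 (hq.dvd_of_dvd_pow hqp)
    rw [this]; exact hp.2
  obtain ⟨s', l, hl, hs'⟩ := Nat.sq_mul_squarefree b
  have hl0 : l ≠ 0 := by rintro h; rw [h] at hl; simp at hl; exact hb0 hl.symm
  refine ⟨a, l, s'.primeFactors, haP, Nat.pos_of_ne_zero ha0, Nat.pos_of_ne_zero hl0, ?_, ?_, ?_⟩
  · intro p hp
    rw [Nat.mem_primeFactors] at hp
    exact ⟨hp.1, hbP p hp.1 (hp.2.1.trans ⟨l ^ 2, by rw [← hl]; ring⟩)⟩
  · intro q hq hql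
    refine hbP q hq (hql.trans ⟨l * s', ?_⟩)
    rw [← hl]; ring
  · rw [Nat.prod_primeFactors_of_squarefree hs', mul_assoc, hl, hab]

theorem sum_sq_rough (H : ℝ) (hH : 1 ≤ H) (N : ℕ) :
    ∑ l ∈ (Finset.Icc 1 N).filter (fun l : ℕ => l = 1 ∨ H < (l : ℝ)), ((l : ℝ) ^ 2)⁻¹ ≤
      1 + 2 / H := by
  set k := ⌊H⌋₊ with hk
  have hk1 : 1 ≤ k := Nat.le_floor (by exact_mod_cast hH)
  have hk1' : (1:ℝ) ≤ k := by exact_mod_cast hk1
  have hHk : H < k + 1 := Nat.lt_floor_add_one H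
  have htel : ∀ N : ℕ, ∑ l ∈ Finset.Ioc k N, ((l : ℝ) ^ 2)⁻¹ ≤ 1 / k := by
    have h : ∀ N : ℕ, k ≤ N → ∑ l ∈ Finset.Ioc k N, ((l : ℝ) ^ 2)⁻¹ ≤ 1 / k - 1 / N := by
      intro N hN
      induction N, hN using Nat.le_induction with
      | base => simp
      | succ n hn ih =>
        rw [Finset.sum_Ioc_succ_top (by omega)]
        have hn' : (1 : ℝ) ≤ n := by
          have : 1 ≤ n := hk1.trans hn
          exact_mod_cast this
        have : (((n + 1 : ℕ) : ℝ) ^ 2)⁻¹ ≤ 1 / n - 1 / ((n + 1 : ℕ) : ℝ) := by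
          push_cast
          rw [div_sub_div _ _ (by positivity) (by positivity), inv_eq_one_div,
            div_le_div_iff₀ (by positivity) (by positivity)]
          nlinarith
        linarith
    intro N
    rcases le_or_gt k N with h1 | h1
    · have h2 := h N h1
      have : (0 : ℝ) ≤ 1 / N := by positivity
      linarith
    · rw [Finset.Ioc_eq_empty (by omega), Finset.sum_empty]
      positivity
  have hsub : (Finset.Icc 1 N).filter (fun l : ℕ => l = 1 ∨ H < (l : ℝ)) ⊆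
      insert 1 (Finset.Ioc k N) := by
    intro l hl
    rw [Finset.mem_filter, Finset.mem_Icc] at hl
    rw [Finset.mem_insert, Finset.mem_Ioc]
    rcases hl.2 with h | h
    · exact Or.inl h
    · right
      exact ⟨(Nat.floor_lt (by linarith)).2 h, hl.1.2⟩
  have h1 : ∑ l ∈ (Finset.Icc 1 N).filter (fun l : ℕ => l = 1 ∨ H < (l : ℝ)), ((l : ℝ) ^ 2)⁻¹ ≤
      ∑ l ∈ insert 1 (Finset.Ioc k N), ((l : ℝ) ^ 2)⁻¹ :=
    Finset.sum_le_sum_of_subset_of_nonneg hsub fun l _ _ => by positivity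
  rw [Finset.sum_insert (by rw [Finset.mem_Ioc]; omega)] at h1
  have h2 := htel N
  have h3 : (1:ℝ) / k ≤ 2 / H := by
    rw [div_le_div_iff₀ (by linarith) (by linarith)]
    linarith
  simp only [Nat.cast_one, one_pow, inv_one] at h1
  linarith

/-- lower bound for the sums over rough squarefree numbers -/
theorem rough_main (H z x : ℝ) (hH : 1 ≤ H) (hxz : x ≤ z) (hx : 1 ≤ x) :
    WW H / (1 + 2 / H) * Real.log x ≤
      ∑ s ∈ ((PR H z).powerset.filter (fun s : Finset ℕ => ∏ p ∈ s, (p : ℝ) ≤ x)),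
        ∏ p ∈ s, 1 / (p : ℝ) := by
  set P : Finset ℕ := Finset.Icc 1 ⌊H⌋₊ with hP
  have hPm : ∀ p : ℕ, 1 ≤ p → p ∉ P → H < (p : ℝ) := by
    intro p hp1 hp
    rw [hP, Finset.mem_Icc] at hp
    push Not at hp
    exact (Nat.floor_lt (by linarith)).1 (hp hp1)
  have hdec : ∀ m : ℕ, ∃ t : ℕ × ℕ × Finset ℕ, 1 ≤ m → (t.1 ∈ Nat.factoredNumbers P ∧ 1 ≤ t.1 ∧
      1 ≤ t.2.1 ∧ (∀ p ∈ t.2.2, p.Prime ∧ p ∉ P) ∧ (∀ q : ℕ, q.Prime → q ∣ t.2.1 → q ∉ P) ∧
      m = t.1 * t.2.1 ^ 2 * ∏ p ∈ t.2.2, p) := by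
    intro m
    by_cases hm : 1 ≤ m
    · obtain ⟨a, l, s, h⟩ := decomp' P m hm
      exact ⟨(a, l, s), fun _ => h⟩
    · exact ⟨(0, 0, ∅), fun h => absurd h hm⟩
  choose φ hφ using hdec
  set N := ⌊x⌋₊ with hN
  set A : Finset ℕ := (Finset.Icc 1 N).filter (fun a => a ∈ Nat.factoredNumbers P) with hA
  set LS : Finset ℕ := (Finset.Icc 1 N).filter (fun l : ℕ => l = 1 ∨ H < (l : ℝ)) with hLS
  set W : Finset (Finset ℕ) := (PR H z).powerset.filter
    (fun s : Finset ℕ => ∏ p ∈ s, (p : ℝ) ≤ x) with hW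
  set F : ℕ × ℕ × Finset ℕ → ℝ := fun t => (t.1 : ℝ)⁻¹ * ((((t.2.1 : ℕ) : ℝ) ^ 2)⁻¹ *
    ∏ p ∈ t.2.2, 1 / (p : ℝ)) with hF
  have hprod : ∀ m ∈ Finset.Icc 1 N, ∏ p ∈ (φ m).2.2, p ∣ m := by
    intro m hm
    rw [Finset.mem_Icc] at hm
    obtain ⟨_, _, _, _, _, h5⟩ := hφ m hm.1
    exact ⟨(φ m).1 * (φ m).2.1 ^ 2, by conv_lhs => rw [h5]
                                       ring⟩
  have h1 : ∑ m ∈ Finset.Icc 1 N, (m : ℝ)⁻¹ = ∑ m ∈ Finset.Icc 1 N, F (φ m) := by
    refine Finset.sum_congr rfl fun m hm => ?_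
    rw [Finset.mem_Icc] at hm
    obtain ⟨_, _, _, _, _, h5⟩ := hφ m hm.1
    conv_lhs => rw [h5]
    rw [hF]
    push_cast
    simp only [one_div, Finset.prod_inv_distrib]
    rw [mul_inv, mul_inv, mul_assoc]
  have hinj : ∀ m ∈ Finset.Icc 1 N, ∀ m' ∈ Finset.Icc 1 N, φ m = φ m' → m = m' := by
    intro m hm m' hm' h
    rw [Finset.mem_Icc] at hm hm'
    rw [(hφ m hm.1).2.2.2.2.2, (hφ m' hm'.1).2.2.2.2.2, h]
  have h2 : ∑ m ∈ Finset.Icc 1 N, F (φ m) = ∑ t ∈ (Finset.Icc 1 N).image φ, F t :=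
    (Finset.sum_image (fun m hm m' hm' h => hinj m hm m' hm' h)).symm
  have hsub : (Finset.Icc 1 N).image φ ⊆ A ×ˢ (LS ×ˢ W) := by
    intro t ht
    rw [Finset.mem_image] at ht
    obtain ⟨m, hm, rfl⟩ := ht
    have hmm := hm
    rw [Finset.mem_Icc] at hm
    obtain ⟨g1, g2, g3, g4, g6, g5⟩ := hφ m hm.1
    have hmx : (m : ℝ) ≤ x := (Nat.le_floor_iff (by linarith)).1 hm.2
    have d1 : (φ m).1 ∣ m := ⟨(φ m).2.1 ^ 2 * ∏ p ∈ (φ m).2.2, p, by conv_lhs => rw [g5]
                                                                     ring⟩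
    have d2 : (φ m).2.1 ∣ m := ⟨(φ m).1 * (φ m).2.1 * ∏ p ∈ (φ m).2.2, p, by conv_lhs => rw [g5]
                                                                             ring⟩
    rw [Finset.mem_product, Finset.mem_product, hA, Finset.mem_filter, Finset.mem_Icc,
      hLS, Finset.mem_filter, Finset.mem_Icc, hW, Finset.mem_filter, Finset.mem_powerset]
    refine ⟨⟨⟨g2, (Nat.le_of_dvd hm.1 d1).trans hm.2⟩, g1⟩,
      ⟨⟨g3, (Nat.le_of_dvd hm.1 d2).trans hm.2⟩, ?_⟩, ?_, ?_⟩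
    · by_cases hl1 : (φ m).2.1 = 1
      · exact Or.inl hl1
      · right
        obtain ⟨q, hq, hql⟩ := Nat.exists_prime_and_dvd hl1
        have q1 := hPm q hq.one_lt.le (g6 q hq hql)
        have q2 : q ≤ (φ m).2.1 := Nat.le_of_dvd g3 hql
        have q3 : (q:ℝ) ≤ ((φ m).2.1 : ℝ) := by exact_mod_cast q2
        linarith
    · intro p hp
      obtain ⟨hpp, hpP⟩ := g4 p hp
      have q1 := hPm p hpp.one_lt.le hpP
      have hpm : p ≤ m := Nat.le_of_dvd hm.1 ((Finset.dvd_prod_of_mem _ hp).trans (hprod m hmm))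
      rw [mem_PR (by linarith)]
      have : (p : ℝ) ≤ m := by exact_mod_cast hpm
      exact ⟨hpp, q1, by linarith⟩
    · have : ((∏ p ∈ (φ m).2.2, p : ℕ) : ℝ) ≤ m := by
        exact_mod_cast Nat.le_of_dvd hm.1 (hprod m hmm)
      push_cast at this
      linarith
  have h3 : ∑ t ∈ (Finset.Icc 1 N).image φ, F t ≤ ∑ t ∈ A ×ˢ (LS ×ˢ W), F t := by
    refine Finset.sum_le_sum_of_subset_of_nonneg hsub fun t _ _ => ?_
    rw [hF]; positivity
  have h4 : ∑ t ∈ A ×ˢ (LS ×ˢ W), F t =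
      (∑ a ∈ A, (a : ℝ)⁻¹) * ((∑ l ∈ LS, ((l : ℝ) ^ 2)⁻¹) *
        ∑ s ∈ W, ∏ p ∈ s, 1 / (p : ℝ)) := by
    rw [Finset.sum_product, Finset.sum_mul]
    refine Finset.sum_congr rfl fun a _ => ?_
    rw [Finset.sum_product, Finset.sum_mul, Finset.mul_sum]
    refine Finset.sum_congr rfl fun l _ => ?_
    rw [Finset.mul_sum, Finset.mul_sum]
  have h6 : 0 ≤ ∑ s ∈ W, ∏ p ∈ s, 1 / (p : ℝ) := Finset.sum_nonneg fun s _ => by positivity
  have h7 : ∑ a ∈ A, (a : ℝ)⁻¹ ≤ ∏ p ∈ P with p.Prime, (1 - (p : ℝ)⁻¹)⁻¹ :=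
    Pool.Agent.H256R2.SC.LL.euler_le P A fun a ha => (Finset.mem_filter.1 ha).2
  have h8 : 0 ≤ ∑ a ∈ A, (a : ℝ)⁻¹ := Finset.sum_nonneg fun s _ => by positivity
  have h9 : ∏ p ∈ P with p.Prime, (1 - (p : ℝ)⁻¹)⁻¹ = (WW H)⁻¹ := by
    unfold WW
    rw [hP, ← Finset.prod_inv_distrib]
    refine Finset.prod_congr rfl fun p _ => ?_
    rw [one_div]
  have h10 : Real.log x ≤ (WW H)⁻¹ * ((1 + 2 / H) * ∑ s ∈ W, ∏ p ∈ s, 1 / (p : ℝ)) := by
    refine (Pool.Agent.H256R2.SC.LL.harm x hx).trans ?_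
    rw [h1, h2]
    refine h3.trans ?_
    rw [h4, ← h9]
    refine mul_le_mul h7 (mul_le_mul_of_nonneg_right (sum_sq_rough H hH N) h6) ?_ (h8.trans h7)
    exact mul_nonneg (Finset.sum_nonneg fun s _ => by positivity) h6
  have hW0 := WW_pos H
  have hH0 : 0 < 1 + 2 / H := by positivity
  have h11 : WW H * Real.log x ≤ (1 + 2 / H) * ∑ s ∈ W, ∏ p ∈ s, 1 / (p : ℝ) := by
    have := mul_le_mul_of_nonneg_left h10 hW0.le
    rwa [← mul_assoc, mul_inv_cancel₀ hW0.ne', one_mul] at this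
  rw [div_mul_eq_mul_div, div_le_iff₀ hH0]
  linarith

/-- transport of sums over subsets -/
theorem sum_enum (PP : Finset ℕ) (R : ℝ → Prop) :
    ∑ s : Finset (Fin PP.card) with R (∏ i ∈ s, ((emb PP i : ℕ) : ℝ)),
      ∏ i ∈ s, 1 / ((emb PP i : ℕ) : ℝ) =
      ∑ s ∈ (PP.powerset.filter (fun s : Finset ℕ => R (∏ p ∈ s, (p : ℝ)))),
        ∏ p ∈ s, 1 / (p : ℝ) := by
  refine Finset.sum_bij' (fun s _ => s.map (emb PP))
    (fun t _ => univ.filter (fun i => emb PP i ∈ t)) ?_ ?_ ?_ ?_ ?_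
  · intro s hs
    rw [Finset.mem_filter] at hs ⊢
    refine ⟨Finset.mem_powerset.mpr ?_, ?_⟩
    · intro p hp
      obtain ⟨i, _, rfl⟩ := Finset.mem_map.mp hp
      exact emb_mem PP i
    · rw [Finset.prod_map]
      exact hs.2
  · intro t ht
    rw [Finset.mem_filter, Finset.mem_powerset] at ht
    have hmap : (univ.filter (fun i => emb PP i ∈ t)).map (emb PP) = t := by
      ext p
      rw [Finset.mem_map]
      constructor
      · rintro ⟨i, hi, rfl⟩
        exact (Finset.mem_filter.mp hi).2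
      · intro hp
        obtain ⟨i, rfl⟩ := emb_surj PP (ht.1 hp)
        exact ⟨i, Finset.mem_filter.mpr ⟨Finset.mem_univ _, hp⟩, rfl⟩
    rw [Finset.mem_filter]
    refine ⟨Finset.mem_univ _, ?_⟩
    have := ht.2
    rw [← hmap, Finset.prod_map] at this
    exact this
  · intro s _
    ext i
    rw [Finset.mem_filter, Finset.mem_map' (emb PP)]
    simp
  · intro t ht
    rw [Finset.mem_filter, Finset.mem_powerset] at ht
    ext p
    rw [Finset.mem_map]
    constructor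
    · rintro ⟨i, hi, rfl⟩
      exact (Finset.mem_filter.mp hi).2
    · intro hp
      obtain ⟨i, rfl⟩ := emb_surj PP (ht.1 hp)
      exact ⟨i, Finset.mem_filter.mpr ⟨Finset.mem_univ _, hp⟩, rfl⟩
  · intro s _
    rw [Finset.prod_map]

lemma sum_emb (PP : Finset ℕ) (f : ℕ → ℝ) : ∑ i : Fin PP.card, f (emb PP i) = ∑ p ∈ PP, f p := by
  have : PP = univ.map (emb PP) := by
    ext p
    rw [Finset.mem_map]
    constructor
    · intro hp
      obtain ⟨i, hi⟩ := emb_surj PP hp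
      exact ⟨i, Finset.mem_univ _, hi⟩
    · rintro ⟨i, _, rfl⟩
      exact emb_mem PP i
  conv_rhs => rw [this]
  rw [Finset.sum_map]

lemma prod_emb (PP : Finset ℕ) (f : ℕ → ℝ) : ∏ i : Fin PP.card, f (emb PP i) = ∏ p ∈ PP, f p := by
  have : PP = univ.map (emb PP) := by
    ext p
    rw [Finset.mem_map]
    constructor
    · intro hp
      obtain ⟨i, hi⟩ := emb_surj PP hp
      exact ⟨i, Finset.mem_univ _, hi⟩
    · rintro ⟨i, _, rfl⟩
      exact emb_mem PP i
  conv_rhs => rw [this]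
  rw [Finset.prod_map]

/-- upper bound for the mass of the small sizes -/
theorem A0_upper : ∃ C : ℝ, 0 < C ∧ ∀ (H z l₀ : ℝ), 2 ≤ H → H ≤ Real.exp l₀ → Real.exp l₀ ≤ z →
    A0 (fun i => ((emb (PR H z) i : ℕ) : ℝ)) (fun i => 1 / ((emb (PR H z) i : ℕ) : ℝ)) l₀ ≤
      C * l₀ / Real.log H := by
  obtain ⟨C, hC0, hC⟩ := mertens_real
  refine ⟨Real.exp (2 * C), Real.exp_pos _, ?_⟩
  intro H z l₀ hH hHl hlz
  have hz0 : 0 ≤ z := (Real.exp_pos _).le.trans hlz
  have hlH : 0 < Real.log H := Real.log_pos (by linarith)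
  unfold A0
  rw [sum_enum (PR H z) (fun x => Real.log x < l₀)]
  set P' : Finset ℕ := PR H (Real.exp l₀) with hP'
  have hsub : ((PR H z).powerset.filter (fun s : Finset ℕ => Real.log (∏ p ∈ s, (p : ℝ)) < l₀)) ⊆
      P'.powerset := by
    intro s hs
    rw [Finset.mem_filter, Finset.mem_powerset] at hs
    rw [Finset.mem_powerset]
    intro p hp
    obtain ⟨h1, h2, h3⟩ := (mem_PR hz0).1 (hs.1 hp)
    rw [hP', mem_PR (Real.exp_pos _).le]
    refine ⟨h1, h2, ?_⟩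
    have hpos : ∀ q ∈ s, (1:ℝ) ≤ (q:ℝ) := fun q hq => by
      have := ((mem_PR hz0).1 (hs.1 hq)).1.one_lt.le
      exact_mod_cast this
    have h4 : (p : ℝ) ≤ ∏ q ∈ s, (q : ℝ) := by
      rw [← Finset.mul_prod_erase s _ hp]
      have h5 : (1:ℝ) ≤ ∏ q ∈ s.erase p, (q : ℝ) := by
        calc (1:ℝ) = ∏ q ∈ s.erase p, (1:ℝ) := by simp
          _ ≤ _ := Finset.prod_le_prod (fun _ _ => zero_le_one)
            fun q hq => hpos q (Finset.mem_of_mem_erase hq)
      have h6 : (0:ℝ) ≤ p := by positivity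
      nlinarith
    have h7 : 0 < ∏ q ∈ s, (q : ℝ) := Finset.prod_pos fun q hq => by linarith [hpos q hq]
    refine h4.trans ?_
    rw [← Real.log_le_iff_le_exp h7]
    exact hs.2.le
  have h1 : ∑ s ∈ ((PR H z).powerset.filter
      (fun s : Finset ℕ => Real.log (∏ p ∈ s, (p : ℝ)) < l₀)), ∏ p ∈ s, 1 / (p : ℝ) ≤
      ∑ s ∈ P'.powerset, ∏ p ∈ s, 1 / (p : ℝ) :=
    Finset.sum_le_sum_of_subset_of_nonneg hsub fun s _ _ => by positivity
  refine h1.trans ?_
  rw [← Finset.prod_one_add]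
  have h2 : ∏ p ∈ P', (1 + 1 / (p : ℝ)) ≤ Real.exp (∑ p ∈ P', 1 / (p : ℝ)) := by
    rw [Real.exp_sum]
    refine Finset.prod_le_prod (fun p _ => by positivity) fun p _ => ?_
    rw [add_comm]
    exact Real.add_one_le_exp _
  refine h2.trans ?_
  have hl0 : 0 < l₀ := by
    have := Real.log_le_log (by linarith) hHl
    rw [Real.log_exp] at this
    linarith
  have h3 := (abs_le.1 (hC H (Real.exp l₀) hH hHl)).2
  rw [Real.log_exp] at h3
  have h4 : C / Real.log H ≤ 2 * C := by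
    have e1 : (1:ℝ) / 2 ≤ Real.log H := by
      have := Real.log_two_gt_d9
      have := Real.log_le_log (by norm_num) hH
      linarith
    rw [div_le_iff₀ hlH]
    nlinarith
  have h5 : ∑ p ∈ P', 1 / (p : ℝ) ≤ Real.log (l₀ / Real.log H) + 2 * C := by
    rw [hP']
    linarith
  calc Real.exp (∑ p ∈ P', 1 / (p : ℝ)) ≤ Real.exp (Real.log (l₀ / Real.log H) + 2 * C) :=
        Real.exp_le_exp.2 h5
    _ = Real.exp (2 * C) * l₀ / Real.log H := by
        rw [Real.exp_add, Real.exp_log (by positivity)]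
        ring

/-- lower bound of the masses -/
theorem Mj_lower (H z l₀ lam : ℝ) (J j : ℕ) (hH : 1 ≤ H) (hl₀ : 0 < l₀) (hlam : 1 < lam)
    (hj : j ≤ J) (hz : Real.exp (xs l₀ lam J) ≤ z) :
    WW H / (1 + 2 / H) * xs l₀ lam j -
      A0 (fun i => ((emb (PR H z) i : ℕ) : ℝ)) (fun i => 1 / ((emb (PR H z) i : ℕ) : ℝ)) l₀ ≤
    Mj (fun i => ((emb (PR H z) i : ℕ) : ℝ)) (fun i => 1 / ((emb (PR H z) i : ℕ) : ℝ))
      l₀ lam j := by
  have hxj := xs_pos hl₀ hlam j
  have hx : Real.exp (xs l₀ lam j) ≤ z :=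
    (Real.exp_le_exp.2 (xs_mono hl₀ hlam hj)).trans hz
  have hz0 : 0 ≤ z := (Real.exp_pos _).le.trans hz
  have h1 := rough_main H z (Real.exp (xs l₀ lam j)) hH hx (Real.one_le_exp hxj.le)
  rw [Real.log_exp] at h1
  have h2 := sum_enum (PR H z) (fun x => x ≤ Real.exp (xs l₀ lam j))
  rw [← h2] at h1
  have hpos : ∀ s : Finset (Fin (PR H z).card), 0 < ∏ i ∈ s, ((emb (PR H z) i : ℕ) : ℝ) := by
    intro s
    refine Finset.prod_pos fun i _ => ?_
    have := ((mem_PR hz0).1 (emb_mem (PR H z) i)).1.pos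
    exact_mod_cast this
  have hg : ∀ s : Finset (Fin (PR H z).card), 0 ≤ ∏ i ∈ s, 1 / ((emb (PR H z) i : ℕ) : ℝ) :=
    fun s => Finset.prod_nonneg fun i _ => by positivity
  have h3 : ∑ s : Finset (Fin (PR H z).card) with
      (∏ i ∈ s, ((emb (PR H z) i : ℕ) : ℝ)) ≤ Real.exp (xs l₀ lam j),
      ∏ i ∈ s, 1 / ((emb (PR H z) i : ℕ) : ℝ) ≤
      Mj (fun i => ((emb (PR H z) i : ℕ) : ℝ)) (fun i => 1 / ((emb (PR H z) i : ℕ) : ℝ))
      l₀ lam j + A0 (fun i => ((emb (PR H z) i : ℕ) : ℝ))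
        (fun i => 1 / ((emb (PR H z) i : ℕ) : ℝ)) l₀ := by
    unfold Mj A0
    rw [← Finset.sum_union]
    · refine Finset.sum_le_sum_of_subset_of_nonneg ?_ fun s _ _ => hg s
      intro s hs
      rw [Finset.mem_filter] at hs
      rw [Finset.mem_union, Finset.mem_filter, Finset.mem_filter]
      rcases lt_or_ge (Real.log (∏ i ∈ s, ((emb (PR H z) i : ℕ) : ℝ))) l₀ with h | h
      · exact Or.inr ⟨mem_univ _, h⟩
      · left
        refine ⟨mem_univ _, h, ?_⟩
        rw [Real.log_le_iff_le_exp (hpos s)]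
        exact hs.2
    · rw [Finset.disjoint_left]
      intro s hs hs'
      rw [Finset.mem_filter] at hs hs'
      linarith [hs.2.1, hs'.2]
  linarith

/-- lower bound of the product over the primes -/
theorem WW_lower : ∃ c : ℝ, 0 < c ∧ ∀ H : ℝ, 3 ≤ H → c / Real.log H ≤ WW H := by
  obtain ⟨C, hC⟩ := Pool.Agent.Helper256.KM.mertens_inv
  refine ⟨(Real.exp (C + 2))⁻¹, by positivity, ?_⟩
  intro H hH
  have h1 := LL.bad_prod C hC H hH ∅ (by simp; linarith)
  have hlH : 0 < Real.log H := Real.log_pos (by linarith)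
  have h2 : ∏ p ∈ ((Finset.Icc 1 ⌊H⌋₊) ∪ (∅ : Finset ℕ).filter (fun p : ℕ => H < p)) with p.Prime,
      (1 - (p : ℝ)⁻¹)⁻¹ = (WW H)⁻¹ := by
    unfold WW
    rw [Finset.filter_empty, Finset.union_empty, ← Finset.prod_inv_distrib]
    refine Finset.prod_congr rfl fun p _ => ?_
    rw [one_div]
  rw [h2] at h1
  have hW := WW_pos H
  rw [inv_le_comm₀ hW (by positivity)] at h1
  rw [mul_inv] at h1
  rw [div_eq_mul_inv]
  exact h1

end Pool.Agent.W5h31.RC
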