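import Pool.Agent.W5h31.RC.Sv

set_option autoImplicit false
set_option linter.unusedVariables false

/-! # Survivors of the Erdős–Rankin sieve, sharp count (continued) -/

namespace Pool.Agent.W5h31.RC

open Finset Filter Pool.Agent.H318R2.Cr

open scoped Classical

lemma sum_sq_PR (a b : ℝ) (ha : 1 ≤ a) (hb : 0 ≤ b) :
    ∑ p ∈ PR a b, (1 / (p : ℝ)) ^ 2 ≤ 2 / a := by
  have h1 := sum_sq_rough a ha ⌊b⌋₊
  by_cases hN : 1 ≤ ⌊b⌋₊
  · have hsub : insert 1 (PR a b) ⊆ (Finset.Icc 1 ⌊b⌋₊).filter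
        (fun l : ℕ => l = 1 ∨ a < (l : ℝ)) := by
      intro p hp
      rw [Finset.mem_insert] at hp
      rw [Finset.mem_filter, Finset.mem_Icc]
      rcases hp with rfl | hp
      · exact ⟨⟨le_rfl, hN⟩, Or.inl rfl⟩
      · have h2 := (mem_PR hb).1 hp
        exact ⟨⟨h2.1.one_lt.le, Nat.le_floor h2.2.2⟩, Or.inr h2.2.1⟩
    have h3 : ∑ l ∈ insert 1 (PR a b), ((l : ℝ) ^ 2)⁻¹ ≤ 1 + 2 / a :=
      (Finset.sum_le_sum_of_subset_of_nonneg hsub fun l _ _ => by positivity).trans h1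
    rw [Finset.sum_insert (by
      intro h
      exact Nat.not_prime_one ((mem_PR hb).1 h).1)] at h3
    have h4 : ∑ p ∈ PR a b, (1 / (p : ℝ)) ^ 2 = ∑ l ∈ PR a b, ((l : ℝ) ^ 2)⁻¹ := by
      refine Finset.sum_congr rfl fun p _ => ?_
      rw [one_div, inv_pow]
    rw [h4]
    simp only [Nat.cast_one, one_pow, inv_one] at h3
    linarith
  · have h2 : PR a b = ∅ := by
      unfold PR
      have : ⌊b⌋₊ = 0 := by omega
      rw [this]
      simp
    rw [h2, Finset.sum_empty]
    positivity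

/-- comparison of the products at two points -/
theorem WW_ratio : ∃ C : ℝ, 0 ≤ C ∧ ∀ a b : ℝ, 2 ≤ a → a ≤ b →
    WW a ≤ WW b * (Real.log b / Real.log a * Real.exp (C / Real.log a)) := by
  obtain ⟨C, hC0, hC⟩ := mertens_real
  refine ⟨C + 4, by positivity, ?_⟩
  intro a b ha hab
  have hb : 2 ≤ b := ha.trans hab
  have hla : 0 < Real.log a := Real.log_pos (by linarith)
  have hlb : 0 < Real.log b := Real.log_pos (by linarith)
  have h1 : WW a * ∏ p ∈ PR a b, (1 - 1 / (p : ℝ)) = WW b := by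
    unfold WW
    rw [← Finset.prod_union]
    · refine Finset.prod_congr ?_ fun _ _ => rfl
      ext p
      rw [Finset.mem_union, Finset.mem_filter, Finset.mem_filter, Finset.mem_Icc, Finset.mem_Icc,
        mem_PR (by linarith), Nat.le_floor_iff (by linarith), Nat.le_floor_iff (by linarith)]
      constructor
      · rintro (⟨⟨h1, h2⟩, h3⟩ | ⟨h1, h2, h3⟩)
        · exact ⟨⟨h1, h2.trans hab⟩, h3⟩
        · exact ⟨⟨h1.one_lt.le, h3⟩, h1⟩
      · rintro ⟨⟨h1, h2⟩, h3⟩
        rcases le_or_gt (p : ℝ) a with h4 | h4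
        · exact Or.inl ⟨⟨h1, h4⟩, h3⟩
        · exact Or.inr ⟨h3, h4, h2⟩
    · rw [Finset.disjoint_left]
      intro p hp hp'
      rw [Finset.mem_filter, Finset.mem_Icc, Nat.le_floor_iff (by linarith)] at hp
      have := ((mem_PR (by linarith)).1 hp').2.1
      linarith [hp.1.2]
  have h2 : Real.exp (-(∑ p ∈ PR a b, 1 / (p : ℝ)) - 2 * ∑ p ∈ PR a b, (1 / (p : ℝ)) ^ 2) ≤
      ∏ p ∈ PR a b, (1 - 1 / (p : ℝ)) := by
    have e1 : -(∑ p ∈ PR a b, 1 / (p : ℝ)) - 2 * ∑ p ∈ PR a b, (1 / (p : ℝ)) ^ 2 =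
        ∑ p ∈ PR a b, (-(1 / (p : ℝ)) - 2 * (1 / (p : ℝ)) ^ 2) := by
      rw [Finset.sum_sub_distrib, Finset.sum_neg_distrib, Finset.mul_sum]
    rw [e1, Real.exp_sum]
    refine Finset.prod_le_prod (fun _ _ => (Real.exp_pos _).le) fun p hp => ?_
    apply exp_le_one_sub (by positivity)
    have h3 := ((mem_PR (by linarith)).1 hp).1.two_le
    exact one_div_le_one_div_of_le (by norm_num) (by exact_mod_cast h3)
  have h3 := (abs_le.1 (hC a b ha hab)).2
  have h4 := sum_sq_PR a b (by linarith) (by linarith)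
  have h5 : Real.log a ≤ a := by
    have := Real.log_le_sub_one_of_pos (show 0 < a by linarith)
    linarith
  have h6 : 2 / a ≤ 2 / Real.log a := div_le_div_of_nonneg_left (by norm_num) hla h5
  have hWa := WW_pos a
  have h7 : WW a * Real.exp (-(Real.log (Real.log b / Real.log a)) - (C + 4) / Real.log a) ≤
      WW b := by
    rw [← h1]
    apply mul_le_mul_of_nonneg_left _ hWa.le
    refine le_trans (Real.exp_le_exp.2 ?_) h2
    have e : (C + 4) / Real.log a = C / Real.log a + 2 * (2 / Real.log a) := by ring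
    rw [e]
    linarith
  have h8 : Real.exp (-(Real.log (Real.log b / Real.log a)) - (C + 4) / Real.log a) *
      (Real.log b / Real.log a * Real.exp ((C + 4) / Real.log a)) = 1 := by
    have e1 : Real.log b / Real.log a = Real.exp (Real.log (Real.log b / Real.log a)) :=
      (Real.exp_log (by positivity)).symm
    conv_lhs => rw [e1]
    rw [← Real.exp_add, ← Real.exp_add, Real.log_exp]
    simp
  calc WW a = WW a * (Real.exp (-(Real.log (Real.log b / Real.log a)) - (C + 4) / Real.log a) *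
      (Real.log b / Real.log a * Real.exp ((C + 4) / Real.log a))) := by rw [h8, mul_one]
    _ = WW a * Real.exp (-(Real.log (Real.log b / Real.log a)) - (C + 4) / Real.log a) *
      (Real.log b / Real.log a * Real.exp ((C + 4) / Real.log a)) := by ring
    _ ≤ _ := mul_le_mul_of_nonneg_right h7 (by positivity)

/-- the residue classes modulo the primes up to `x` -/
theorem classes (v h : ℕ) (x : ℝ) (hx : 0 ≤ x) (hvx : (v : ℝ) ≤ x) :
    ∃ b : ℕ → ℕ, (((Finset.Icc 1 h).filter (fun k => ∀ p : ℕ, p.Prime → (p : ℝ) ≤ x →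
        ¬ k ≡ b p [MOD p])).card : ℝ) ≤
      (((Sm.S v h).card : ℝ) + h * ∑ q ∈ PR x h, 1 / (q : ℝ)) * ∏ p ∈ Pz v, (1 - 1 / (p : ℝ)) := by
  set R : Finset ℕ := (Finset.Icc 1 h).filter (fun k => ∀ p : ℕ, p.Prime → (p : ℝ) ≤ x →
    v < p → ¬ p ∣ k) with hR
  obtain ⟨b, hb1, hb2⟩ := Pool.Agent.H256R2.SC.greedy_all (Pz v)
    (fun p hp => (mem_Pz.1 hp).1) R
  refine ⟨fun p => if p ≤ v then b p else 0, ?_⟩
  have hsub : (Finset.Icc 1 h).filter (fun k => ∀ p : ℕ, p.Prime → (p : ℝ) ≤ x →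
        ¬ k ≡ (if p ≤ v then b p else 0) [MOD p]) ⊆
      R.filter (fun k => ∀ p ∈ Pz v, ¬ k ≡ b p [MOD p]) := by
    intro k hk
    rw [Finset.mem_filter] at hk
    rw [Finset.mem_filter, hR, Finset.mem_filter]
    refine ⟨⟨hk.1, fun p hp hpx hpv hpk => ?_⟩, fun p hp => ?_⟩
    · have h1 := hk.2 p hp hpx
      rw [if_neg (by omega)] at h1
      exact h1 ((Nat.modEq_zero_iff_dvd).2 hpk)
    · obtain ⟨hpp, hpv⟩ := mem_Pz.1 hp
      have hpv' : (p : ℝ) ≤ v := by exact_mod_cast hpv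
      have h1 := hk.2 p hpp (hpv'.trans hvx)
      rwa [if_pos hpv] at h1
  have hprod : 0 ≤ ∏ p ∈ Pz v, (1 - 1 / (p : ℝ)) := by
    refine Finset.prod_nonneg fun p hp => ?_
    have h1 := (mem_Pz.1 hp).1.one_lt
    have h2 : (1:ℝ) < p := by exact_mod_cast h1
    have h3 : 1 / (p : ℝ) < 1 := by rw [div_lt_one (by linarith)]; exact h2
    linarith
  refine (Nat.cast_le.2 (Finset.card_le_card hsub)).trans (hb2.trans ?_)
  apply mul_le_mul_of_nonneg_right _ hprod
  -- the size of `R`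
  have hRsub : R ⊆ Sm.S v h ∪ (PR x h).biUnion (fun q => (Finset.Icc 1 h).filter (fun k => q ∣ k)) := by
    intro k hk
    rw [hR, Finset.mem_filter, Finset.mem_Icc] at hk
    rw [Finset.mem_union]
    by_cases hs : ∀ p : ℕ, p.Prime → p ∣ k → p ≤ v
    · left
      exact Sm.mem_S.2 ⟨hk.1, hs⟩
    · right
      push Not at hs
      obtain ⟨q, hq, hqk, hqv⟩ := hs
      rw [Finset.mem_biUnion]
      refine ⟨q, ?_, ?_⟩
      · rw [mem_PR (Nat.cast_nonneg _)]
        refine ⟨hq, ?_, ?_⟩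
        · by_contra hc
          push Not at hc
          exact hk.2 q hq hc hqv hqk
        · have := Nat.le_of_dvd (by omega) hqk
          exact_mod_cast this.trans hk.1.2
      · rw [Finset.mem_filter, Finset.mem_Icc]
        exact ⟨hk.1, hqk⟩
  have h1 := (Finset.card_le_card hRsub).trans (Finset.card_union_le _ _)
  have h2 : ((PR x h).biUnion (fun q => (Finset.Icc 1 h).filter (fun k => q ∣ k))).card ≤
      ∑ q ∈ PR x h, ((Finset.Icc 1 h).filter (fun k => q ∣ k)).card := Finset.card_biUnion_le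
  have h3 : ∀ q ∈ PR x h, (((Finset.Icc 1 h).filter (fun k => q ∣ k)).card : ℝ) ≤
      h * (1 / (q : ℝ)) := by
    intro q hq
    have hq0 := ((mem_PR (Nat.cast_nonneg _)).1 hq).1.pos
    have e1 : ((Finset.Icc 1 h).filter (fun k => q ∣ k)).card = h / q := by
      have : Finset.Icc 1 h = Finset.Ioc 0 h := by
        ext k
        rw [Finset.mem_Icc, Finset.mem_Ioc]
        omega
      rw [this, Nat.Ioc_filter_dvd_card_eq_div]
    rw [e1, mul_one_div]
    exact Nat.cast_div_le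
  have h4 : ((R.card : ℕ) : ℝ) ≤ ((Sm.S v h).card : ℝ) +
      ∑ q ∈ PR x h, (((Finset.Icc 1 h).filter (fun k => q ∣ k)).card : ℝ) := by
    have := h1.trans (Nat.add_le_add_left h2 _)
    exact_mod_cast this
  refine h4.trans ?_
  rw [Finset.mul_sum]
  exact add_le_add le_rfl (Finset.sum_le_sum h3)

end Pool.Agent.W5h31.RC
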