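import Pool.Agent.H256R2.SC.Basic
import Pool.Agent.H256R2.SC.D
import Pool.Agent.H256R2.SC.E
import Pool.Agent.H256R2.SC.F

set_option autoImplicit false
set_option linter.unusedSectionVars false

/-! # The covering sieve with weights depending on the set of the colours used

Weighted versions of the lemmas of helper256's team (`Pool.Agent.H256R2.SC`, files D, E, F), with a profile
which need not be monotone and with a sharp Rankin exponent. -/

namespace Pool.Agent.W5h31.RC

open Finset Pool.Agent.H256R2.SC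

variable {n : ℕ} {κ : Type} [Fintype κ] [DecidableEq κ]

/-- the colours used by an assignment -/
def cs (D : Col n κ) : Finset κ := univ.filter (fun k => ∃ i, D i = some k)

lemma mem_cs {D : Col n κ} {k : κ} : k ∈ cs D ↔ ∃ i, D i = some k := by
  simp [cs]

lemma cs_er_subset (k : κ) (D : Col n κ) : cs (er k D) ⊆ cs D := by
  intro l hl
  rw [mem_cs] at hl ⊢
  obtain ⟨i, hi⟩ := hl
  refine ⟨i, ?_⟩
  unfold er at hi
  split_ifs at hi with h
  exact hi

lemma notMem_cs_er (k : κ) (D : Col n κ) : k ∉ cs (er k D) := by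
  rw [mem_cs]
  rintro ⟨i, hi⟩
  unfold er at hi
  split_ifs at hi with h
  exact h hi

lemma cs_eq_insert (k : κ) (D : Col n κ) (h : (fib D k).Nonempty) :
    cs D = insert k (cs (er k D)) := by
  ext l
  rw [mem_insert, mem_cs, mem_cs]
  constructor
  · rintro ⟨i, hi⟩
    by_cases hl : l = k
    · exact Or.inl hl
    · right
      refine ⟨i, ?_⟩
      unfold er
      rw [if_neg]
      · exact hi
      · rw [hi]
        intro e
        exact hl (Option.some.inj e)
  · rintro (rfl | ⟨i, hi⟩)
    · obtain ⟨i, hi⟩ := h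
      exact ⟨i, Pool.Agent.H256R2.SC.mem_fib.1 hi⟩
    · refine ⟨i, ?_⟩
      unfold er at hi
      split_ifs at hi with h
      exact hi

lemma er_eq_self {k : κ} {D : Col n κ} (h : ∀ i, D i ≠ some k) : er k D = D := by
  funext i
  unfold er
  rw [if_neg (h i)]

/-- admissible weights on the sets of colours -/
structure Wt (w : Finset κ → ℝ) (β : ℝ) : Prop where
  w0 : ∀ K, 0 ≤ w K
  b0 : 0 ≤ β
  b1 : β ≤ 1
  emp : w ∅ = 1
  step : ∀ K k, k ∉ K → w (insert k K) ≤ β * w K

lemma Wt.anti {w : Finset κ → ℝ} {β : ℝ} (H : Wt w β) {K K' : Finset κ} (h : K ⊆ K') :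
    w K' ≤ w K := by
  have key : ∀ T : Finset κ, Disjoint T K → w (T ∪ K) ≤ w K := by
    intro T
    induction T using Finset.induction_on with
    | empty => intro _; simp
    | insert a T ha ih =>
      intro hd
      rw [Finset.disjoint_insert_left] at hd
      rw [Finset.insert_union]
      have h1 := H.step (T ∪ K) a (by rw [mem_union]; tauto)
      have h2 := ih hd.2
      have h3 := H.w0 (T ∪ K)
      have h4 := mul_le_mul_of_nonneg_right H.b1 h3
      linarith
  have := key (K' \ K) Finset.sdiff_disjoint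
  rwa [Finset.sdiff_union_of_subset h] at this

/-- hypotheses on the profile -/
structure Prof (p g : Fin n → ℝ) (h : Finset (Fin n) → ℝ) (z K : ℝ) : Prop where
  p1 : ∀ i, 1 < p i
  g0 : ∀ i, 0 < g i
  z1 : 1 < z
  K0 : 0 ≤ K
  h0 : ∀ s, 0 ≤ h s
  h1 : ∀ s, h s ≤ 1
  mem : ∀ i, ∑ s : Finset (Fin n) with i ∈ s, h s * ∏ j ∈ s, g j ≤ 2 * g i
  supp : ∀ s, h s ≠ 0 → ∏ i ∈ s, p i ≤ z
  sum1 : ∑ s : Finset (Fin n) with s.Nonempty, h s * ∏ i ∈ s, g i = 1
  cost : ∑ s : Finset (Fin n) with s.Nonempty,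
    (h s) ^ 2 * (∏ i ∈ s, g i) * Real.log (∏ i ∈ s, p i) ≤ K

section
variable {p g : Fin n → ℝ} {h : Finset (Fin n) → ℝ} {z K : ℝ}

theorem qq_pos (H : Prof p g h z K) (D : Col n κ) : 1 ≤ qq p D := by
  unfold qq
  rw [prod_nu1]
  calc (1 : ℝ) = ∏ i ∈ supp D, (1 : ℝ) := by simp
    _ ≤ ∏ i ∈ supp D, p i := Finset.prod_le_prod (fun _ _ => zero_le_one) fun i _ => (H.p1 i).le

theorem prod_ge_one (H : Prof p g h z K) (s : Finset (Fin n)) : 1 ≤ ∏ i ∈ s, p i := by
  calc (1 : ℝ) = ∏ i ∈ s, (1 : ℝ) := by simp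
    _ ≤ ∏ i ∈ s, p i := Finset.prod_le_prod (fun _ _ => zero_le_one) fun i _ => (H.p1 i).le

theorem RR_big (H : Prof p g h z K) (Q : ℝ)
    (D : Col n κ) (hQ : Q < qq p D) : DD.RR p g h Q D = 0 := by
  unfold DD.RR
  refine Finset.sum_eq_zero fun s _ => ?_
  rw [if_neg]
  have h1 := prod_ge_one H s
  have h2 := qq_pos H D
  nlinarith

theorem RR_le_one (H : Prof p g h z K) (Q : ℝ)
    (D : Col n κ) : 0 ≤ DD.RR p g h Q D ∧ DD.RR p g h Q D ≤ 1 := by
  have hG : ∀ s : Finset (Fin n), 0 ≤ ∏ j ∈ s, g j := fun s =>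
    Finset.prod_nonneg fun j _ => (H.g0 j).le
  by_cases hQ : qq p D ≤ Q
  · rw [DD.RR_eq p g h Q D hQ]
    have h1 : 0 ≤ ∑ s ∈ (free D).powerset with s.Nonempty ∧ (∏ i ∈ s, p i) * qq p D ≤ Q,
        h s * ∏ i ∈ s, g i := Finset.sum_nonneg fun s _ => mul_nonneg (H.h0 s) (hG s)
    have h2 : ∑ s ∈ (free D).powerset with s.Nonempty ∧ (∏ i ∈ s, p i) * qq p D ≤ Q,
        h s * ∏ i ∈ s, g i ≤ ∑ s : Finset (Fin n) with s.Nonempty, h s * ∏ i ∈ s, g i := by
      refine Finset.sum_le_sum_of_subset_of_nonneg ?_ fun s _ _ => mul_nonneg (H.h0 s) (hG s)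
      intro s hs
      rw [Finset.mem_filter] at hs
      exact Finset.mem_filter.2 ⟨Finset.mem_univ _, hs.2.1⟩
    rw [H.sum1] at h2
    constructor <;> linarith
  · rw [RR_big H Q D (not_le.1 hQ)]
    norm_num

theorem RR_le_delta (H : Prof p g h z K)
    (Q : ℝ) (D : Col n κ) (hQ : qq p D ≤ Q / z) :
    DD.RR p g h Q D ≤ 2 * ∑ i with D i ≠ none, g i := by
  have hG : ∀ s : Finset (Fin n), 0 ≤ ∏ j ∈ s, g j := fun s =>
    Finset.prod_nonneg fun j _ => (H.g0 j).le
  have hz0 : 0 < z := by linarith [H.z1]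
  have hqz : qq p D * z ≤ Q := (le_div_iff₀ hz0).1 hQ
  have hq1 := qq_pos H D
  have hQ' : qq p D ≤ Q := by nlinarith [H.z1]
  rw [DD.RR_eq p g h Q D hQ']
  -- the truncation is void
  have h1 : ∑ s ∈ (free D).powerset with s.Nonempty ∧ (∏ i ∈ s, p i) * qq p D ≤ Q,
        h s * ∏ i ∈ s, g i = ∑ s ∈ (free D).powerset with s.Nonempty, h s * ∏ i ∈ s, g i := by
    refine Finset.sum_subset ?_ ?_
    · intro s hs
      rw [Finset.mem_filter] at hs ⊢
      exact ⟨hs.1, hs.2.1⟩
    · intro s hs hs'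
      rw [Finset.mem_filter] at hs hs'
      by_cases h0 : h s = 0
      · rw [h0, zero_mul]
      · exfalso
        apply hs'
        refine ⟨hs.1, hs.2, ?_⟩
        have h2 := H.supp s h0
        calc (∏ i ∈ s, p i) * qq p D ≤ z * qq p D :=
              mul_le_mul_of_nonneg_right h2 (by linarith)
          _ ≤ Q := by linarith
  rw [h1]
  -- sets meeting the support
  have h3 : 1 = ∑ s ∈ (free D).powerset with s.Nonempty, h s * ∏ i ∈ s, g i +
      ∑ s : Finset (Fin n) with ¬ s ⊆ free D, h s * ∏ i ∈ s, g i := by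
    rw [← H.sum1, ← Finset.sum_filter_add_sum_filter_not
      (univ.filter (fun s : Finset (Fin n) => s.Nonempty)) (fun s => s ⊆ free D)]
    congr 1
    · refine Finset.sum_congr ?_ fun _ _ => rfl
      ext s
      simp only [Finset.mem_filter, Finset.mem_univ, true_and, Finset.mem_powerset]
      exact and_comm
    · refine Finset.sum_congr ?_ fun _ _ => rfl
      ext s
      simp only [Finset.mem_filter, Finset.mem_univ, true_and]
      constructor
      · exact fun h => h.2
      · intro h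
        refine ⟨?_, h⟩
        rw [Finset.nonempty_iff_ne_empty]
        rintro rfl
        exact h (Finset.empty_subset _)
  have h4 : ∑ s : Finset (Fin n) with ¬ s ⊆ free D, h s * ∏ i ∈ s, g i ≤
      ∑ i with D i ≠ none, ∑ s : Finset (Fin n) with i ∈ s, h s * ∏ j ∈ s, g j := by
    have h5 : ∀ i : Fin n, ∑ s : Finset (Fin n) with i ∈ s, h s * ∏ j ∈ s, g j =
        ∑ s : Finset (Fin n), if i ∈ s then h s * ∏ j ∈ s, g j else 0 := fun i =>
      Finset.sum_filter _ _
    simp_rw [h5]
    rw [Finset.sum_comm, Finset.sum_filter]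
    refine Finset.sum_le_sum fun s _ => ?_
    have hnn : ∀ i ∈ univ.filter (fun i => D i ≠ none),
        0 ≤ (if i ∈ s then h s * ∏ j ∈ s, g j else 0) := by
      intro i _
      split_ifs
      · exact mul_nonneg (H.h0 s) (hG s)
      · exact le_rfl
    by_cases hs : s ⊆ free D
    · rw [if_neg (not_not.2 hs)]
      exact Finset.sum_nonneg hnn
    · rw [if_pos hs]
      rw [Finset.not_subset] at hs
      obtain ⟨i, his, hi⟩ := hs
      have hi' : i ∈ univ.filter (fun i => D i ≠ none) := by
        rw [Finset.mem_filter]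
        exact ⟨Finset.mem_univ _, fun h => hi (mem_free.2 h)⟩
      calc h s * ∏ j ∈ s, g j = (if i ∈ s then h s * ∏ j ∈ s, g j else 0) := by rw [if_pos his]
        _ ≤ _ := Finset.single_le_sum hnn hi'
  have h6 : ∑ i with D i ≠ none, ∑ s : Finset (Fin n) with i ∈ s, h s * ∏ j ∈ s, g j ≤
      ∑ i with D i ≠ none, 2 * g i := Finset.sum_le_sum fun i _ => H.mem i
  rw [Finset.mul_sum]
  linarith

lemma nu_nn (H : Prof p g h z K) (D : Col n κ) : 0 ≤ nu g D := by
  unfold nu
  rw [prod_nu1]
  exact Finset.prod_nonneg fun j _ => (H.g0 j).le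

/-- termwise bound of the reduced coefficients -/
theorem red_term (H : Prof p g h z K)
    (Q δ : ℝ) (hQ : 0 < Q)
    (hδ : ∀ D : Col n κ, qq p D ≤ Q → 2 * ∑ i with D i ≠ none, g i ≤ δ) (k : κ) (D : Col n κ) :
    nu g D * (red g (yT p h Q) k D) ^ 2 ≤
      δ ^ 2 * ((yy h D) ^ 2 * nu g D) + if Q / z < qq p D then (yy h D) ^ 2 * nu g D else 0 := by
  have hz0 : 0 < z := by linarith [H.z1]
  have hy : 0 ≤ (yy h D) ^ 2 * nu g D := mul_nonneg (sq_nonneg _) (nu_nn H D)
  by_cases hD : D ∈ avoid n k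
  · rw [DD.red_eq p g h Q k D hD]
    obtain ⟨hR0, hR1⟩ := RR_le_one H Q D
    by_cases hq : Q / z < qq p D
    · rw [if_pos hq]
      have h1 : (DD.RR p g h Q D) ^ 2 ≤ 1 := by nlinarith
      have h2 : 0 ≤ δ ^ 2 * ((yy h D) ^ 2 * nu g D) := mul_nonneg (sq_nonneg _) hy
      calc nu g D * (yy h D * DD.RR p g h Q D) ^ 2 =
          ((yy h D) ^ 2 * nu g D) * (DD.RR p g h Q D) ^ 2 := by ring
        _ ≤ ((yy h D) ^ 2 * nu g D) * 1 := mul_le_mul_of_nonneg_left h1 hy
        _ ≤ _ := by linarith
    · rw [if_neg hq, add_zero]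
      have h3 := RR_le_delta H Q D (not_lt.1 hq)
      have hqQ : qq p D ≤ Q := (not_lt.1 hq).trans (div_le_self hQ.le H.z1.le)
      have h4 := h3.trans (hδ D hqQ)
      have h5 : (DD.RR p g h Q D) ^ 2 ≤ δ ^ 2 := pow_le_pow_left₀ hR0 h4 2
      calc nu g D * (yy h D * DD.RR p g h Q D) ^ 2 =
          (DD.RR p g h Q D) ^ 2 * ((yy h D) ^ 2 * nu g D) := by ring
        _ ≤ δ ^ 2 * ((yy h D) ^ 2 * nu g D) := mul_le_mul_of_nonneg_right h5 hy
  · rw [DD.red_zero p g h Q k D hD]
    have h2 : 0 ≤ δ ^ 2 * ((yy h D) ^ 2 * nu g D) := mul_nonneg (sq_nonneg _) hy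
    split_ifs
    · nlinarith
    · nlinarith

end

/-- weighted total mass -/
noncomputable def Zw (g : Fin n → ℝ) (h : Finset (Fin n) → ℝ) (w : Finset κ → ℝ) : ℝ :=
  ∑ D : Col n κ, (yy h D) ^ 2 * nu g D * w (cs D)

/-- weighted tail -/
noncomputable def Tw (p g : Fin n → ℝ) (h : Finset (Fin n) → ℝ) (w : Finset κ → ℝ) (Q' : ℝ) : ℝ :=
  ∑ D : Col n κ with Q' < qq p D, (yy h D) ^ 2 * nu g D * w (cs D)

section
variable {p g : Fin n → ℝ} {h : Finset (Fin n) → ℝ} {z K : ℝ} {w : Finset κ → ℝ} {β : ℝ}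

lemma term_nonneg (H : Prof p g h z K) (hw : Wt w β) (D : Col n κ) :
    0 ≤ (yy h D) ^ 2 * nu g D * w (cs D) :=
  mul_nonneg (mul_nonneg (sq_nonneg _) (nu_nn H D)) (hw.w0 _)

lemma Zw_ge_one (H : Prof p g h z K) (hw : Wt w β) : 1 ≤ Zw g h w := by
  unfold Zw
  have h1 : (yy h (fun _ => none : Col n κ)) ^ 2 * nu g (fun _ => none : Col n κ) *
      w (cs (fun _ => none : Col n κ)) = 1 := by
    have e1 : yy h (fun _ => none : Col n κ) = 1 := by
      unfold yy
      apply Finset.prod_eq_one
      intro k _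
      have : fib (fun _ => none : Col n κ) k = ∅ := by
        unfold fib
        simp
      rw [this]
      simp [al]
    have e2 : nu g (fun _ => none : Col n κ) = 1 := by
      unfold nu
      apply Finset.prod_eq_one
      intro i _
      simp [nu1]
    have e3 : cs (fun _ => none : Col n κ) = ∅ := by
      unfold cs
      simp
    rw [e1, e2, e3, hw.emp]; norm_num
  rw [← h1]
  exact Finset.single_le_sum (f := fun D : Col n κ => (yy h D) ^ 2 * nu g D * w (cs D))
    (fun D _ => term_nonneg H hw D) (Finset.mem_univ _)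

lemma Tw_nonneg (H : Prof p g h z K) (hw : Wt w β) (Q' : ℝ) : 0 ≤ Tw p g h w Q' :=
  Finset.sum_nonneg fun D _ => term_nonneg H hw D

/-- weighted bound of the reduced coefficients -/
theorem red_w (H : Prof p g h z K) (hw : Wt w β)
    (Q δ : ℝ) (hQ : 0 < Q)
    (hδ : ∀ D : Col n κ, qq p D ≤ Q → 2 * ∑ i with D i ≠ none, g i ≤ δ) (k : κ) :
    ∑ D : Col n κ, nu g D * (red g (yT p h Q) k D) ^ 2 * w (cs D) ≤
      δ ^ 2 * Zw g h w + Tw p g h w (Q / z) := by
  unfold Zw Tw
  rw [Finset.mul_sum, Finset.sum_filter, ← Finset.sum_add_distrib]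
  refine Finset.sum_le_sum fun D _ => ?_
  have h1 := mul_le_mul_of_nonneg_right (red_term H Q δ hQ hδ k D) (hw.w0 (cs D))
  refine h1.trans (le_of_eq ?_)
  split_ifs
  · ring
  · ring

/-- the weighted mass with general local weights -/
noncomputable def EZ (g : Fin n → ℝ) (w : Finset κ → ℝ) (W : κ → Finset (Fin n) → ℝ) : ℝ :=
  ∑ D : Col n κ, nu g D * (∏ k, W k (fib D k)) * w (cs D)

/-- changing the weight of one colour -/
theorem EZ_step {g : Fin n → ℝ} (hg : ∀ i, 0 ≤ g i) (hw : Wt w β) (W : κ → Finset (Fin n) → ℝ)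
    (hW : ∀ k s, 0 ≤ W k s) (k : κ) (hk : W k ∅ = 1) (v : Finset (Fin n) → ℝ)
    (hv : ∀ s, 0 ≤ v s) (hve : v ∅ = 0) (c : ℝ)
    (hc : ∑ s : Finset (Fin n), (∏ i ∈ s, g i) * v s ≤ c) :
    EZ g w (Function.update W k (fun s => W k s + v s)) ≤ (1 + β * c) * EZ g w W := by
  classical
  set rest : Col n κ → ℝ := fun D => ∏ l ∈ univ.erase k, W l (fib D l) with hrest
  have hrest0 : ∀ D, 0 ≤ rest D := fun D => Finset.prod_nonneg fun l _ => hW _ _
  have hrest_er : ∀ D : Col n κ, rest (er k D) = rest D := by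
    intro D
    simp only [hrest]
    refine Finset.prod_congr rfl fun l hl => ?_
    rw [E_fib_er_ne (Finset.ne_of_mem_erase hl)]
  have hsplit : ∀ D : Col n κ, ∏ l, W l (fib D l) = W k (fib D k) * rest D := by
    intro D
    rw [← Finset.mul_prod_erase univ _ (mem_univ k)]
  have hsplit' : ∀ D : Col n κ, ∏ l, (Function.update W k (fun s => W k s + v s)) l (fib D l) =
      (W k (fib D k) + v (fib D k)) * rest D := by
    intro D
    rw [← Finset.mul_prod_erase univ _ (mem_univ k)]
    congr 1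
    · simp
    · simp only [hrest]
      refine Finset.prod_congr rfl fun l hl => ?_
      rw [Function.update_of_ne (Finset.ne_of_mem_erase hl)]
  have hc0 : 0 ≤ ∑ s : Finset (Fin n), (∏ i ∈ s, g i) * v s :=
    Finset.sum_nonneg fun s _ => mul_nonneg (Finset.prod_nonneg fun i _ => hg i) (hv s)
  set N0 : Finset (Col n κ) := univ.filter (fun D => fib D k = ∅) with hN0
  have hA : ∑ D ∈ N0, nu g D * rest D * w (cs D) ≤ EZ g w W := by
    unfold EZ
    calc ∑ D ∈ N0, nu g D * rest D * w (cs D)
        = ∑ D ∈ N0, nu g D * (∏ l, W l (fib D l)) * w (cs D) := by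
          refine Finset.sum_congr rfl fun D hD => ?_
          rw [hsplit, (mem_filter.mp hD).2, hk, one_mul]
      _ ≤ _ := Finset.sum_le_sum_of_subset_of_nonneg (Finset.subset_univ _) fun D _ _ =>
          mul_nonneg (mul_nonneg (E_nu_nonneg hg D) (Finset.prod_nonneg fun l _ => hW _ _))
            (hw.w0 _)
  have hB : ∑ D : Col n κ, nu g D * (v (fib D k) * rest D) * w (cs D) ≤
      β * ((∑ D ∈ N0, nu g D * rest D * w (cs D)) *
        ∑ s : Finset (Fin n), (∏ i ∈ s, g i) * v s) := by
    set F : Col n κ × Finset (Fin n) → ℝ :=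
      fun q => (nu g q.1 * rest q.1 * w (cs q.1)) * ((∏ i ∈ q.2, g i) * v q.2) with hF
    have hF0 : ∀ q, 0 ≤ F q := fun q =>
      mul_nonneg (mul_nonneg (mul_nonneg (E_nu_nonneg hg _) (hrest0 _)) (hw.w0 _))
        (mul_nonneg (Finset.prod_nonneg fun i _ => hg i) (hv _))
    calc ∑ D : Col n κ, nu g D * (v (fib D k) * rest D) * w (cs D)
        ≤ ∑ D : Col n κ, β * F (er k D, fib D k) := by
          refine Finset.sum_le_sum fun D _ => ?_
          simp only [hF]
          rw [E_nu_er g k D, hrest_er]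
          rcases Finset.eq_empty_or_nonempty (fib D k) with he | he
          · rw [he, hve]
            simp
          · have h1 : w (cs D) ≤ β * w (cs (er k D)) := by
              rw [cs_eq_insert k D he]
              exact hw.step _ _ (notMem_cs_er k D)
            have h2 : 0 ≤ (∏ i ∈ fib D k, g i) * nu g (er k D) * (v (fib D k) * rest D) :=
              mul_nonneg (mul_nonneg (Finset.prod_nonneg fun i _ => hg i) (E_nu_nonneg hg _))
                (mul_nonneg (hv _) (hrest0 _))
            have h3 := mul_le_mul_of_nonneg_left h1 h2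
            refine h3.trans (le_of_eq ?_)
            ring
      _ = β * ∑ q ∈ univ.image (fun D : Col n κ => (er k D, fib D k)), F q := by
          rw [← Finset.mul_sum, Finset.sum_image]
          intro D _ D' _ h
          exact E_inj k h
      _ ≤ β * ∑ q ∈ N0 ×ˢ (univ : Finset (Finset (Fin n))), F q := by
          refine mul_le_mul_of_nonneg_left ?_ hw.b0
          refine Finset.sum_le_sum_of_subset_of_nonneg ?_ fun q _ _ => hF0 q
          intro q hq
          obtain ⟨D, _, rfl⟩ := mem_image.mp hq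
          rw [mem_product]
          refine ⟨?_, mem_univ _⟩
          rw [hN0, mem_filter]
          exact ⟨mem_univ _, E_fib_er_self k D⟩
      _ = _ := by
          congr 1
          rw [Finset.sum_product, Finset.sum_mul]
          refine Finset.sum_congr rfl fun D _ => ?_
          rw [Finset.mul_sum]
  have hZ0 : 0 ≤ EZ g w W := Finset.sum_nonneg fun D _ =>
    mul_nonneg (mul_nonneg (E_nu_nonneg hg D) (Finset.prod_nonneg fun l _ => hW _ _)) (hw.w0 _)
  have hmain : EZ g w (Function.update W k (fun s => W k s + v s)) =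
      EZ g w W + ∑ D : Col n κ, nu g D * (v (fib D k) * rest D) * w (cs D) := by
    unfold EZ
    rw [← Finset.sum_add_distrib]
    refine Finset.sum_congr rfl fun D _ => ?_
    rw [hsplit, hsplit']
    ring
  rw [hmain]
  have h1 := mul_le_mul hA hc hc0 hZ0
  have h2 := mul_le_mul_of_nonneg_left h1 hw.b0
  have h3 := hB.trans h2
  linarith

/-- Rankin weight -/
noncomputable def ra (p : Fin n → ℝ) (a : ℝ) (s : Finset (Fin n)) : ℝ :=
  Real.exp (a * Real.log (∏ i ∈ s, p i))

lemma exp_sub_one_le {τ x : ℝ} (hx0 : 0 ≤ x) (hxτ : x ≤ τ) (hτ : τ ≤ 1) :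
    Real.exp x - 1 ≤ (1 + τ) * x := by
  have h1 := Real.abs_exp_sub_one_sub_id_le (x := x) (by rw [abs_of_nonneg hx0]; linarith)
  have h2 := (le_abs_self _).trans h1
  nlinarith

/-- the tail, with a sharp exponent -/
theorem tail_w (H : Prof p g h z K) (hw : Wt w β) (τ : ℝ) (hτ0 : 0 < τ) (hτ1 : τ ≤ 1)
    (Q' : ℝ) (hQ' : 0 < Q') :
    Tw p g h w Q' ≤
      Real.exp (τ / Real.log z * ((Fintype.card κ : ℝ) * β * (1 + τ) * K - Real.log Q')) *
        Zw g h w := by
  classical
  have hlz : 0 < Real.log z := Real.log_pos H.z1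
  have hg : ∀ i, 0 ≤ g i := fun i => (H.g0 i).le
  have hp1 : ∀ s : Finset (Fin n), 1 ≤ ∏ i ∈ s, p i := fun s => prod_ge_one H s
  have hlp : ∀ s : Finset (Fin n), 0 ≤ Real.log (∏ i ∈ s, p i) := fun s =>
    Real.log_nonneg (hp1 s)
  set a : ℝ := τ / Real.log z with ha
  have ha0 : 0 < a := div_pos hτ0 hlz
  have he1 : ∀ s, 1 ≤ ra p a s := fun s => Real.one_le_exp (mul_nonneg ha0.le (hlp s))
  -- weights
  set W : Finset κ → κ → Finset (Fin n) → ℝ := fun T k s =>
    (al h s) ^ 2 * (if k ∈ T then ra p a s else 1) with hW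
  have hW0 : ∀ T k s, 0 ≤ W T k s := by
    intro T k s
    simp only [hW]
    refine mul_nonneg (sq_nonneg _) ?_
    split_ifs
    · exact zero_le_one.trans (he1 s)
    · exact zero_le_one
  set v : Finset (Fin n) → ℝ := fun s => (al h s) ^ 2 * (ra p a s - 1) with hv
  have hv0 : ∀ s, 0 ≤ v s := fun s => mul_nonneg (sq_nonneg _) (by linarith [he1 s])
  have hve : v ∅ = 0 := by simp [hv, ra]
  -- the cost of one colour
  have hcost : ∑ s : Finset (Fin n), (∏ i ∈ s, g i) * v s ≤ (1 + τ) * a * K := by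
    have hempty : ∀ s : Finset (Fin n), ¬ s.Nonempty → (∏ i ∈ s, g i) * v s = 0 := by
      intro s hs
      rw [Finset.not_nonempty_iff_eq_empty] at hs
      subst hs
      rw [hve, mul_zero]
    calc ∑ s : Finset (Fin n), (∏ i ∈ s, g i) * v s
        = ∑ s : Finset (Fin n) with s.Nonempty, (∏ i ∈ s, g i) * v s := by
          rw [Finset.sum_filter]
          refine Finset.sum_congr rfl fun s _ => ?_
          split_ifs with hs
          · rfl
          · exact hempty s hs
      _ ≤ ∑ s : Finset (Fin n) with s.Nonempty,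
            ((1 + τ) * a) * ((h s) ^ 2 * (∏ i ∈ s, g i) * Real.log (∏ i ∈ s, p i)) := by
          refine Finset.sum_le_sum fun s hs => ?_
          have hsne : s ≠ ∅ := (mem_filter.mp hs).2.ne_empty
          have hal : (al h s) ^ 2 = (h s) ^ 2 := by
            unfold al
            rw [if_neg hsne, neg_sq, mul_pow, ← pow_mul, mul_comm s.card 2, pow_mul]
            norm_num
          have hgs : 0 ≤ ∏ i ∈ s, g i := Finset.prod_nonneg fun i _ => hg i
          simp only [hv]
          rw [hal]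
          by_cases hh : h s = 0
          · rw [hh]
            simp
          · have hz := H.supp s hh
            have hx0 : 0 ≤ a * Real.log (∏ i ∈ s, p i) := mul_nonneg ha0.le (hlp s)
            have hx1 : a * Real.log (∏ i ∈ s, p i) ≤ τ := by
              rw [ha, div_mul_eq_mul_div, div_le_iff₀ hlz]
              exact mul_le_mul_of_nonneg_left (Real.log_le_log (by linarith [hp1 s]) hz) hτ0.le
            have hexp : ra p a s - 1 ≤ (1 + τ) * (a * Real.log (∏ i ∈ s, p i)) :=
              exp_sub_one_le hx0 hx1 hτ1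
            calc (∏ i ∈ s, g i) * ((h s) ^ 2 * (ra p a s - 1))
                ≤ (∏ i ∈ s, g i) * ((h s) ^ 2 *
                  ((1 + τ) * (a * Real.log (∏ i ∈ s, p i)))) := by
                  gcongr
              _ = _ := by ring
      _ = ((1 + τ) * a) * ∑ s : Finset (Fin n) with s.Nonempty,
            (h s) ^ 2 * (∏ i ∈ s, g i) * Real.log (∏ i ∈ s, p i) := by
          rw [Finset.mul_sum]
      _ ≤ ((1 + τ) * a) * K := by
          have := H.cost
          gcongr
  -- induction over the colours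
  have hK0 := H.K0
  have hind : ∀ T : Finset κ, EZ g w (W T) ≤
      (1 + β * ((1 + τ) * a * K)) ^ T.card * EZ g w (W ∅) := by
    intro T
    induction T using Finset.induction_on with
    | empty => simp
    | insert k T hkT ih =>
      have hupd : W (insert k T) = Function.update (W T) k (fun s => W T k s + v s) := by
        funext l s
        by_cases hl : l = k
        · subst hl
          simp only [Function.update_self, hW, hv, mem_insert_self, if_true, if_neg hkT]
          ring
        · rw [Function.update_of_ne hl]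
          simp only [hW, mem_insert, hl, false_or]
      have hWk : W T k ∅ = 1 := by
        simp [hW, al, hkT]
      have h1 := EZ_step hg hw (W T) (hW0 T) k hWk v hv0 hve _ hcost
      rw [hupd, Finset.card_insert_of_notMem hkT, pow_succ']
      refine h1.trans ?_
      have hK : 0 ≤ 1 + β * ((1 + τ) * a * K) := by
        have := hw.b0
        positivity
      refine (mul_le_mul_of_nonneg_left ih hK).trans (le_of_eq ?_)
      ring
  have hZ0 : EZ g w (W ∅) = Zw g h w := by
    unfold EZ Zw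
    refine Finset.sum_congr rfl fun D _ => ?_
    have : ∏ k, W ∅ k (fib D k) = (yy h D) ^ 2 := by
      unfold yy
      rw [← Finset.prod_pow]
      refine Finset.prod_congr rfl fun k _ => ?_
      simp [hW]
    rw [this]
    ring
  have hZs0 : 0 ≤ Zw g h w := zero_le_one.trans (Zw_ge_one H hw)
  have hZu : EZ g w (W univ) = ∑ D : Col n κ,
      (yy h D) ^ 2 * nu g D * w (cs D) * Real.exp (a * Real.log (qq p D)) := by
    unfold EZ
    refine Finset.sum_congr rfl fun D _ => ?_
    have h1 : ∏ k, W univ k (fib D k) =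
        (yy h D) ^ 2 * Real.exp (a * Real.log (qq p D)) := by
      have h2 : ∀ k, W univ k (fib D k) = (al h (fib D k)) ^ 2 * ra p a (fib D k) := by
        intro k
        simp [hW]
      simp_rw [h2]
      rw [Finset.prod_mul_distrib]
      unfold yy
      rw [Finset.prod_pow]
      congr 1
      unfold ra
      rw [← Real.exp_sum, ← Finset.mul_sum, E_qq, Real.log_prod]
      intro k _
      have := hp1 (fib D k)
      linarith
    rw [h1]
    ring
  have hu := hind univ
  rw [hZ0, hZu, Finset.card_univ] at hu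
  -- Rankin
  have hR : Tw p g h w Q' ≤
      Real.exp (-(a * Real.log Q')) * ∑ D : Col n κ,
        (yy h D) ^ 2 * nu g D * w (cs D) * Real.exp (a * Real.log (qq p D)) := by
    unfold Tw
    rw [Finset.mul_sum]
    refine le_trans ?_ (Finset.sum_le_sum_of_subset_of_nonneg
      (Finset.filter_subset (fun D : Col n κ => Q' < qq p D) univ)
      fun D _ _ => mul_nonneg (Real.exp_pos _).le
        (mul_nonneg (term_nonneg H hw D) (Real.exp_pos _).le))
    refine Finset.sum_le_sum fun D hD => ?_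
    have hQD : Q' < qq p D := (mem_filter.mp hD).2
    have h1 : 1 ≤ Real.exp (-(a * Real.log Q')) *
        Real.exp (a * Real.log (qq p D)) := by
      rw [← Real.exp_add]
      apply Real.one_le_exp
      rw [neg_add_eq_sub, ← mul_sub]
      apply mul_nonneg ha0.le
      linarith [Real.log_le_log hQ' hQD.le]
    have h2 : 0 ≤ (yy h D) ^ 2 * nu g D * w (cs D) := term_nonneg H hw D
    calc (yy h D) ^ 2 * nu g D * w (cs D) = (yy h D) ^ 2 * nu g D * w (cs D) * 1 := (mul_one _).symm
      _ ≤ (yy h D) ^ 2 * nu g D * w (cs D) * (Real.exp (-(a * Real.log Q')) *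
          Real.exp (a * Real.log (qq p D))) := mul_le_mul_of_nonneg_left h1 h2
      _ = _ := by ring
  have hpow : (1 + β * ((1 + τ) * a * K)) ^ Fintype.card κ ≤
      Real.exp ((Fintype.card κ : ℝ) * (β * ((1 + τ) * a * K))) := by
    have hK : 0 ≤ 1 + β * ((1 + τ) * a * K) := by
      have := hw.b0
      positivity
    rw [Real.exp_nat_mul]
    apply pow_le_pow_left₀ hK
    have := Real.add_one_le_exp (β * ((1 + τ) * a * K))
    linarith
  calc Tw p g h w Q' ≤ _ := hR
    _ ≤ Real.exp (-(a * Real.log Q')) *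
        ((1 + β * ((1 + τ) * a * K)) ^ Fintype.card κ * Zw g h w) :=
        mul_le_mul_of_nonneg_left hu (Real.exp_pos _).le
    _ ≤ Real.exp (-(a * Real.log Q')) *
        (Real.exp ((Fintype.card κ : ℝ) * (β * ((1 + τ) * a * K))) * Zw g h w) := by
        gcongr
    _ = Real.exp (a * ((Fintype.card κ : ℝ) * β * (1 + τ) * K - Real.log Q')) * Zw g h w := by
        rw [← mul_assoc, ← Real.exp_add]
        congr 2
        ring

open TaskF in
/-- the sum with the local weights `bet` -/
theorem bet_w (H : Prof p g h z K) (hw : Wt w β)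
    (t : ℝ) (ht : 0 ≤ t) (k₀ : κ) :
    ∑ D : Col n κ, (∏ i, bet (g i) t k₀ (D i)) * (yy h D) ^ 2 * w (cs D) ≤
      Real.exp ((2 + 6 * t) * ∑ i, g i) * Zw g h w := by
  have g0 : ∀ i, 0 ≤ g i := fun i => (H.g0 i).le
  set P : ℝ := ∏ i, (1 + 3 * t * g i) with hP
  have hP0 : 0 ≤ P := prod_nonneg fun i _ => by have := g0 i; positivity
  let W : Finset (Fin n) → ℝ := fun s => ∏ i ∈ s, ((1 + 3 * t) * g i)
  have hW0 : ∀ s, 0 ≤ W s := fun s => prod_nonneg fun i _ => by have := g0 i; positivity
  let F : Col n κ → ℝ := fun D => (yy h D) ^ 2 * nu g D * w (cs D)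
  have hnu0 : ∀ D : Col n κ, 0 ≤ nu g D := nu_nn H
  have hF0 : ∀ D, 0 ≤ F D := fun D => term_nonneg H hw D
  -- termwise bound
  have hterm : ∀ D : Col n κ, (∏ i, bet (g i) t k₀ (D i)) * (yy h D) ^ 2 * w (cs D) ≤
      P * (F (er k₀ D) * W (fib D k₀)) := by
    intro D
    have hb : ∏ i, bet (g i) t k₀ (D i) ≤ P * (nu g (er k₀ D) * W (fib D k₀)) := by
      have hWW : W (fib D k₀) = ∏ i, (if D i = some k₀ then (1 + 3 * t) * g i else 1) := by
        simp only [W, fib]
        rw [prod_filter]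
      rw [hWW, hP]
      unfold nu
      rw [← prod_mul_distrib, ← prod_mul_distrib]
      apply prod_le_prod
      · intro i _
        have := g0 i
        unfold bet
        split
        · positivity
        · split <;> positivity
      · intro i _
        have hg := g0 i
        have h3 : 0 ≤ 3 * t * g i := by positivity
        cases hD : D i with
        | none => simp [bet, er, hD, nu1]
        | some l =>
          by_cases hl : l = k₀
          · subst hl
            simp only [bet, if_true, er, hD, nu1]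
            have h4 : 0 ≤ (1 + 3 * t) * g i := by positivity
            nlinarith
          · have hl' : ¬ (some l = some k₀) := fun e => hl (Option.some.inj e)
            simp only [bet, if_neg hl, er, hD, if_neg hl', nu1]
            nlinarith
    have hbn : 0 ≤ P * (nu g (er k₀ D) * W (fib D k₀)) :=
      mul_nonneg hP0 (mul_nonneg (hnu0 _) (hW0 _))
    have hbn2 : 0 ≤ P * (nu g (er k₀ D) * W (fib D k₀)) * (yy h (er k₀ D)) ^ 2 :=
      mul_nonneg hbn (sq_nonneg _)
    calc (∏ i, bet (g i) t k₀ (D i)) * (yy h D) ^ 2 * w (cs D)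
        ≤ ((P * (nu g (er k₀ D) * W (fib D k₀))) * (yy h (er k₀ D)) ^ 2) * w (cs (er k₀ D)) :=
          mul_le_mul (mul_le_mul hb (yy_sq_le H.h0 H.h1 k₀ D) (sq_nonneg _) hbn)
            (hw.anti (cs_er_subset k₀ D)) (hw.w0 _) hbn2
      _ = P * (F (er k₀ D) * W (fib D k₀)) := by simp only [F]; ring
  -- sum
  have hsum : ∑ D : Col n κ, F (er k₀ D) * W (fib D k₀) ≤ (∑ D : Col n κ, F D) * ∑ s, W s := by
    rw [sum_mul_sum, ← sum_product']
    have e : ∑ D : Col n κ, F (er k₀ D) * W (fib D k₀) =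
        ∑ x ∈ univ.image (fun D : Col n κ => (er k₀ D, fib D k₀)), F x.1 * W x.2 := by
      rw [sum_image]
      intro a _ b _ hab
      exact inj k₀ hab
    rw [e]
    apply sum_le_sum_of_subset_of_nonneg
    · intro x _
      simp
    · intro x _ _
      exact mul_nonneg (hF0 _) (hW0 _)
  have hWs : ∑ s, W s = ∏ i, (1 + (1 + 3 * t) * g i) := by
    rw [prod_one_add]
    simp [W]
  have e1 : P ≤ Real.exp (3 * t * ∑ i, g i) := by
    rw [mul_sum, Real.exp_sum]
    apply prod_le_prod
    · intro i _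
      have := g0 i
      positivity
    · intro i _
      have := Real.add_one_le_exp (3 * t * g i)
      linarith
  have e2 : ∏ i, (1 + (1 + 3 * t) * g i) ≤ Real.exp ((1 + 3 * t) * ∑ i, g i) := by
    rw [mul_sum, Real.exp_sum]
    apply prod_le_prod
    · intro i _
      have := g0 i
      positivity
    · intro i _
      have := Real.add_one_le_exp ((1 + 3 * t) * g i)
      linarith
  have hZ0 : 0 ≤ Zw g h w := sum_nonneg fun D _ => hF0 D
  have hG0 : 0 ≤ ∑ i, g i := sum_nonneg fun i _ => g0 i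
  calc ∑ D : Col n κ, (∏ i, bet (g i) t k₀ (D i)) * (yy h D) ^ 2 * w (cs D)
      ≤ ∑ D : Col n κ, P * (F (er k₀ D) * W (fib D k₀)) := sum_le_sum fun D _ => hterm D
    _ = P * ∑ D : Col n κ, F (er k₀ D) * W (fib D k₀) := by rw [mul_sum]
    _ ≤ P * (Zw g h w * ∏ i, (1 + (1 + 3 * t) * g i)) := by
        rw [← hWs]
        exact mul_le_mul_of_nonneg_left hsum hP0
    _ ≤ Real.exp (3 * t * ∑ i, g i) * (Zw g h w * Real.exp ((1 + 3 * t) * ∑ i, g i)) := by
        apply mul_le_mul e1 _ _ (Real.exp_pos _).le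
        · exact mul_le_mul_of_nonneg_left e2 hZ0
        · apply mul_nonneg hZ0
          refine prod_nonneg fun i _ => ?_
          have := g0 i
          positivity
    _ = Real.exp ((1 + 6 * t) * ∑ i, g i) * Zw g h w := by
        have : Real.exp ((1 + 6 * t) * ∑ i, g i) =
            Real.exp (3 * t * ∑ i, g i) * Real.exp ((1 + 3 * t) * ∑ i, g i) := by
          rw [← Real.exp_add]
          ring_nf
        rw [this]
        ring
    _ ≤ Real.exp ((2 + 6 * t) * ∑ i, g i) * Zw g h w := by
        apply mul_le_mul_of_nonneg_right _ hZ0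
        apply Real.exp_le_exp.mpr
        nlinarith

end

end Pool.Agent.W5h31.RC
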